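import Pool.Agent.Lib.MP_e757b3_an.Conv

/-!
# Convergence of the flow without any hypothesis on the equilibria, II
-/

namespace Pool.Agent.PhysND

open Matrix Set Filter Topology

set_option linter.unusedSectionVars false

variable {n m : Type} [Fintype n] [DecidableEq n] [Fintype m] [DecidableEq m]

variable {C X0 : Matrix n n ℝ} {A : m → Matrix n n ℝ} {b : m → ℝ} {R : ℝ}
  {Φ : ℝ → Matrix n n ℝ}

lemma PF'.continuous {ι : Type} {f : (ι → ℝ) → ℝ} (hf : PF' f) : Continuous f := by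
  obtain ⟨P, hP⟩ := hf
  have : f = fun x => MvPolynomial.eval x P := funext hP
  rw [this]
  exact MvPolynomial.continuous_eval P

lemma sum_abs_X0Dt {Δ : Matrix n n ℝ} {δ : ℝ} (hΔ : ∀ i j, |Δ i j| ≤ δ) :
    (∑ i, ∑ j, |(X0 * Δᵀ) i j|) ≤ (∑ i : n, ∑ _j : n, ∑ k : n, |X0 i k|) * δ := by
  simp only [Finset.sum_mul]
  refine Finset.sum_le_sum fun i _ => Finset.sum_le_sum fun j _ => ?_
  rw [Matrix.mul_apply]
  refine (Finset.abs_sum_le_sum_abs _ _).trans (Finset.sum_le_sum fun k _ => ?_)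
  rw [abs_mul, transpose_apply]
  exact mul_le_mul_of_nonneg_left (hΔ j k) (abs_nonneg _)

lemma sum_abs_DX0Dt {Δ : Matrix n n ℝ} {δ : ℝ} (hδ : 0 ≤ δ) (hΔ : ∀ i j, |Δ i j| ≤ δ) :
    (∑ i, ∑ j, |(Δ * X0 * Δᵀ) i j|)
      ≤ (∑ _i : n, ∑ _j : n, ∑ k : n, ∑ l : n, |X0 k l|) * δ ^ 2 := by
  simp only [Finset.sum_mul]
  refine Finset.sum_le_sum fun i _ => Finset.sum_le_sum fun j _ => ?_
  rw [Matrix.mul_assoc, Matrix.mul_apply]
  refine (Finset.abs_sum_le_sum_abs _ _).trans (Finset.sum_le_sum fun k _ => ?_)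
  rw [abs_mul]
  have h1 : |(X0 * Δᵀ) k j| ≤ (∑ l : n, |X0 k l|) * δ := by
    rw [Matrix.mul_apply, Finset.sum_mul]
    refine (Finset.abs_sum_le_sum_abs _ _).trans (Finset.sum_le_sum fun l _ => ?_)
    rw [abs_mul, transpose_apply]
    exact mul_le_mul_of_nonneg_left (hΔ j l) (abs_nonneg _)
  calc |Δ i k| * |(X0 * Δᵀ) k j| ≤ δ * ((∑ l : n, |X0 k l|) * δ) :=
        mul_le_mul (hΔ i k) h1 (abs_nonneg _) hδ
    _ = ∑ l : n, |X0 k l| * δ ^ 2 := by
        rw [← Finset.sum_mul]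
        ring

theorem hloc_KP (hC : C.PosDef) (hX0 : X0.PosDef) (hA : ∀ l, (A l)ᵀ = A l)
    (hKU : KK C X0 A b R ⊆ UU C X0 A) (κ : ℝ) :
    ∃ lam > 0, ∃ Cq > 0, ∀ z z', KP C X0 A b R z → KP C X0 A b R z' →
      |ff C X0 κ z' - ff C X0 κ z|
        ≤ lam * √(TT C X0 A z) * ‖z' - z‖ + Cq * ‖z' - z‖ ^ 2 := by
  have hCs := symm_of_posDef hC
  have hX0s := symm_of_posDef hX0
  have hKc := compact_KP (A := A) (b := b) (R := R) hC hX0 hKU
  obtain ⟨c, hc0, hc⟩ := entry_bound hC hX0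
  have hPM : PM (fun z : (n × n) ⊕ (m ⊕ Unit) → ℝ => comb A (pp z) - C) :=
    (PM.comb PF_pp).sub (PM.const _)
  obtain ⟨BM, hBM⟩ := hKc.exists_bound_of_continuousOn
    (f := fun z => ∑ i, ∑ j, |(comb A (pp z) - C) i j|)
    (by
      apply Continuous.continuousOn
      exact continuous_finsetSum _ fun i _ => continuous_finsetSum _ fun j _ =>
        (hPM i j).continuous.abs)
  obtain ⟨P, hP⟩ := hKc.exists_bound_of_continuousOn
    (f := fun z => ∑ l, pp z l * ((A l * X0).trace - b l) + κ)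
    (by
      apply Continuous.continuousOn
      exact ((PF'.sum _ fun l _ => (PF_pp l).mul (PF'.const _)).add (PF'.const κ)).continuous)
  set c2 : ℝ := ∑ i : n, ∑ _j : n, ∑ k : n, |X0 i k| with hc2
  set c3 : ℝ := ∑ _i : n, ∑ _j : n, ∑ k : n, ∑ l : n, |X0 k l| with hc3
  have hc20 : 0 ≤ c2 := Finset.sum_nonneg fun _ _ => Finset.sum_nonneg fun _ _ =>
    Finset.sum_nonneg fun _ _ => abs_nonneg _
  have hc30 : 0 ≤ c3 := Finset.sum_nonneg fun _ _ => Finset.sum_nonneg fun _ _ =>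
    Finset.sum_nonneg fun _ _ => Finset.sum_nonneg fun _ _ => abs_nonneg _
  refine ⟨2 * |P| + 2 * (c * c2) + 1, by positivity, |P| + |BM| * c3 + 1, by positivity,
    fun z z' hz hz' => ?_⟩
  set δ : ℝ := ‖z' - z‖ with hδ
  have hδ0 : 0 ≤ δ := norm_nonneg _
  set M : Matrix n n ℝ := comb A (pp z) - C with hM
  have hMs : Mᵀ = M := by rw [hM, transpose_sub, comb_transpose hA, hCs]
  set Δ : Matrix n n ℝ := ph z' - ph z with hΔ
  have hΔb : ∀ i j, |Δ i j| ≤ δ := by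
    intro i j
    have h1 : Δ i j = (z' - z) (Sum.inl (i, j)) := rfl
    rw [h1, ← Real.norm_eq_abs]
    exact norm_le_pi_norm _ _
  have hσb : |sgm z' - sgm z| ≤ δ := by
    have h1 : sgm z' - sgm z = (z' - z) (Sum.inr (Sum.inr ())) := rfl
    rw [h1, ← Real.norm_eq_abs]
    exact norm_le_pi_norm _ _
  set D : ℝ := (M * C⁻¹ * M * XX X0 (ph z)).trace with hD
  have hD0 : 0 ≤ D := quad_nonneg hC.inv.posSemidef (XX_psd hX0.posSemidef _) hMs
  have hTT : TT C X0 A z = D + sgm z ^ 2 := rfl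
  set Q : ℝ := √(TT C X0 A z) with hQ
  have hQ0 : 0 ≤ Q := Real.sqrt_nonneg _
  have hDQ : √D ≤ Q := Real.sqrt_le_sqrt (by rw [hTT]; nlinarith [sq_nonneg (sgm z)])
  have hσQ : sgm z ≤ Q := by
    apply Real.le_sqrt_of_sq_le
    rw [hTT]
    linarith
  -- expansion
  have hXX : XX X0 (ph z') = XX X0 (ph z) + (Δ * X0 * (ph z)ᵀ + ph z * X0 * Δᵀ)
      + Δ * X0 * Δᵀ := by
    have h1 : ph z' = ph z + Δ := by rw [hΔ]; abel
    rw [h1]
    unfold XX
    simp only [transpose_add, add_mul, mul_add]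
    abel
  have hT1 : (M * (Δ * X0 * (ph z)ᵀ)).trace = (M * (ph z * X0 * Δᵀ)).trace := by
    rw [← trace_transpose]
    simp only [transpose_mul, transpose_transpose, hMs, hX0s]
    rw [trace_mul_comm]
    simp only [Matrix.mul_assoc]
  have hMdiff : (M * XX X0 (ph z')).trace - (M * XX X0 (ph z)).trace
      = 2 * ((M * ph z) * (X0 * Δᵀ)).trace + (M * (Δ * X0 * Δᵀ)).trace := by
    rw [hXX, mul_add, mul_add, mul_add, trace_add, trace_add, trace_add, hT1]
    have h1 : (M * (ph z * X0 * Δᵀ)).trace = ((M * ph z) * (X0 * Δᵀ)).trace := by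
      simp only [Matrix.mul_assoc]
    rw [h1]
    ring
  have hSdiff : (comb A (pp z) * XX X0 (ph z')).trace - (comb A (pp z) * XX X0 (ph z)).trace
      = (∑ l, pp z l * ((A l * X0).trace - b l)) * (sgm z' ^ 2 - sgm z ^ 2) := by
    rw [trace_comb_mul, trace_comb_mul, ← Finset.sum_sub_distrib, Finset.sum_mul]
    refine Finset.sum_congr rfl fun l _ => ?_
    rw [hz'.1 l, hz.1 l]
    ring
  have hCM : ∀ Y : Matrix n n ℝ, (C * Y).trace = (comb A (pp z) * Y).trace - (M * Y).trace := by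
    intro Y
    rw [hM, sub_mul, trace_sub]
    ring
  have hmain : ff C X0 κ z' - ff C X0 κ z
      = (∑ l, pp z l * ((A l * X0).trace - b l) + κ) * (sgm z' ^ 2 - sgm z ^ 2)
        - (2 * ((M * ph z) * (X0 * Δᵀ)).trace + (M * (Δ * X0 * Δᵀ)).trace) := by
    unfold ff
    rw [hCM (XX X0 (ph z')), hCM (XX X0 (ph z)), ← hMdiff, add_mul, ← hSdiff]
    ring
  -- bounds
  have hb1 : |((M * ph z) * (X0 * Δᵀ)).trace| ≤ (c * Q) * (c2 * δ) := by
    refine abs_trace_mul_le (fun i j => ?_) (by positivity) (sum_abs_X0Dt hΔb)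
    exact (hc M (ph z) hMs i j).trans (mul_le_mul_of_nonneg_left hDQ hc0.le)
  have hMb : ∀ i j, |M i j| ≤ |BM| := by
    intro i j
    have h1 := hBM z hz
    rw [Real.norm_eq_abs, abs_of_nonneg (Finset.sum_nonneg fun _ _ => Finset.sum_nonneg fun _ _ =>
      abs_nonneg _)] at h1
    have h3 : |M i j| ≤ ∑ j, |M i j| :=
      Finset.single_le_sum (f := fun j => |M i j|) (fun _ _ => abs_nonneg _) (Finset.mem_univ j)
    have h4 : ∑ j, |M i j| ≤ ∑ i, ∑ j, |M i j| :=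
      Finset.single_le_sum (f := fun i => ∑ j, |M i j|)
        (fun _ _ => Finset.sum_nonneg fun _ _ => abs_nonneg _) (Finset.mem_univ i)
    exact (h3.trans h4).trans (h1.trans (le_abs_self _))
  have hb2 : |(M * (Δ * X0 * Δᵀ)).trace| ≤ |BM| * (c3 * δ ^ 2) :=
    abs_trace_mul_le hMb (abs_nonneg _) (sum_abs_DX0Dt hδ0 hΔb)
  have hPb : |∑ l, pp z l * ((A l * X0).trace - b l) + κ| ≤ |P| := by
    have h1 := hP z hz
    rw [Real.norm_eq_abs] at h1
    exact h1.trans (le_abs_self _)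
  have hσ2 : |sgm z' ^ 2 - sgm z ^ 2| ≤ 2 * Q * δ + δ ^ 2 := by
    have h1 : sgm z' ^ 2 - sgm z ^ 2
        = (sgm z' - sgm z) * (2 * sgm z) + (sgm z' - sgm z) ^ 2 := by ring
    rw [h1]
    refine (abs_add_le _ _).trans ?_
    have hσ0 : 0 ≤ sgm z := hz.2.2.1
    have h2 : |(sgm z' - sgm z) * (2 * sgm z)| ≤ δ * (2 * Q) := by
      rw [abs_mul, abs_of_nonneg (by linarith : 0 ≤ 2 * sgm z)]
      exact mul_le_mul hσb (by linarith) (by linarith) hδ0
    have h3 : |(sgm z' - sgm z) ^ 2| ≤ δ ^ 2 := by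
      rw [abs_pow]
      exact pow_le_pow_left₀ (abs_nonneg _) hσb 2
    linarith
  have hb3 : |(∑ l, pp z l * ((A l * X0).trace - b l) + κ) * (sgm z' ^ 2 - sgm z ^ 2)|
      ≤ |P| * (2 * Q * δ + δ ^ 2) := by
    rw [abs_mul]
    exact mul_le_mul hPb hσ2 (abs_nonneg _) (abs_nonneg _)
  rw [hmain]
  have h1 := (abs_le.1 hb1)
  have h2 := (abs_le.1 hb2)
  have h3 := (abs_le.1 hb3)
  have hP0 := abs_nonneg P
  have hB0 := abs_nonneg BM
  have hQδ : 0 ≤ Q * δ := mul_nonneg hQ0 hδ0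
  have hδ2 : 0 ≤ δ ^ 2 := sq_nonneg _
  rw [abs_le]
  constructor
  · nlinarith
  · nlinarith

/-- The factor converges. -/
theorem Flow.phi_converge (F : Flow C X0 A b R Φ) (hC : C.PosDef) (hX0 : X0.PosDef)
    (hA : ∀ l, (A l)ᵀ = A l) (hKU : KK C X0 A b R ⊆ UU C X0 A) :
    ∃ Ψ, Tendsto (al Φ) atTop (𝓝 Ψ) := by
  have hCs := symm_of_posDef hC
  have hCu : IsUnit C.det := hC.det_pos.ne'.isUnit
  -- bound on the multiplier term
  set rr : (n → n → ℝ) → ℝ := fun Ψ => ∑ l, ((gram C A (XX X0 (of Ψ)))⁻¹ *ᵥ b) l *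
    ((A l * X0).trace - b l) with hrr
  have hrrC : ∀ x ∈ UU C X0 A, ContDiffAt ℝ 1 rr x := by
    intro x hx
    have hinv : CDA (fun Ψ : n → n → ℝ => (gram C A (XX X0 (of Ψ)))⁻¹) x :=
      CDA.inv (CDA.gram (CDA_XX X0 x)) hx
    simp only [hrr, Matrix.mulVec, dotProduct]
    exact ContDiffAt.sum fun l _ => (ContDiffAt.sum fun k _ =>
      (hinv l k).mul contDiffAt_const).mul contDiffAt_const
  obtain ⟨c, hc⟩ := bound_KK hC hX0 (cont_of_CD hKU hrrC)
  set κ : ℝ := c + 1 with hκ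
  obtain ⟨lam1, hlam1, Cq, hCq, hloc⟩ := hloc_KP (b := b) (R := R) hC hX0 hA hKU κ
  obtain ⟨ce, hce0, hce⟩ := entry_bound hC hX0
  set c4 : ℝ := (∑ i, ∑ j, |C⁻¹ i j|) * ce with hc4
  have hc40 : 0 ≤ c4 := mul_nonneg (Finset.sum_nonneg fun _ _ => Finset.sum_nonneg fun _ _ =>
    abs_nonneg _) hce0.le
  set y : ℝ → (n × n) ⊕ (m ⊕ Unit) → ℝ := fun t =>
    enc (al Φ t) ((gram C A (XX X0 (of (al Φ t))))⁻¹ *ᵥ b) (Real.exp (-t / 2)) with hy
  have hsq : ∀ t : ℝ, Real.exp (-t / 2) ^ 2 = Real.exp (-t) := by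
    intro t
    rw [pow_two, ← Real.exp_add]
    congr 1
    ring
  have hTTy : ∀ t, TT C X0 A (y t) = (MM C A b (XX X0 (Φ t)) * C⁻¹ * MM C A b (XX X0 (Φ t)) *
      XX X0 (Φ t)).trace + Real.exp (-t) := by
    intro t
    rw [← hsq t]
    rfl
  have hD0 : ∀ t, 0 ≤ (MM C A b (XX X0 (Φ t)) * C⁻¹ * MM C A b (XX X0 (Φ t)) *
      XX X0 (Φ t)).trace := fun t =>
    quad_nonneg hC.inv.posSemidef (XX_psd hX0.posSemidef _) (MM_symm hCs hA b _)
  refine kl_converge (K := KP C X0 A b R) (f := ff C X0 κ) (Θ := TT C X0 A)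
    (SS_KP C X0 A b R) (compact_KP hC hX0 hKU) (PF_ff C X0 κ) (PF_TT C X0 A)
    (lam := lam1 + c4) (Cq := Cq) (by linarith) hCq ?_ (y := y) ?_
    (u := al Φ) (u' := fun t => vel C X0 A b (al Φ t))
    (e' := fun t => (MM C A b (XX X0 (Φ t)) * XX X0 (Φ t)).trace + κ * (-Real.exp (-t)))
    (fun t ht => F.hasDerivAt ht) ?_ ?_ ?_ ?_
  · intro z z' hz hz'
    refine (hloc z z' hz hz').trans ?_
    have h1 : 0 ≤ c4 * √(TT C X0 A z) * ‖z' - z‖ :=
      mul_nonneg (mul_nonneg hc40 (Real.sqrt_nonneg _)) (norm_nonneg _)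
    nlinarith
  · intro t ht
    refine KP_enc hKU (fun l => ?_) ?_ (Real.exp_pos _).le (Real.exp_le_one_iff.2 (by linarith))
    · rw [hsq t]
      exact F.lin t ht l
    · exact F.bdd t ht
  · intro t ht
    set Q := √(TT C X0 A (y t)) with hQ
    have hQ0 : 0 ≤ Q := Real.sqrt_nonneg _
    have h1 : ∀ i j, |(MM C A b (XX X0 (Φ t)) * Φ t) i j| ≤ ce * Q := by
      intro i j
      refine (hce _ (Φ t) (MM_symm hCs hA b _) i j).trans
        (mul_le_mul_of_nonneg_left (Real.sqrt_le_sqrt ?_) hce0.le)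
      rw [hTTy t]
      linarith [Real.exp_pos (-t)]
    have h2 : ‖vel C X0 A b (al Φ t)‖ ≤ c4 * Q := by
      have hr : 0 ≤ c4 * Q := mul_nonneg hc40 hQ0
      rw [pi_norm_le_iff_of_nonneg hr]
      intro i
      rw [pi_norm_le_iff_of_nonneg hr]
      intro j
      have h3 : vel C X0 A b (al Φ t) i j
          = (1 / 2 : ℝ) * ∑ k, C⁻¹ i k * (MM C A b (XX X0 (Φ t)) * Φ t) k j := by
        unfold vel
        rw [Matrix.smul_apply, smul_eq_mul, Matrix.mul_assoc, Matrix.mul_apply, of_al]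
      have h4 : |∑ k, C⁻¹ i k * (MM C A b (XX X0 (Φ t)) * Φ t) k j| ≤ c4 * Q := by
        refine (Finset.abs_sum_le_sum_abs _ _).trans ?_
        calc ∑ k, |C⁻¹ i k * (MM C A b (XX X0 (Φ t)) * Φ t) k j|
            ≤ ∑ k, |C⁻¹ i k| * (ce * Q) := Finset.sum_le_sum fun k _ => by
              rw [abs_mul]
              exact mul_le_mul_of_nonneg_left (h1 k j) (abs_nonneg _)
          _ = (∑ k, |C⁻¹ i k|) * (ce * Q) := by rw [Finset.sum_mul]
          _ ≤ (∑ i, ∑ k, |C⁻¹ i k|) * (ce * Q) := by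
              refine mul_le_mul_of_nonneg_right ?_ (mul_nonneg hce0.le hQ0)
              exact Finset.single_le_sum (f := fun i => ∑ k, |C⁻¹ i k|)
                (fun _ _ => Finset.sum_nonneg fun _ _ => abs_nonneg _) (Finset.mem_univ i)
          _ = c4 * Q := by rw [hc4]; ring
      rw [h3, Real.norm_eq_abs, abs_mul]
      have h5 := abs_nonneg (∑ k, C⁻¹ i k * (MM C A b (XX X0 (Φ t)) * Φ t) k j)
      have h6 : |(1 / 2 : ℝ)| = 1 / 2 := by norm_num
      rw [h6]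
      linarith
    have h7 : 0 ≤ lam1 * Q := mul_nonneg hlam1.le hQ0
    calc ‖vel C X0 A b (al Φ t)‖ ≤ c4 * Q := h2
      _ ≤ (lam1 + c4) * Q := by linarith
  · intro t ht
    have h1 := ((F.derX hC hA ht).constMul C).trace
    rw [trace_C_cond hCu] at h1
    have h2 : HasDerivAt (fun s => Real.exp (-s)) (-Real.exp (-t)) t := by
      have := ((hasDerivAt_id t).fun_neg).exp
      simpa using this
    have h3 := h1.fun_add (h2.const_mul κ)
    have h4 : (fun t => ff C X0 κ (y t)) = fun t =>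
        (C * XX X0 (Φ t)).trace + κ * Real.exp (-t) := by
      funext s
      rw [← hsq s]
      rfl
    rw [h4]
    exact h3
  · intro t ht
    have hm := F.mem ht
    have h1 := energy_id (b := b) hC hA (XX_psd hX0.posSemidef (Φ t))
      (isUnit_iff_ne_zero.2 (hKU hm))
    have h2 : ∑ l, ((gram C A (XX X0 (Φ t)))⁻¹ *ᵥ b) l * ((A l * XX X0 (Φ t)).trace - b l)
        = Real.exp (-t) * rr (al Φ t) := by
      rw [hrr, Finset.mul_sum]
      refine Finset.sum_congr rfl fun l _ => ?_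
      rw [F.lin t ht l, of_al]
      ring
    rw [hTTy t, h1, h2, hκ]
    have h3 := (abs_le.1 (hc _ hm)).1
    have h4 := Real.exp_pos (-t)
    nlinarith
  · intro t _
    rw [hTTy t]
    linarith [hD0 t, Real.exp_pos (-t)]

/-- Convergence to an optimal solution, with no hypothesis on the equilibria. -/
theorem Flow.converge' (F : Flow C X0 A b R Φ) (hC : C.PosDef) (hX0 : X0.PosDef)
    (hA : ∀ l, (A l)ᵀ = A l) (hKU : KK C X0 A b R ⊆ UU C X0 A) :
    ∃ G, Optimal C A b G ∧ ∀ i j, Tendsto (fun t => XX X0 (Φ t) i j) atTop (𝓝 (G i j)) := by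
  obtain ⟨Ψ, hΨ⟩ := F.phi_converge hC hX0 hA hKU
  obtain ⟨⟨L, hL⟩, _, _⟩ := F.energy hC hX0 hA hKU
  have hcl : MapClusterPt Ψ atTop (al Φ) := hΨ.mapClusterPt
  obtain ⟨_, h2, h3, h4⟩ := F.cluster hC hX0 hA hKU hL hcl
  refine ⟨XX X0 (of Ψ), ⟨h2, fun Y hY => ?_⟩, fun i j => ?_⟩
  · rw [h3]
    by_contra hlt
    push Not at hlt
    have hY0 := trace_mul_nonneg hC.posSemidef hY.1
    set θ0 : ℝ := (L - (C * Y).trace) / (1 + (C * Y).trace) with hθ0
    have hθ0pos : 0 < θ0 := div_pos (by linarith) (by linarith)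
    have hbad : {θ : ℝ | (MM C A b (XX X0 (of Ψ)) - θ • C).det = 0}.Finite := finite_bad hC _
    obtain ⟨θ, hθ1, hθ2⟩ : ∃ θ ∈ Ioo 0 θ0,
        θ ∉ {θ : ℝ | (MM C A b (XX X0 (of Ψ)) - θ • C).det = 0} := by
      by_contra hcon
      push Not at hcon
      have h1 : (Ioo 0 θ0).Countable := hbad.countable.mono hcon
      rw [Cardinal.Real.Ioo_countable_iff] at h1
      linarith
    refine F.instability hC hX0 hA hKU hL hY hθ1.1 ?_ ?_
    · have h1 : θ * (1 + (C * Y).trace) < L - (C * Y).trace := by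
        have := hθ1.2
        rwa [hθ0, lt_div_iff₀ (by linarith)] at this
      nlinarith [hθ1.1]
    · intro Ψ' hΨ'
      have h5 : Ψ' = Ψ := by
        have h6 : ClusterPt Ψ' (𝓝 Ψ) := by
          have h7 : ClusterPt Ψ' (map (al Φ) atTop) := hΨ'
          exact h7.mono hΨ
        exact (eq_of_nhds_neBot (by
          have h8 : (𝓝 Ψ' ⊓ 𝓝 Ψ).NeBot := h6
          exact h8))
      rw [h5]
      exact hθ2
  · have h1 : Continuous (fun Ψ : n → n → ℝ => XX X0 (of Ψ) i j) :=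
      CDA.cont fun x => CDA_XX X0 x i j
    exact (h1.tendsto Ψ).comp hΨ

/-- **Deterministic theorem.** -/
theorem converges_of' (hC : C.PosDef) (hA : ∀ l, (A l)ᵀ = A l) (hX0 : X0.PosDef)
    (hnd : ∀ X, X.PosSemidef → OnSeg A b X0 X → Nondeg A X)
    (hrec : (∃ lam : ℝ, 1 ≤ lam ∧ ∀ l, (A l * X0).trace = lam * b l) ∨
      ∀ X, X.PosSemidef → X ≠ 0 → (∀ l, (A l * X).trace = 0) → Nondeg A X) :
    Converges C A b X0 := by
  obtain ⟨R, Φ, F, hKU⟩ := exists_flow hC hA hX0 hnd hrec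
  have h0 : Nondeg A X0 := hnd X0 hX0.posSemidef onSeg_self
  obtain ⟨G, hG1, hG2⟩ := F.converge' hC hX0 hA hKU
  have hsol := F.solves hC hX0 hA h0
  have hinit : XX X0 (Φ 0) = X0 := by rw [F.init]; simp [XX]
  refine ⟨fun t => XX X0 (Φ t), hinit, hsol, ?_, G, hG1, hG2⟩
  intro T _ Y hY0 hY t ht
  exact Solves.unique hC hA h0 (hsol.mono' fun u hu => hu.1) hY (by rw [hY0, hinit]) ht

end Pool.Agent.PhysND
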