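import Pool.Agent.Lib.MP_e757b3_an.Instab

/-!
# A priori bounds on the objective
-/

namespace Pool.Agent.PhysND

open Matrix Set Filter Topology

set_option linter.unusedSectionVars false

variable {n m : Type} [Fintype n] [DecidableEq n] [Fintype m] [DecidableEq m]

variable {C X0 : Matrix n n ℝ} {A : m → Matrix n n ℝ} {b : m → ℝ}

/-- `p · b = tr(S C⁻¹ S X) ≥ 0` -/
lemma qd_nonneg (hC : C.PosDef) (hA : ∀ l, (A l)ᵀ = A l) {X : Matrix n n ℝ}
    (hX : X.PosSemidef) (hu : IsUnit (gram C A X).det) :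
    0 ≤ ∑ l, ((gram C A X)⁻¹ *ᵥ b) l * b l := by
  set p := (gram C A X)⁻¹ *ᵥ b with hp
  have h1 : gram C A X *ᵥ p = b := by
    rw [hp, mulVec_mulVec, mul_nonsing_inv _ hu, one_mulVec]
  have h2 := quad C A X p
  rw [h1, trace_mul_cond (symm_of_posDef hC) (symm_of_posSemidef hX)
    (comb_transpose hA p) (comb_transpose hA p)] at h2
  have h3 := quad_nonneg hC.inv.posSemidef hX (comb_transpose hA p)
  rw [← h2] at h3
  exact h3

lemma trace_MM_mul (X : Matrix n n ℝ) :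
    (MM C A b X * X).trace = ∑ l, ((gram C A X)⁻¹ *ᵥ b) l * (A l * X).trace
      - (C * X).trace := by
  unfold MM
  rw [sub_mul, trace_sub, trace_comb_mul]

/-- the barrier in the radial case -/
lemma bar_radial (hC : C.PosDef) (hA : ∀ l, (A l)ᵀ = A l) {lam : ℝ} (hlam : 1 ≤ lam)
    (hrad : ∀ l, (A l * X0).trace = lam * b l) {X : Matrix n n ℝ} (hX : X.PosSemidef)
    (hs : OnSeg A b X0 X) (hu : IsUnit (gram C A X).det) :
    (MM C A b X * X).trace ≤ 0 := by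
  obtain ⟨s, hs1, hs2⟩ := hs
  have h1 := energy_id (b := b) hC hA hX hu
  have h2 : ∑ l, ((gram C A X)⁻¹ *ᵥ b) l * ((A l * X).trace - b l)
      = (s * (lam - 1)) * ∑ l, ((gram C A X)⁻¹ *ᵥ b) l * b l := by
    rw [Finset.mul_sum]
    refine Finset.sum_congr rfl fun l _ => ?_
    rw [hs2 l, hrad l]
    ring
  have h3 := qd_nonneg (b := b) hC hA hX hu
  have h4 := quad_nonneg hC.inv.posSemidef hX (MM_symm (symm_of_posDef hC) hA b X)
  have h5 : 0 ≤ s * (lam - 1) := mul_nonneg hs1.1 (by linarith)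
  have h6 := mul_nonneg h5 h3
  rw [h1, h2]
  linarith

/-- the barrier when `p · b` is at most the objective -/
lemma bar_of_qd (hC : C.PosDef) (hA : ∀ l, (A l)ᵀ = A l) {X : Matrix n n ℝ} (hX : X.PosSemidef)
    (hu : IsUnit (gram C A X).det)
    (hq : ∑ l, ((gram C A X)⁻¹ *ᵥ b) l * b l ≤ (C * X).trace) :
    (MM C A b X * X).trace ≤ 0 := by
  have h1 := energy_id (b := b) hC hA hX hu
  have h2 := trace_MM_mul (C := C) (A := A) (b := b) X
  have h4 := quad_nonneg hC.inv.posSemidef hX (MM_symm (symm_of_posDef hC) hA b X)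
  have h3 : ∑ l, ((gram C A X)⁻¹ *ᵥ b) l * ((A l * X).trace - b l)
      = ∑ l, ((gram C A X)⁻¹ *ᵥ b) l * (A l * X).trace
        - ∑ l, ((gram C A X)⁻¹ *ᵥ b) l * b l := by
    rw [← Finset.sum_sub_distrib]
    exact Finset.sum_congr rfl fun l _ => by ring
  rw [h3] at h1
  linarith

/-- a priori bound when the recession directions are nondegenerate -/
lemma exists_bar (hC : C.PosDef) (hA : ∀ l, (A l)ᵀ = A l)
    (hnd : ∀ X, X.PosSemidef → OnSeg A b X0 X → Nondeg A X)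
    (hrec : ∀ X, X.PosSemidef → X ≠ 0 → (∀ l, (A l * X).trace = 0) → Nondeg A X) :
    ∃ R, (C * X0).trace ≤ R ∧ ∀ X, X.PosSemidef → OnSeg A b X0 X →
      R ≤ (C * X).trace → ∑ l, ((gram C A X)⁻¹ *ᵥ b) l * b l ≤ (C * X).trace := by
  obtain ⟨κ, hκ0, hκ⟩ := posDef_lower hC
  obtain ⟨κ', hκ'0, hκ'⟩ := posDef_lower (Matrix.PosDef.one (n := n) (R := ℝ))
  -- the compact set of normalised factors
  set S : Set (m → ℝ) := (fun z : ℝ × ℝ => fun l : m =>
    z.1 * (b l + z.2 * ((A l * X0).trace - b l))) '' (Icc (0 : ℝ) 1 ×ˢ Icc (0 : ℝ) 1) with hS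
  have hScl : IsClosed S := by
    apply IsCompact.isClosed
    apply (isCompact_Icc.prod isCompact_Icc).image
    fun_prop
  have hcA : Continuous (fun Ψ : n → n → ℝ => fun l : m => (A l * XX 1 (of Ψ)).trace) :=
    continuous_pi fun l => CDA.cont fun x => CDA.trace ((CDA.const _ x).mul (CDA_XX 1 x))
  have hcC : Continuous (fun Ψ : n → n → ℝ => (C * XX 1 (of Ψ)).trace) :=
    CDA.cont fun x => CDA.trace ((CDA.const _ x).mul (CDA_XX 1 x))
  set Y : Set (n → n → ℝ) := {Ψ | (C * XX 1 (of Ψ)).trace = 1} ∩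
    (fun Ψ : n → n → ℝ => fun l : m => (A l * XX 1 (of Ψ)).trace) ⁻¹' S with hY
  have hYcl : IsClosed Y := (isClosed_eq hcC continuous_const).inter (hScl.preimage hcA)
  have hYc : IsCompact Y := by
    apply Metric.isCompact_of_isClosed_isBounded hYcl
    rw [Metric.isBounded_iff_subset_closedBall 0]
    refine ⟨1 + 1 / (κ * κ'), fun Φ hΦ => ?_⟩
    have hr : 0 ≤ 1 + 1 / (κ * κ') := by positivity
    rw [mem_closedBall_zero_iff, pi_norm_le_iff_of_nonneg hr]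
    intro i
    rw [pi_norm_le_iff_of_nonneg hr]
    intro j
    have h1 := (XX_lower hC Matrix.PosDef.one hκ0.le hκ hκ' (of Φ)).trans (le_of_eq hΦ.1)
    have h2 : Φ i j ^ 2 ≤ ∑ i, ∑ j, (of Φ : Matrix n n ℝ) i j ^ 2 := by
      have h3 : Φ i j ^ 2 ≤ ∑ j, Φ i j ^ 2 :=
        Finset.single_le_sum (f := fun j => Φ i j ^ 2) (fun _ _ => sq_nonneg _) (Finset.mem_univ j)
      have h4 : ∑ j, Φ i j ^ 2 ≤ ∑ i, ∑ j, Φ i j ^ 2 :=
        Finset.single_le_sum (f := fun i => ∑ j, Φ i j ^ 2)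
          (fun _ _ => Finset.sum_nonneg fun _ _ => sq_nonneg _) (Finset.mem_univ i)
      exact h3.trans h4
    have hk : 0 < κ * κ' := mul_pos hκ0 hκ'0
    have h5 : Φ i j ^ 2 ≤ 1 / (κ * κ') := by
      rw [le_div_iff₀ hk]
      have h6 : κ * κ' * Φ i j ^ 2 ≤ κ * (κ' * ∑ i, ∑ j, (of Φ : Matrix n n ℝ) i j ^ 2) := by
        rw [mul_assoc]
        exact mul_le_mul_of_nonneg_left (mul_le_mul_of_nonneg_left h2 hκ'0.le) hκ0.le
      linarith
    rw [Real.norm_eq_abs]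
    nlinarith [sq_nonneg (|Φ i j| - 1), sq_abs (Φ i j), abs_nonneg (Φ i j)]
  have hYnd : ∀ Ψ ∈ Y, (gram C A (XX 1 (of Ψ))).det ≠ 0 := by
    intro Ψ hΨ
    obtain ⟨h1, ⟨⟨τ, s⟩, ⟨hτ, hs⟩, hz⟩⟩ := hΨ
    have hpsd : (XX 1 (of Ψ)).PosSemidef := XX_psd Matrix.PosSemidef.one _
    have hne : XX 1 (of Ψ) ≠ 0 := by
      intro h0
      simp only [mem_ofPred_eq, h0, Matrix.mul_zero, trace_zero] at h1
      exact zero_ne_one h1
    have hlin : ∀ l, (A l * XX 1 (of Ψ)).trace = τ * (b l + s * ((A l * X0).trace - b l)) :=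
      fun l => (congrFun hz l).symm
    refine (gram_isUnit hC hA hpsd ?_).ne_zero
    rcases eq_or_lt_of_le hτ.1 with h0 | h0
    · exact hrec _ hpsd hne fun l => by rw [hlin l]; simp only at h0; rw [← h0, zero_mul]
    · have h2 : Nondeg A (τ⁻¹ • XX 1 (of Ψ)) := by
        refine hnd _ (hpsd.smul (inv_nonneg.2 h0.le)) ⟨s, hs, fun l => ?_⟩
        rw [mul_smul_comm, trace_smul, hlin l, smul_eq_mul, ← mul_assoc,
          inv_mul_cancel₀ h0.ne', one_mul]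
      intro p hp h3
      refine h2 p hp ?_
      rw [mul_smul_comm, h3, smul_zero]
  have hcont : ContinuousOn (fun Ψ : n → n → ℝ =>
      ∑ l, ((gram C A (XX 1 (of Ψ)))⁻¹ *ᵥ b) l * b l) Y := by
    intro x hx
    have hinv : CDA (fun Ψ : n → n → ℝ => (gram C A (XX 1 (of Ψ)))⁻¹) x :=
      CDA.inv (CDA.gram (CDA_XX 1 x)) (hYnd x hx)
    have h1 : ContDiffAt ℝ 1 (fun Ψ : n → n → ℝ =>
        ∑ l, ((gram C A (XX 1 (of Ψ)))⁻¹ *ᵥ b) l * b l) x := by
      simp only [Matrix.mulVec, dotProduct]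
      exact ContDiffAt.sum fun l _ => (ContDiffAt.sum fun k _ =>
        (hinv l k).mul contDiffAt_const).mul contDiffAt_const
    exact h1.continuousAt.continuousWithinAt
  obtain ⟨c', hc'⟩ := hYc.exists_bound_of_continuousOn hcont
  refine ⟨max (C * X0).trace (max 1 c'), le_max_left _ _, fun X hX hs hR => ?_⟩
  set E := (C * X).trace with hE
  have hE1 : 1 ≤ E := (le_max_left _ _).trans ((le_max_right _ _).trans hR)
  have hEc : c' ≤ E := (le_max_right _ _).trans ((le_max_right _ _).trans hR)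
  have hE0 : 0 < E := by linarith
  obtain ⟨B, hB⟩ := exists_factor hX
  set Ψ : Matrix n n ℝ := (Real.sqrt E)⁻¹ • Bᵀ with hΨ
  have hXX : XX 1 Ψ = E⁻¹ • X := by
    have h1 : (Real.sqrt E)⁻¹ * (Real.sqrt E)⁻¹ = E⁻¹ := by
      rw [← mul_inv, Real.mul_self_sqrt hE0.le]
    unfold XX
    rw [hΨ, Matrix.mul_one, transpose_smul, smul_mul_smul_comm, h1, transpose_transpose, hB,
      conjTranspose_eq_transpose_of_trivial]
  have hXX' : X = E • XX 1 Ψ := by
    rw [hXX, smul_smul, mul_inv_cancel₀ hE0.ne', one_smul]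
  have hmem : (fun i j => Ψ i j) ∈ Y := by
    have hof : (of (fun i j => Ψ i j) : Matrix n n ℝ) = Ψ := rfl
    refine ⟨?_, ?_⟩
    · show (C * XX 1 (of fun i j => Ψ i j)).trace = 1
      rw [hof, hXX, mul_smul_comm, trace_smul, ← hE, smul_eq_mul, inv_mul_cancel₀ hE0.ne']
    · obtain ⟨s, hs1, hs2⟩ := hs
      refine ⟨(E⁻¹, s), ⟨⟨inv_nonneg.2 hE0.le, inv_le_one_of_one_le₀ hE1⟩, hs1⟩, ?_⟩
      funext l
      show E⁻¹ * (b l + s * ((A l * X0).trace - b l)) = (A l * XX 1 (of fun i j => Ψ i j)).trace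
      rw [hof, hXX, mul_smul_comm, trace_smul, hs2 l, smul_eq_mul]
  have h1 := hc' _ hmem
  have hof : (of (fun i j => Ψ i j) : Matrix n n ℝ) = Ψ := rfl
  simp only [hof] at h1
  have h2 := (le_abs_self _).trans h1
  have h3 : (gram C A X)⁻¹ = E⁻¹ • (gram C A (XX 1 Ψ))⁻¹ := by
    conv_lhs => rw [hXX', gram_smul]
    apply Matrix.inv_eq_right_inv
    have hu : IsUnit (gram C A (XX 1 Ψ)).det := isUnit_iff_ne_zero.2 (hYnd _ hmem)
    rw [smul_mul_smul_comm, mul_inv_cancel₀ hE0.ne', mul_nonsing_inv _ hu, one_smul]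
  have h4 : ∑ l, ((gram C A X)⁻¹ *ᵥ b) l * b l
      = E⁻¹ * ∑ l, ((gram C A (XX 1 Ψ))⁻¹ *ᵥ b) l * b l := by
    rw [h3, Finset.mul_sum]
    refine Finset.sum_congr rfl fun l _ => ?_
    rw [smul_mulVec, Pi.smul_apply, smul_eq_mul, mul_assoc]
  rw [h4]
  have h5 : E⁻¹ ≤ 1 := inv_le_one_of_one_le₀ hE1
  have h6 : 0 ≤ E⁻¹ := inv_nonneg.2 hE0.le
  by_cases h7 : 0 ≤ ∑ l, ((gram C A (XX 1 Ψ))⁻¹ *ᵥ b) l * b l
  · calc E⁻¹ * ∑ l, ((gram C A (XX 1 Ψ))⁻¹ *ᵥ b) l * b l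
        ≤ 1 * ∑ l, ((gram C A (XX 1 Ψ))⁻¹ *ᵥ b) l * b l := mul_le_mul_of_nonneg_right h5 h7
      _ ≤ c' := by rw [one_mul]; exact h2
      _ ≤ E := hEc
  · push Not at h7
    have := mul_nonpos_of_nonneg_of_nonpos h6 h7.le
    linarith

end Pool.Agent.PhysND
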