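import Mathlib

/-!
# A Barbalat lemma and cluster point arguments
-/

namespace Pool.Agent.PhysND

open Set Filter Topology

/-- if `f' ≤ c` on `[0,∞)` then `f s ≤ f t + c (s - t)` -/
lemma le_add_of_deriv_le {f f' : ℝ → ℝ} {c t s : ℝ} (ht : 0 ≤ t) (hts : t ≤ s)
    (hf : ∀ u, 0 ≤ u → HasDerivAt f (f' u) u) (hc : ∀ u ∈ Icc t s, f' u ≤ c) :
    f s ≤ f t + c * (s - t) := by
  have hd : ∀ u ∈ Icc t s, HasDerivAt (fun u => f u - c * u) (f' u - c) u := fun u hu => by
    have := (hf u (ht.trans hu.1)).fun_sub ((hasDerivAt_id u).const_mul c)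
    simpa using this
  have hanti : AntitoneOn (fun u => f u - c * u) (Icc t s) := by
    apply antitoneOn_of_deriv_nonpos (convex_Icc t s)
    · exact fun u hu => (hd u hu).continuousAt.continuousWithinAt
    · intro u hu
      rw [interior_Icc] at hu
      exact (hd u (Ioo_subset_Icc_self hu)).differentiableAt.differentiableWithinAt
    · intro u hu
      rw [interior_Icc] at hu
      rw [(hd u (Ioo_subset_Icc_self hu)).deriv]
      linarith [hc u (Ioo_subset_Icc_self hu)]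
  have := hanti ⟨le_rfl, hts⟩ ⟨hts, le_rfl⟩ hts
  simp only at this
  linarith

/-- Barbalat-type lemma. -/
theorem barbalat {f f' H H' : ℝ → ℝ} {Λ B : ℝ} (hf0 : ∀ t, 0 ≤ t → 0 ≤ f t)
    (hf : ∀ t, 0 ≤ t → HasDerivAt f (f' t) t) (hΛ : ∀ t, 0 ≤ t → |f' t| ≤ Λ)
    (hH : ∀ t, 0 ≤ t → HasDerivAt H (H' t) t) (hH' : ∀ t, 0 ≤ t → H' t ≤ - f t)
    (hb : ∀ t, 0 ≤ t → B ≤ H t) :
    Tendsto f atTop (𝓝 0) ∧ ∃ L, Tendsto H atTop (𝓝 L) := by
  have hanti : ∀ t s, 0 ≤ t → t ≤ s → H s ≤ H t := by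
    intro t s ht hts
    have := le_add_of_deriv_le (c := 0) ht hts hH
      (fun u hu => (hH' u (ht.trans hu.1)).trans (by linarith [hf0 u (ht.trans hu.1)]))
    linarith
  obtain ⟨L, hL⟩ : ∃ L, Tendsto H atTop (𝓝 L) := by
    have h1 : Antitone (fun t => H (max t 0)) := by
      intro t s hts
      exact hanti _ _ (le_max_right _ _) (max_le_max hts le_rfl)
    have h2 : BddBelow (range (fun t => H (max t 0))) :=
      ⟨B, by rintro _ ⟨t, rfl⟩; exact hb _ (le_max_right _ _)⟩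
    refine ⟨_, (tendsto_atTop_ciInf h1 h2).congr' ?_⟩
    filter_upwards [eventually_ge_atTop (0 : ℝ)] with t ht
    rw [max_eq_left ht]
  refine ⟨?_, L, hL⟩
  have hΛ0 : 0 < |Λ| + 1 := by positivity
  rw [Metric.tendsto_atTop]
  intro η hη
  set δ : ℝ := η / (2 * (|Λ| + 1)) with hδ
  have hδ0 : 0 < δ := by positivity
  have hδΛ : (|Λ| + 1) * δ = η / 2 := by
    rw [hδ]; field_simp
  obtain ⟨T, hT⟩ := (Metric.tendsto_atTop.1 hL) (η * δ / 4) (by positivity)
  refine ⟨max T 0, fun t ht => ?_⟩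
  have ht0 : 0 ≤ t := (le_max_right _ _).trans ht
  have htT : T ≤ t := (le_max_left _ _).trans ht
  rw [Real.dist_eq, sub_zero, abs_of_nonneg (hf0 t ht0)]
  by_contra hcon
  push Not at hcon
  have hlow : ∀ s ∈ Icc t (t + δ), η / 2 ≤ f s := by
    intro s hs
    have h1 := le_add_of_deriv_le (f := fun u => - f u) (f' := fun u => - f' u) (c := |Λ| + 1)
      ht0 hs.1 (fun u hu => (hf u hu).fun_neg)
      (fun u hu => by
        have h2 := hΛ u (ht0.trans hu.1)
        have h3 := neg_abs_le (f' u)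
        have h4 := le_abs_self Λ
        linarith)
    have h5 : (|Λ| + 1) * (s - t) ≤ (|Λ| + 1) * δ :=
      mul_le_mul_of_nonneg_left (by linarith [hs.2]) hΛ0.le
    linarith
  have h6 := le_add_of_deriv_le (c := - (η / 2)) ht0 (by linarith : t ≤ t + δ) hH
    (fun u hu => (hH' u (ht0.trans hu.1)).trans (by linarith [hlow u hu]))
  have h7 := hT t htT
  have h8 := hT (t + δ) (by linarith)
  rw [Real.dist_eq, abs_lt] at h7 h8
  nlinarith [h7.1, h7.2, h8.1, h8.2]

variable {X : Type*} [TopologicalSpace X]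

/-- A property that holds at all cluster points of a curve in a compact set holds eventually. -/
theorem eventually_of_cluster {K : Set X} {α : ℝ → X}
    (hα : ∀ᶠ t in atTop, α t ∈ K) {P : X → Prop} (hcomp : IsCompact {x | x ∈ K ∧ ¬ P x})
    (hP : ∀ x ∈ K, MapClusterPt x atTop α → P x) : ∀ᶠ t in atTop, P (α t) := by
  by_contra hcon
  have h1 : ∃ᶠ t in atTop, ¬ P (α t) := Filter.not_eventually.1 hcon
  have h2 : ∃ᶠ t in atTop, α t ∈ {x | x ∈ K ∧ ¬ P x} := by
    refine (h1.and_eventually hα).mono fun t ht => ⟨ht.2, ht.1⟩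
  obtain ⟨x, hx, hxc⟩ := hcomp.exists_mapClusterPt_of_frequently h2
  exact hx.2 (hP x hx.1 hxc)

/-- values of continuous functions at cluster points -/
theorem eq_of_cluster {Y : Type*} [TopologicalSpace Y] [T2Space Y] {α : ℝ → X} {x : X}
    (hx : MapClusterPt x atTop α) {g : X → Y} (hg : ContinuousAt g x) {c : Y}
    (hc : Tendsto (fun t => g (α t)) atTop (𝓝 c)) : g x = c := by
  have h1 : MapClusterPt (g x) atTop (fun t => g (α t)) := hx.continuousAt_comp hg
  have h2 : ClusterPt (g x) (𝓝 c) := ClusterPt.mono h1 hc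
  exact eq_of_nhds_neBot h2

theorem mem_of_cluster {K : Set X} (hK : IsClosed K) {α : ℝ → X} {x : X}
    (hα : ∀ᶠ t in atTop, α t ∈ K) (hx : MapClusterPt x atTop α) : x ∈ K := by
  by_contra hn
  have h1 := hx.frequently (hK.isOpen_compl.eventually_mem hn)
  obtain ⟨t, ht1, ht2⟩ := (h1.and_eventually hα).exists
  exact ht1 ht2

end Pool.Agent.PhysND
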