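import Pool.Agent.Lib.MP_e757b3_an.Sard
import Pool.Agent.Lib.MP_e757b3_an.Conv2

/-!
# For every constraint family and almost every right-hand side all feasible points are
nondegenerate
-/

namespace Pool.Agent.PhysND

open Matrix Set Filter Topology MeasureTheory

set_option linter.unusedSectionVars false

variable {n m : Type} [Fintype n] [DecidableEq n] [Fintype m] [DecidableEq m]

/-! ### quadratic estimate -/

lemma quad_diff {S Y Y' : Matrix n n ℝ} (hS : Sᵀ = S) (hSY : S * Y = 0) :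
    (S * (Y' * Y'ᵀ)).trace - (S * (Y * Yᵀ)).trace
      = (S * ((Y' - Y) * 1 * (Y' - Y)ᵀ)).trace := by
  set Δ := Y' - Y with hΔ
  have h1 : Y' = Y + Δ := by rw [hΔ]; abel
  have h2 : Yᵀ * S = 0 := by
    have := congrArg transpose hSY
    rwa [transpose_mul, hS, transpose_zero] at this
  have h3 : (S * (Δ * Yᵀ)).trace = 0 := by
    rw [← Matrix.mul_assoc, trace_mul_comm, ← Matrix.mul_assoc, h2, Matrix.zero_mul, trace_zero]
  rw [h1]
  simp only [transpose_add, add_mul, mul_add, trace_add, Matrix.mul_one]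
  rw [← Matrix.mul_assoc S Y Yᵀ, ← Matrix.mul_assoc S Y Δᵀ, hSY, Matrix.zero_mul,
    Matrix.zero_mul, trace_zero, h3]
  ring

/-- the constant in the quadratic estimate -/
noncomputable def cst (A : m → Matrix n n ℝ) (R : ℝ) : ℝ :=
  (∑ l, ∑ i, ∑ j, |A l i j|) * R * (∑ _i : n, ∑ _j : n, ∑ k : n, ∑ l : n, |(1 : Matrix n n ℝ) k l|)

lemma quad_est {A : m → Matrix n n ℝ} (hA : ∀ l, (A l)ᵀ = A l) {q : m → ℝ} {R : ℝ} (hR : 0 ≤ R)
    (hq : ∀ l, |q l| ≤ R) {Y Y' : Matrix n n ℝ} (hY : comb A q * Y = 0) {δ : ℝ} (hδ : 0 ≤ δ)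
    (hΔ : ∀ i j, |(Y' - Y) i j| ≤ δ) :
    |∑ l, q l * ((A l * (Y' * Y'ᵀ)).trace - (A l * (Y * Yᵀ)).trace)| ≤ cst A R * δ ^ 2 := by
  have h1 : ∑ l, q l * ((A l * (Y' * Y'ᵀ)).trace - (A l * (Y * Yᵀ)).trace)
      = (comb A q * (Y' * Y'ᵀ)).trace - (comb A q * (Y * Yᵀ)).trace := by
    rw [trace_comb_mul, trace_comb_mul, ← Finset.sum_sub_distrib]
    exact Finset.sum_congr rfl fun l _ => by ring
  rw [h1, quad_diff (comb_transpose hA q) hY]
  have hS : ∀ i j, |comb A q i j| ≤ (∑ l, ∑ i, ∑ j, |A l i j|) * R := by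
    intro i j
    have h2 : comb A q i j = ∑ l, q l * A l i j := by
      simp [comb, Matrix.sum_apply]
    rw [h2, Finset.sum_mul]
    refine (Finset.abs_sum_le_sum_abs _ _).trans (Finset.sum_le_sum fun l _ => ?_)
    rw [abs_mul, mul_comm]
    have h3 : |A l i j| ≤ ∑ j, |A l i j| :=
      Finset.single_le_sum (f := fun j => |A l i j|) (fun _ _ => abs_nonneg _) (Finset.mem_univ j)
    have h4 : ∑ j, |A l i j| ≤ ∑ i, ∑ j, |A l i j| :=
      Finset.single_le_sum (f := fun i => ∑ j, |A l i j|)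
        (fun _ _ => Finset.sum_nonneg fun _ _ => abs_nonneg _) (Finset.mem_univ i)
    exact mul_le_mul (h3.trans h4) (hq l) (abs_nonneg _)
      (Finset.sum_nonneg fun _ _ => Finset.sum_nonneg fun _ _ => abs_nonneg _)
  have h5 := abs_trace_mul_le (P := comb A q) (Q := (Y' - Y) * 1 * (Y' - Y)ᵀ) hS
    (mul_nonneg (Finset.sum_nonneg fun _ _ => Finset.sum_nonneg fun _ _ =>
      Finset.sum_nonneg fun _ _ => abs_nonneg _) hR) (sum_abs_DX0Dt hδ hΔ)
  unfold cst
  linarith

/-! ### Sard -/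

/-- the witnessed critical set -/
def VS (A : m → Matrix n n ℝ) (k : m) (R : ℕ) (w : m ⊕ ((n × n) ⊕ m) → ℝ) : Prop :=
  (∀ l, (A l * ((of fun i j => w (Sum.inr (Sum.inl (i, j))) : Matrix n n ℝ) *
      (of fun i j => w (Sum.inr (Sum.inl (i, j))) : Matrix n n ℝ)ᵀ)).trace = w (Sum.inl l)) ∧
  (∀ i j, (comb A (fun l => w (Sum.inr (Sum.inr l))) *
      (of fun i j => w (Sum.inr (Sum.inl (i, j))) : Matrix n n ℝ)) i j = 0) ∧
  w (Sum.inr (Sum.inr k)) = 1 ∧ (∀ c, -(R : ℝ) ≤ w (Sum.inr c)) ∧ ∀ c, w (Sum.inr c) ≤ (R : ℝ)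

lemma SS_VS (A : m → Matrix n n ℝ) (k : m) (R : ℕ) : SS (VS A k R) := by
  have hY : PM (fun w : m ⊕ ((n × n) ⊕ m) → ℝ =>
      (of fun i j => w (Sum.inr (Sum.inl (i, j))) : Matrix n n ℝ)) := fun i j => PF'.coord _
  refine SS.and (SS.allFin fun l => SS.eq ?_ (PF'.coord _)) (SS.and (SS.allFin fun i =>
    SS.allFin fun j => SS.eq ?_ (PF'.const 0)) (SS.and (SS.eq (PF'.coord _) (PF'.const 1))
    (SS.and (SS.allFin fun c => SS.le (PF'.const _) (PF'.coord _))
      (SS.allFin fun c => SS.le (PF'.coord _) (PF'.const _)))))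
  · exact ((PM.const _).mul (hY.mul hY.transpose)).trace
  · exact ((PM.comb fun l => PF'.coord _).mul hY) i j

/-- closed predicates -/
def CL {ι : Type} (P : (ι → ℝ) → Prop) : Prop := IsClosed {x | P x}

lemma CL.and {ι : Type} {P Q : (ι → ℝ) → Prop} (h : CL P) (h' : CL Q) :
    CL (fun x => P x ∧ Q x) := IsClosed.inter h h'

lemma CL.all {ι : Type} {κ : Type*} {P : κ → (ι → ℝ) → Prop} (h : ∀ k, CL (P k)) :
    CL (fun x => ∀ k, P k x) := by
  have h1 : {x : ι → ℝ | ∀ k, P k x} = ⋂ k, {x | P k x} := by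
    ext x
    simp
  unfold CL
  rw [h1]
  exact isClosed_iInter h

lemma CL.eq {ι : Type} {f g : (ι → ℝ) → ℝ} (hf : PF' f) (hg : PF' g) :
    CL (fun x => f x = g x) := isClosed_eq hf.continuous hg.continuous

lemma CL.le {ι : Type} {f g : (ι → ℝ) → ℝ} (hf : PF' f) (hg : PF' g) :
    CL (fun x => f x ≤ g x) := isClosed_le hf.continuous hg.continuous

lemma closed_VS (A : m → Matrix n n ℝ) (k : m) (R : ℕ) : CL (VS A k R) := by
  have hY : PM (fun w : m ⊕ ((n × n) ⊕ m) → ℝ =>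
      (of fun i j => w (Sum.inr (Sum.inl (i, j))) : Matrix n n ℝ)) := fun i j => PF'.coord _
  refine CL.and (CL.all fun l => CL.eq ?_ (PF'.coord _)) (CL.and (CL.all fun i =>
    CL.all fun j => CL.eq ?_ (PF'.const 0)) (CL.and (CL.eq (PF'.coord _) (PF'.const 1))
    (CL.and (CL.all fun c => CL.le (PF'.const _) (PF'.coord _))
      (CL.all fun c => CL.le (PF'.coord _) (PF'.const _)))))
  · exact ((PM.const _).mul (hY.mul hY.transpose)).trace
  · exact ((PM.comb fun l => PF'.coord _).mul hY) i j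

lemma exists_sqrt {X : Matrix n n ℝ} (hX : X.PosSemidef) : ∃ Y : Matrix n n ℝ, X = Y * Yᵀ := by
  obtain ⟨B, hB⟩ := exists_factor hX
  refine ⟨Bᵀ, ?_⟩
  rw [transpose_transpose, hB, conjTranspose_eq_transpose_of_trivial]

lemma mul_sqrt_zero {S Y : Matrix n n ℝ} (hS : Sᵀ = S) (h : S * (Y * Yᵀ) = 0) : S * Y = 0 := by
  have h1 : (S * Y) * (S * Y)ᴴ = 0 := by
    rw [conjTranspose_eq_transpose_of_trivial, transpose_mul, hS]
    calc S * Y * (Yᵀ * S) = (S * (Y * Yᵀ)) * S := by simp only [Matrix.mul_assoc]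
      _ = 0 := by rw [h, Matrix.zero_mul]
  exact Matrix.self_mul_conjTranspose_eq_zero.1 h1

/-- **Sard.** For every constraint family and almost every right-hand side, every feasible point
is nondegenerate. -/
theorem sard {A : m → Matrix n n ℝ} (hA : ∀ l, (A l)ᵀ = A l) :
    ∀ᵐ b : m → ℝ, ∀ X : Matrix n n ℝ, X.PosSemidef → (∀ l, (A l * X).trace = b l) →
      Nondeg A X := by
  have h1 : ∀ᵐ b : m → ℝ, ∀ k : m, ∀ R : ℕ,
      b ∉ {b : m → ℝ | ∃ z, VS A k R (Sum.elim b z)} := by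
    rw [ae_all_iff]
    intro k
    rw [ae_all_iff]
    intro R
    apply measure_eq_zero_iff_ae_notMem.1
    refine null_of_line (SS_VS A k R) (closed_VS A k R) (R := R) ?_ (Pi.single k 1)
      (Cq := cst A R) ?_
    · intro w z hz
      rw [pi_norm_le_iff_of_nonneg (Nat.cast_nonneg _)]
      intro c
      rw [Real.norm_eq_abs, abs_le]
      exact ⟨hz.2.2.2.1 c, hz.2.2.2.2 c⟩
    · intro w z z' τ hz hz'
      set Y : Matrix n n ℝ := of fun i j => z (Sum.inl (i, j)) with hY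
      set Y' : Matrix n n ℝ := of fun i j => z' (Sum.inl (i, j)) with hY'
      set q : m → ℝ := fun l => z (Sum.inr l) with hq
      have e1 : ∀ l, (A l * (Y * Yᵀ)).trace = w l := hz.1
      have e2 : comb A q * Y = 0 := by
        ext i j
        exact hz.2.1 i j
      have e3 : q k = 1 := hz.2.2.1
      have e4 : ∀ l, (A l * (Y' * Y'ᵀ)).trace = (w + τ • (Pi.single k 1 : m → ℝ)) l := hz'.1
      have h2 := quad_est hA (R := R) (Nat.cast_nonneg _) (q := q) (fun l => by
        rw [abs_le]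
        exact ⟨hz.2.2.2.1 (Sum.inr l), hz.2.2.2.2 (Sum.inr l)⟩) e2 (Y' := Y')
        (norm_nonneg (z' - z)) (fun i j => by
          have h3 : (Y' - Y) i j = (z' - z) (Sum.inl (i, j)) := rfl
          rw [h3, ← Real.norm_eq_abs]
          exact norm_le_pi_norm _ _)
      have h4 : ∑ l, q l * ((A l * (Y' * Y'ᵀ)).trace - (A l * (Y * Yᵀ)).trace) = τ := by
        have h5 : ∀ l, q l * ((A l * (Y' * Y'ᵀ)).trace - (A l * (Y * Yᵀ)).trace)
            = if l = k then τ * q k else 0 := by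
          intro l
          rw [e1, e4]
          simp only [Pi.add_apply, Pi.smul_apply, smul_eq_mul]
          split_ifs with hl
          · subst hl
            simp
            ring
          · simp [hl]
        simp only [h5]
        simp [e3]
      rw [h4] at h2
      exact h2
  filter_upwards [h1] with b hb X hX hXb q hq hqX
  obtain ⟨k, hk⟩ : ∃ k, q k ≠ 0 := by
    by_contra hcon
    push Not at hcon
    exact hq (funext hcon)
  obtain ⟨Y, hY⟩ := exists_sqrt hX
  set q' : m → ℝ := fun l => q l / q k with hq'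
  have hcomb : comb A q' = (q k)⁻¹ • comb A q := by
    unfold comb
    rw [Finset.smul_sum]
    refine Finset.sum_congr rfl fun l _ => ?_
    rw [smul_smul]
    congr 1
    show q l / q k = (q k)⁻¹ * q l
    rw [div_eq_inv_mul]
  have h2 : comb A q' * Y = 0 := by
    apply mul_sqrt_zero (comb_transpose hA q')
    rw [← hY, hcomb, smul_mul_assoc, hqX, smul_zero]
  set z : (n × n) ⊕ m → ℝ := Sum.elim (fun c => Y c.1 c.2) q' with hz
  obtain ⟨R, hR⟩ := exists_nat_ge ‖z‖
  refine hb k R ⟨z, ?_, ?_, ?_, ?_, ?_⟩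
  · intro l
    show (A l * (Y * Yᵀ)).trace = b l
    rw [← hY]
    exact hXb l
  · intro i j
    have h3 := congrFun (congrFun h2 i) j
    exact h3
  · show q' k = 1
    rw [hq']
    exact div_self hk
  · intro c
    show -(R : ℝ) ≤ z c
    have h3 := (norm_le_pi_norm z c).trans hR
    rw [Real.norm_eq_abs, abs_le] at h3
    exact h3.1
  · intro c
    show z c ≤ (R : ℝ)
    have h3 := (norm_le_pi_norm z c).trans hR
    rw [Real.norm_eq_abs, abs_le] at h3
    exact h3.2

/-- **Every objective, every constraint family, almost every right-hand side, every feasible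
start** (more generally `𝒜 X₀ = λ b`, `λ ≥ 1`). -/
theorem every_family {A : m → Matrix n n ℝ} (hA : ∀ l, (A l)ᵀ = A l) :
    ∀ᵐ b : m → ℝ, ∀ C : Matrix n n ℝ, C.PosDef → ∀ X0 : Matrix n n ℝ, X0.PosDef →
      (∃ lam : ℝ, 1 ≤ lam ∧ ∀ l, (A l * X0).trace = lam * b l) → Converges C A b X0 := by
  filter_upwards [sard hA] with b hb C hC X0 hX0 hrad
  obtain ⟨lam, hlam, hl⟩ := hrad
  refine converges_of' hC hA hX0 ?_ (Or.inl ⟨lam, hlam, hl⟩)
  intro X hX hs
  obtain ⟨s, hs1, hs2⟩ := hs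
  have hκ : 0 < 1 + s * (lam - 1) := by
    have := mul_nonneg hs1.1 (by linarith : 0 ≤ lam - 1)
    linarith
  have h1 : Nondeg A ((1 + s * (lam - 1))⁻¹ • X) := by
    refine hb _ (hX.smul (inv_nonneg.2 hκ.le)) fun l => ?_
    rw [mul_smul_comm, trace_smul, smul_eq_mul, hs2 l, hl l]
    have h3 : b l + s * (lam * b l - b l) = (1 + s * (lam - 1)) * b l := by ring
    rw [h3, ← mul_assoc, inv_mul_cancel₀ hκ.ne', one_mul]
  intro p hp h2
  apply h1 p hp
  rw [mul_smul_comm, h2, smul_zero]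

end Pool.Agent.PhysND
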