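import Pool.Agent.Lib.MP_e757b3_ae.Base
import Pool.Agent.Lib.MP_e757b3_an.Sard2

/-!
# From the matrix form to the vectorised form of the dynamic
-/

namespace Pool.Agent.PhysND

open Matrix Set Filter Topology MeasureTheory
open Pool.Agent.Lib.MP_e757b3_ae (constraintMatrix conductance IsMoorePenrose IsTrajectory
  IsFeasible IsOptimal constraint_transpose_mulVec constraint_mulVec conductance_mulVec)

variable {n m : ℕ} {C : Matrix (Fin n) (Fin n) ℝ} {A : Fin m → Matrix (Fin n) (Fin n) ℝ}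
  {b : Fin m → ℝ} {X₀ : Matrix (Fin n) (Fin n) ℝ}

lemma gram_vec (hC : C.PosDef) (hA : ∀ l, (A l).IsSymm) {X : Matrix (Fin n) (Fin n) ℝ}
    (hX : Xᵀ = X) :
    constraintMatrix A * conductance C X * (constraintMatrix A)ᵀ = gram C A X := by
  have key : ∀ (e : Fin m → ℝ) (l : Fin m),
      ((constraintMatrix A * conductance C X * (constraintMatrix A)ᵀ) *ᵥ e) l =
        (gram C A X *ᵥ e) l := by
    intro e l
    rw [← Matrix.mulVec_mulVec, ← Matrix.mulVec_mulVec, constraint_transpose_mulVec,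
      conductance_mulVec (inv_transpose (symm_of_posDef hC)) hX, constraint_mulVec A hA,
      gram_mulVec]
    rfl
  ext l k
  have h1 := key (Pi.single k 1) l
  rw [Matrix.mulVec_single_one, Matrix.mulVec_single_one] at h1
  exact h1

lemma rhs_vec (hC : C.PosDef) {X : Matrix (Fin n) (Fin n) ℝ} (hX : Xᵀ = X)
    (N : Matrix (Fin m) (Fin m) ℝ) (i j : Fin n) :
    ((conductance C X * (constraintMatrix A)ᵀ * N) *ᵥ b - Matrix.vec X) (j, i) =
      cond C X (comb A (N *ᵥ b)) i j - X i j := by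
  rw [← Matrix.mulVec_mulVec, ← Matrix.mulVec_mulVec, constraint_transpose_mulVec,
    conductance_mulVec (inv_transpose (symm_of_posDef hC)) hX]
  rfl

theorem traj_iff (hC : C.PosDef) (hA : ∀ l, (A l).IsSymm) {I : Set ℝ}
    {X : ℝ → Matrix (Fin n) (Fin n) ℝ} : IsTrajectory C A b I X ↔ Solves C A b I X := by
  constructor
  · intro h t ht
    obtain ⟨hp, N, hN, hder⟩ := h t ht
    have hXs := symm_of_posDef hp
    rw [gram_vec hC hA hXs] at hN
    refine ⟨hp, N, ⟨hN.mul_mul_self, hN.self_mul_mul, hN.symm_left, hN.symm_right⟩,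
      fun i j => ?_⟩
    have h1 := hasDerivWithinAt_pi.1 hder (j, i)
    rw [rhs_vec hC hXs] at h1
    exact h1
  · intro h t ht
    obtain ⟨hp, N, hN, hder⟩ := h t ht
    have hXs := symm_of_posDef hp
    refine ⟨hp, N, ?_, ?_⟩
    · rw [gram_vec hC hA hXs]
      exact ⟨hN.mnm, hN.nmn, hN.mn, hN.nm⟩
    · rw [hasDerivWithinAt_pi]
      rintro ⟨j, i⟩
      rw [rhs_vec hC hXs]
      exact hder i j

/-- The conclusion in the vectorised form. -/
theorem Converges.vec (hC : C.PosDef) (hA : ∀ l, (A l).IsSymm) (h : Converges C A b X₀) :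
    ∃ X : ℝ → Matrix (Fin n) (Fin n) ℝ, X 0 = X₀ ∧ IsTrajectory C A b (Set.Ici 0) X ∧
      (∀ (T : ℝ) (Z : ℝ → Matrix (Fin n) (Fin n) ℝ), Z 0 = X₀ →
        IsTrajectory C A b (Set.Ico 0 T) Z → ∀ t ∈ Set.Ico 0 T, Z t = X t) ∧
      ∃ Xs, IsOptimal C A b Xs ∧ Tendsto X atTop (𝓝 Xs) := by
  obtain ⟨X, h0, h1, h2, G, h3, h4⟩ := h
  refine ⟨X, h0, (traj_iff hC hA).2 h1, ?_, G, ⟨⟨h3.1.1, h3.1.2⟩, fun F hF =>
    h3.2 F ⟨hF.1, hF.2⟩⟩, ?_⟩
  · intro T Z hZ0 hZ t ht
    have hT : 0 < T := ht.1.trans_lt ht.2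
    exact h2 T hT Z hZ0 ((traj_iff hC hA).1 hZ) t ht
  · exact tendsto_pi_nhds.2 fun i => tendsto_pi_nhds.2 fun j => h4 i j

end Pool.Agent.PhysND
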