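import Pool.Agent.Lib.MP_e757b3_an.Defs

/-!
# Entrywise calculus for matrix-valued functions
-/

namespace Pool.Agent.PhysND

open Matrix Set Filter Topology

set_option linter.unusedSectionVars false

variable {n m k l : Type} [Fintype n] [DecidableEq n] [Fintype m] [DecidableEq m]
  [Fintype k] [DecidableEq k] [Fintype l] [DecidableEq l]

/-! ### `C¹` -/

section CDA

variable {E : Type*} [NormedAddCommGroup E] [NormedSpace ℝ E]

/-- entrywise `C¹` at a point -/
def CDA (F : E → Matrix k l ℝ) (x : E) : Prop := ∀ i j, ContDiffAt ℝ 1 (fun y => F y i j) x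

lemma CDA.const (P : Matrix k l ℝ) (x : E) : CDA (fun _ : E => P) x :=
  fun _ _ => contDiffAt_const

lemma CDA.mul {F : E → Matrix k n ℝ} {G : E → Matrix n l ℝ} {x : E} (hF : CDA F x)
    (hG : CDA G x) : CDA (fun y => F y * G y) x := by
  intro i j
  simp only [Matrix.mul_apply]
  exact ContDiffAt.sum fun r _ => (hF i r).mul (hG r j)

lemma CDA.add {F G : E → Matrix k l ℝ} {x : E} (hF : CDA F x)
    (hG : CDA G x) : CDA (fun y => F y + G y) x := by
  intro i j
  simp only [Matrix.add_apply]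
  exact (hF i j).add (hG i j)

lemma CDA.sub {F G : E → Matrix k l ℝ} {x : E} (hF : CDA F x)
    (hG : CDA G x) : CDA (fun y => F y - G y) x := by
  intro i j
  simp only [Matrix.sub_apply]
  exact (hF i j).sub (hG i j)

lemma CDA.smul {F : E → Matrix k l ℝ} {f : E → ℝ} {x : E} (hf : ContDiffAt ℝ 1 f x)
    (hF : CDA F x) : CDA (fun y => f y • F y) x := by
  intro i j
  simp only [Matrix.smul_apply, smul_eq_mul]
  exact hf.mul (hF i j)

lemma CDA.transpose {F : E → Matrix k l ℝ} {x : E} (hF : CDA F x) :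
    CDA (fun y => (F y)ᵀ) x := fun i j => hF j i

lemma CDA.trace {F : E → Matrix n n ℝ} {x : E} (hF : CDA F x) :
    ContDiffAt ℝ 1 (fun y => (F y).trace) x := by
  simp only [Matrix.trace, Matrix.diag]
  exact ContDiffAt.sum fun r _ => hF r r

lemma CDA.det {F : E → Matrix m m ℝ} {x : E} (hF : CDA F x) :
    ContDiffAt ℝ 1 (fun y => (F y).det) x := by
  simp only [Matrix.det_apply']
  exact ContDiffAt.sum fun σ _ => contDiffAt_const.mul (contDiffAt_prod fun i _ => hF (σ i) i)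

lemma CDA.inv {F : E → Matrix m m ℝ} {x : E} (hF : CDA F x) (h : (F x).det ≠ 0) :
    CDA (fun y => (F y)⁻¹) x := by
  have hadj : CDA (fun y => (F y).adjugate) x := by
    intro i j
    simp only [Matrix.adjugate_apply]
    apply CDA.det (F := fun y => (F y).updateRow j (Pi.single i 1))
    intro r s
    by_cases hr : r = j
    · subst hr
      simp only [Matrix.updateRow_self]
      exact contDiffAt_const
    · simp only [Matrix.updateRow_ne hr]
      exact hF r s
  simp only [Matrix.inv_def, Ring.inverse_eq_inv']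
  exact CDA.smul (hF.det.inv h) hadj

lemma CDA.cond {C : Matrix n n ℝ} {F G : E → Matrix n n ℝ} {x : E} (hF : CDA F x)
    (hG : CDA G x) : CDA (fun y => cond C (F y) (G y)) x := by
  unfold Pool.Agent.PhysND.cond
  exact CDA.smul contDiffAt_const
    (((hF.mul hG).mul (CDA.const _ x)).add (((CDA.const _ x).mul hG).mul hF))

lemma CDA.gram {C : Matrix n n ℝ} {A : m → Matrix n n ℝ} {F : E → Matrix n n ℝ} {x : E}
    (hF : CDA F x) : CDA (fun y => gram C A (F y)) x := by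
  intro i j
  simp only [Pool.Agent.PhysND.gram, Matrix.of_apply]
  exact CDA.trace ((CDA.const _ x).mul (hF.cond (CDA.const _ x)))

end CDA

/-! ### derivatives along curves -/

/-- entrywise derivative -/
def HD (F : ℝ → Matrix k l ℝ) (F' : Matrix k l ℝ) (t : ℝ) : Prop :=
  ∀ i j, HasDerivAt (fun s => F s i j) (F' i j) t

lemma HD.const (P : Matrix k l ℝ) (t : ℝ) : HD (fun _ => P) 0 t := fun _ _ => hasDerivAt_const _ _

lemma HD.mul {F : ℝ → Matrix k n ℝ} {G : ℝ → Matrix n l ℝ} {F' G'} {t : ℝ} (hF : HD F F' t)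
    (hG : HD G G' t) : HD (fun s => F s * G s) (F' * G t + F t * G') t := by
  intro i j
  simp only [Matrix.mul_apply, Matrix.add_apply, ← Finset.sum_add_distrib]
  exact HasDerivAt.fun_sum fun r _ => (hF i r).mul (hG r j)

lemma HD.constMul (P : Matrix k n ℝ) {G : ℝ → Matrix n l ℝ} {G'} {t : ℝ}
    (hG : HD G G' t) : HD (fun s => P * G s) (P * G') t := by
  have := (HD.const P t).mul hG
  simpa using this

lemma HD.mulConst {F : ℝ → Matrix k n ℝ} (P : Matrix n l ℝ) {F'} {t : ℝ}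
    (hF : HD F F' t) : HD (fun s => F s * P) (F' * P) t := by
  have := hF.mul (HD.const P t)
  simpa using this

lemma HD.transpose {F : ℝ → Matrix k l ℝ} {F'} {t : ℝ} (hF : HD F F' t) :
    HD (fun s => (F s)ᵀ) F'ᵀ t := fun i j => hF j i

lemma HD.trace {F : ℝ → Matrix n n ℝ} {F'} {t : ℝ} (hF : HD F F' t) :
    HasDerivAt (fun s => (F s).trace) F'.trace t := by
  simp only [Matrix.trace, Matrix.diag]
  exact HasDerivAt.fun_sum fun r _ => hF r r

lemma HD.mulVec {F : ℝ → Matrix n n ℝ} {F'} {t : ℝ} (hF : HD F F' t) (c : n → ℝ) (i : n) :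
    HasDerivAt (fun s => (F s *ᵥ c) i) ((F' *ᵥ c) i) t := by
  simp only [Matrix.mulVec, dotProduct]
  exact HasDerivAt.fun_sum fun r _ => (hF i r).mul_const _

/-! ### bounds -/

lemma abs_bilin_le (B : Matrix n n ℝ) (w : n → ℝ) :
    |w ⬝ᵥ (B *ᵥ w)| ≤ (∑ i, ∑ j, |B i j|) * ∑ i, w i ^ 2 := by
  have hsq : ∀ i, w i ^ 2 ≤ ∑ i, w i ^ 2 := fun i =>
    Finset.single_le_sum (f := fun i => w i ^ 2) (fun j _ => sq_nonneg _) (Finset.mem_univ i)
  have e1 : w ⬝ᵥ (B *ᵥ w) = ∑ i, ∑ j, w i * (B i j * w j) := by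
    simp only [dotProduct, Matrix.mulVec, Finset.mul_sum]
  rw [e1, Finset.sum_mul]
  refine (Finset.abs_sum_le_sum_abs _ _).trans ?_
  refine Finset.sum_le_sum fun i _ => ?_
  rw [Finset.sum_mul]
  refine (Finset.abs_sum_le_sum_abs _ _).trans ?_
  refine Finset.sum_le_sum fun j _ => ?_
  rw [abs_mul, abs_mul]
  have h1 : |w i| * |w j| ≤ ∑ i, w i ^ 2 := by
    have h2 : |w i| * |w j| ≤ (w i ^ 2 + w j ^ 2) / 2 := by
      nlinarith [sq_nonneg (|w i| - |w j|), sq_abs (w i), sq_abs (w j)]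
    linarith [hsq i, hsq j]
  calc |w i| * (|B i j| * |w j|) = |B i j| * (|w i| * |w j|) := by ring
    _ ≤ |B i j| * ∑ i, w i ^ 2 := mul_le_mul_of_nonneg_left h1 (abs_nonneg _)

/-- a solution of `w' = B(t) w` decays at most exponentially -/
lemma lower_growth {w : ℝ → n → ℝ} {B : ℝ → Matrix n n ℝ} {T β : ℝ} (hT : 0 ≤ T)
    (hw : ∀ t ∈ Icc 0 T, ∀ i, HasDerivAt (fun s => w s i) ((B t *ᵥ w t) i) t)
    (hB : ∀ t ∈ Icc 0 T, (∑ i, ∑ j, |B t i j|) ≤ β) :
    (∑ i, w 0 i ^ 2) ≤ (∑ i, w T i ^ 2) * Real.exp (2 * β * T) := by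
  set z : ℝ → ℝ := fun t => (∑ i, w t i ^ 2) * Real.exp (2 * β * t) with hz
  have hder : ∀ t ∈ Icc 0 T, HasDerivAt z
      ((2 * (w t ⬝ᵥ (B t *ᵥ w t))) * Real.exp (2 * β * t)
        + (∑ i, w t i ^ 2) * (Real.exp (2 * β * t) * (2 * β))) t := by
    intro t ht
    have h1 : HasDerivAt (fun s => ∑ i, w s i ^ 2) (2 * (w t ⬝ᵥ (B t *ᵥ w t))) t := by
      have e2 : 2 * (w t ⬝ᵥ (B t *ᵥ w t)) = ∑ i, 2 * w t i ^ 1 * (B t *ᵥ w t) i := by
        rw [dotProduct, Finset.mul_sum]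
        exact Finset.sum_congr rfl fun i _ => by ring
      rw [e2]
      exact HasDerivAt.fun_sum fun i _ => by simpa using (hw t ht i).fun_pow 2
    have h2 : HasDerivAt (fun s : ℝ => Real.exp (2 * β * s)) (Real.exp (2 * β * t) * (2 * β)) t := by
      have := ((hasDerivAt_id t).const_mul (2 * β)).exp
      simpa using this
    exact h1.mul h2
  have hmono : MonotoneOn z (Icc 0 T) := by
    apply monotoneOn_of_deriv_nonneg (convex_Icc 0 T)
    · exact fun t ht => (hder t ht).continuousAt.continuousWithinAt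
    · intro t ht
      rw [interior_Icc] at ht
      exact (hder t (Ioo_subset_Icc_self ht)).differentiableAt.differentiableWithinAt
    · intro t ht
      rw [interior_Icc] at ht
      have ht' := Ioo_subset_Icc_self ht
      rw [(hder t ht').deriv]
      have h3 := (abs_le.1 (abs_bilin_le (B t) (w t))).1
      have h4 : 0 ≤ ∑ i, w t i ^ 2 := Finset.sum_nonneg fun i _ => sq_nonneg _
      have h5 := mul_le_mul_of_nonneg_right (hB t ht') h4
      have h6 := (Real.exp_pos (2 * β * t)).le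
      nlinarith
  have := hmono ⟨le_rfl, hT⟩ ⟨hT, le_rfl⟩ hT
  simpa [hz] using this

/-- a positive definite form dominates a multiple of the sum of squares -/
lemma posDef_lower {C : Matrix n n ℝ} (hC : C.PosDef) :
    ∃ κ > 0, ∀ x : n → ℝ, κ * ∑ i, x i ^ 2 ≤ x ⬝ᵥ (C *ᵥ x) := by
  classical
  rcases isEmpty_or_nonempty n with hn | hn
  · exact ⟨1, one_pos, fun x => by simp⟩
  have hne : (Metric.sphere (0 : n → ℝ) 1).Nonempty := NormedSpace.sphere_nonempty.2 zero_le_one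
  have hcont : Continuous (fun x : n → ℝ => x ⬝ᵥ (C *ᵥ x)) := by
    simp only [dotProduct, Matrix.mulVec]
    fun_prop
  obtain ⟨x0, hx0, hmin⟩ := (isCompact_sphere (0 : n → ℝ) 1).exists_isMinOn hne hcont.continuousOn
  have hx0ne : x0 ≠ 0 := by
    rintro rfl
    simp at hx0
  set μ := x0 ⬝ᵥ (C *ᵥ x0) with hμ
  have hμpos : 0 < μ := by
    have := hC.dotProduct_mulVec_pos hx0ne
    simpa using this
  have hcard : (0 : ℝ) < Fintype.card n := by exact_mod_cast Fintype.card_pos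
  refine ⟨μ / Fintype.card n, div_pos hμpos hcard, fun x => ?_⟩
  by_cases hx : x = 0
  · simp [hx]
  have hxn : 0 < ‖x‖ := norm_pos_iff.2 hx
  have h1 : μ ≤ (‖x‖⁻¹ • x) ⬝ᵥ (C *ᵥ (‖x‖⁻¹ • x)) := by
    apply hmin
    rw [mem_sphere_zero_iff_norm, norm_smul, norm_inv, norm_norm, inv_mul_cancel₀ hxn.ne']
  rw [Matrix.mulVec_smul, dotProduct_smul, smul_dotProduct, smul_eq_mul, smul_eq_mul] at h1
  have h2 : μ * ‖x‖ ^ 2 ≤ x ⬝ᵥ (C *ᵥ x) := by
    have := mul_le_mul_of_nonneg_right h1 (sq_nonneg ‖x‖)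
    calc μ * ‖x‖ ^ 2 ≤ ‖x‖⁻¹ * (‖x‖⁻¹ * (x ⬝ᵥ (C *ᵥ x))) * ‖x‖ ^ 2 := this
      _ = x ⬝ᵥ (C *ᵥ x) := by field_simp
  have h3 : ∑ i, x i ^ 2 ≤ Fintype.card n * ‖x‖ ^ 2 := by
    have : ∀ i ∈ Finset.univ, x i ^ 2 ≤ ‖x‖ ^ 2 := by
      intro i _
      rw [← sq_abs (x i)]
      exact pow_le_pow_left₀ (abs_nonneg _) (norm_le_pi_norm x i) 2
    have := Finset.sum_le_card_nsmul _ _ _ this
    simpa [nsmul_eq_mul] using this
  calc μ / Fintype.card n * ∑ i, x i ^ 2 ≤ μ / Fintype.card n * (Fintype.card n * ‖x‖ ^ 2) :=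
        mul_le_mul_of_nonneg_left h3 (div_pos hμpos hcard).le
    _ = μ * ‖x‖ ^ 2 := by field_simp
    _ ≤ _ := h2

end Pool.Agent.PhysND
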