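import Pool.Agent.Lib.MP_e757b3_an.Main

/-!
# The deterministic theorem
-/

namespace Pool.Agent.PhysND

open Matrix Set Filter Topology
open scoped NNReal

set_option linter.unusedSectionVars false

variable {n m : Type} [Fintype n] [DecidableEq n] [Fintype m] [DecidableEq m]

variable {C X0 : Matrix n n ℝ} {A : m → Matrix n n ℝ} {b : m → ℝ} {R : ℝ}
  {Φ : ℝ → Matrix n n ℝ}

/-- the vector field as a map of `n → n → ℝ` -/
noncomputable def vf (C : Matrix n n ℝ) (A : m → Matrix n n ℝ) (b : m → ℝ)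
    (Z : n → n → ℝ) : n → n → ℝ :=
  fun i j => cond C (of Z) (comb A ((gram C A (of Z))⁻¹ *ᵥ b)) i j - Z i j

lemma nondeg_posDef (h0 : Nondeg A X0) {X : Matrix n n ℝ} (hX : X.PosDef) : Nondeg A X := by
  intro p hp h1
  refine h0 p hp ?_
  have hu : IsUnit X.det := hX.det_pos.ne'.isUnit
  have h2 : comb A p = 0 := by
    calc comb A p = comb A p * (X * X⁻¹) := by rw [mul_nonsing_inv X hu, Matrix.mul_one]
      _ = comb A p * X * X⁻¹ := by rw [Matrix.mul_assoc]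
      _ = 0 := by rw [h1, Matrix.zero_mul]
  rw [h2, Matrix.zero_mul]

lemma vf_contDiffAt (hC : C.PosDef) (hA : ∀ l, (A l)ᵀ = A l) (h0 : Nondeg A X0)
    {Z : n → n → ℝ} (hZ : (of Z : Matrix n n ℝ).PosDef) : ContDiffAt ℝ 1 (vf C A b) Z := by
  have hu := gram_isUnit hC hA hZ.posSemidef (nondeg_posDef h0 hZ)
  have hinv : CDA (fun Z : n → n → ℝ => (gram C A (of Z))⁻¹) Z :=
    CDA.inv (CDA.gram (CDA_of Z)) hu.ne_zero
  have hcomb : CDA (fun Z : n → n → ℝ => comb A ((gram C A (of Z))⁻¹ *ᵥ b)) Z := by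
    intro i j
    simp only [comb, Matrix.sum_apply, Matrix.smul_apply, Matrix.mulVec, dotProduct, smul_eq_mul]
    exact ContDiffAt.sum fun l _ => (ContDiffAt.sum fun k _ =>
      (hinv l k).mul contDiffAt_const).mul contDiffAt_const
  rw [contDiffAt_pi]
  intro i
  rw [contDiffAt_pi]
  intro j
  exact (((CDA_of Z).cond hcomb) i j).sub (CDA_of Z i j)

lemma Solves.deriv {s : Set ℝ} {X : ℝ → Matrix n n ℝ} (hC : C.PosDef)
    (hA : ∀ l, (A l)ᵀ = A l) (h0 : Nondeg A X0) (h : Solves C A b s X) {t : ℝ} (ht : t ∈ s) :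
    HasDerivWithinAt (fun u => (fun i j => X u i j : n → n → ℝ))
      (vf C A b (fun i j => X t i j)) s t := by
  obtain ⟨h1, N, h2, h3⟩ := h t ht
  have hu := gram_isUnit hC hA h1.posSemidef (nondeg_posDef h0 h1)
  have hN := h2.eq_inv hu
  rw [hasDerivWithinAt_pi]
  intro i
  rw [hasDerivWithinAt_pi]
  intro j
  have h4 := h3 i j
  rw [hN] at h4
  exact h4

lemma Solves.mono' {s s' : Set ℝ} {X : ℝ → Matrix n n ℝ} (h : Solves C A b s X) (hs : s' ⊆ s) :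
    Solves C A b s' X := by
  intro t ht
  obtain ⟨h1, N, h2, h3⟩ := h t (hs ht)
  exact ⟨h1, N, h2, fun i j => (h3 i j).mono hs⟩

/-- uniqueness of positive definite solutions -/
theorem Solves.unique (hC : C.PosDef) (hA : ∀ l, (A l)ᵀ = A l) (h0 : Nondeg A X0)
    {X Y : ℝ → Matrix n n ℝ} {T : ℝ} (hX : Solves C A b (Ico 0 T) X)
    (hY : Solves C A b (Ico 0 T) Y) (hXY : Y 0 = X 0) {t : ℝ} (ht : t ∈ Ico 0 T) :
    Y t = X t := by
  set x : ℝ → n → n → ℝ := fun u i j => X u i j with hx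
  set y : ℝ → n → n → ℝ := fun u i j => Y u i j with hy
  have hsub : Icc 0 t ⊆ Ico 0 T := fun u hu => ⟨hu.1, hu.2.trans_lt ht.2⟩
  have hxc : ContinuousOn x (Icc 0 t) := fun u hu =>
    ((hX.deriv hC hA h0 (hsub hu)).continuousWithinAt).mono hsub
  have hyc : ContinuousOn y (Icc 0 t) := fun u hu =>
    ((hY.deriv hC hA h0 (hsub hu)).continuousWithinAt).mono hsub
  set S : Set (n → n → ℝ) := x '' Icc 0 t ∪ y '' Icc 0 t with hS
  have hPD : ∀ Z ∈ S, (of Z : Matrix n n ℝ).PosDef := by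
    rintro Z (⟨u, hu, rfl⟩ | ⟨u, hu, rfl⟩)
    · exact (hX u (hsub hu)).1
    · exact (hY u (hsub hu)).1
  have hScomp : IsCompact S :=
    (isCompact_Icc.image_of_continuousOn hxc).union (isCompact_Icc.image_of_continuousOn hyc)
  have hloc : LocallyLipschitzOn S (vf C A b) := by
    intro Z hZ
    obtain ⟨K, s, hs, hK⟩ := (vf_contDiffAt (b := b) hC hA h0 (hPD Z hZ)).exists_lipschitzOnWith
    exact ⟨K, s, mem_nhdsWithin_of_mem_nhds hs, hK⟩
  obtain ⟨K, hK⟩ := LocallyLipschitzOn.exists_lipschitzOnWith_of_compact hScomp hloc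
  have hnhds : ∀ u ∈ Ico 0 t, Ico 0 T ∈ 𝓝[Ici u] u := by
    intro u hu
    exact mem_nhdsWithin.2 ⟨Iio T, isOpen_Iio, hu.2.trans ht.2, fun v hv => ⟨hu.1.trans hv.2, hv.1⟩⟩
  have hmain := ODE_solution_unique_of_mem_Icc_right (v := fun _ => vf C A b) (s := fun _ => S)
    (K := K) (f := y) (g := x) (a := 0) (b := t) (fun _ _ => hK) hyc
    (fun u hu => (hY.deriv hC hA h0 (hsub ⟨hu.1, hu.2.le⟩)).mono_of_mem_nhdsWithin (hnhds u hu))
    (fun u hu => Or.inr ⟨u, ⟨hu.1, hu.2.le⟩, rfl⟩) hxc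
    (fun u hu => (hX.deriv hC hA h0 (hsub ⟨hu.1, hu.2.le⟩)).mono_of_mem_nhdsWithin (hnhds u hu))
    (fun u hu => Or.inl ⟨u, ⟨hu.1, hu.2.le⟩, rfl⟩)
    (by simp only [hx, hy, hXY])
  have h1 := hmain (show t ∈ Icc 0 t from ⟨ht.1, le_rfl⟩)
  ext i j
  exact congrFun (congrFun h1 i) j

lemma Flow.posDef (F : Flow C X0 A b R Φ) (hX0 : X0.PosDef) {t : ℝ} (ht : 0 ≤ t) :
    (XX X0 (Φ t)).PosDef := by
  have hu : IsUnit (Φ t) := (Matrix.isUnit_iff_isUnit_det _).2 (F.unit t ht)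
  have h1 := hX0.mul_mul_conjTranspose_same (B := Φ t) (Matrix.vecMul_injective_iff_isUnit.2 hu)
  rwa [conjTranspose_eq_transpose_of_trivial] at h1

/-- the flow solves the dynamic -/
lemma Flow.solves (F : Flow C X0 A b R Φ) (hC : C.PosDef) (hX0 : X0.PosDef)
    (hA : ∀ l, (A l)ᵀ = A l) (h0 : Nondeg A X0) :
    Solves C A b (Ici 0) (fun t => XX X0 (Φ t)) := by
  intro t ht
  have ht' : 0 ≤ t := ht
  have hpd := F.posDef hX0 ht'
  have hu := gram_isUnit hC hA hpd.posSemidef (nondeg_posDef h0 hpd)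
  have hCu : IsUnit C.det := hC.det_pos.ne'.isUnit
  refine ⟨hpd, (gram C A (XX X0 (Φ t)))⁻¹, IsPinv.inv hu, fun i j => ?_⟩
  have h1 := F.derX hC hA ht' i j
  have h2 : cond C (XX X0 (Φ t)) (MM C A b (XX X0 (Φ t)))
      = cond C (XX X0 (Φ t)) (comb A ((gram C A (XX X0 (Φ t)))⁻¹ *ᵥ b)) - XX X0 (Φ t) := by
    unfold MM
    rw [cond_sub, cond_C hCu]
  rw [h2, Matrix.sub_apply] at h1
  exact h1.hasDerivWithinAt

/-- Existence of the flow in the two situations. -/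
theorem exists_flow (hC : C.PosDef) (hA : ∀ l, (A l)ᵀ = A l) (hX0 : X0.PosDef)
    (hnd : ∀ X, X.PosSemidef → OnSeg A b X0 X → Nondeg A X)
    (hrec : (∃ lam : ℝ, 1 ≤ lam ∧ ∀ l, (A l * X0).trace = lam * b l) ∨
      ∀ X, X.PosSemidef → X ≠ 0 → (∀ l, (A l * X).trace = 0) → Nondeg A X) :
    ∃ (R : ℝ) (Φ : ℝ → Matrix n n ℝ), Flow C X0 A b R Φ ∧
      KK C X0 A b R ⊆ UU C X0 A := by
  obtain ⟨R, hR0, hbar⟩ : ∃ R, (C * X0).trace ≤ R ∧ ∀ X, X.PosSemidef → OnSeg A b X0 X →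
      R ≤ (C * X).trace → (MM C A b X * X).trace ≤ 0 := by
    rcases hrec with ⟨lam, h1, h2⟩ | h
    · exact ⟨_, le_rfl, fun X hX hs _ => bar_radial hC hA h1 h2 hX hs
        (gram_isUnit hC hA hX (hnd X hX hs))⟩
    · obtain ⟨R, hR0, hR⟩ := exists_bar hC hA hnd h
      exact ⟨R, hR0, fun X hX hs hE => bar_of_qd hC hA hX
        (gram_isUnit hC hA hX (hnd X hX hs)) (hR X hX hs hE)⟩
  obtain ⟨Φ, h1, h2, h3, h4, h5⟩ := flow_exists hC hA hX0 hR0 hnd hbar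
  refine ⟨R, Φ, ⟨h1, h2, h3, h4, h5⟩, fun Ψ hΨ => ?_⟩
  exact (gram_isUnit hC hA (XX_psd hX0.posSemidef _)
    (hnd _ (XX_psd hX0.posSemidef _) hΨ.1)).ne_zero

lemma onSeg_self : OnSeg A b X0 X0 :=
  ⟨1, ⟨zero_le_one, le_rfl⟩, fun l => by ring⟩

/-- **Deterministic theorem.** -/
theorem converges_of (hC : C.PosDef) (hA : ∀ l, (A l)ᵀ = A l) (hX0 : X0.PosDef)
    (hnd : ∀ X, X.PosSemidef → OnSeg A b X0 X → Nondeg A X)
    (hrec : (∃ lam : ℝ, 1 ≤ lam ∧ ∀ l, (A l * X0).trace = lam * b l) ∨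
      ∀ X, X.PosSemidef → X ≠ 0 → (∀ l, (A l * X).trace = 0) → Nondeg A X)
    (hcount : (EqPairs C A b).Countable) : Converges C A b X0 := by
  obtain ⟨R, Φ, F, hKU⟩ := exists_flow hC hA hX0 hnd hrec
  have h0 : Nondeg A X0 := hnd X0 hX0.posSemidef onSeg_self
  obtain ⟨G, hG1, hG2⟩ := F.converge hC hX0 hA hKU hcount
  have hsol := F.solves hC hX0 hA h0
  have hinit : XX X0 (Φ 0) = X0 := by rw [F.init]; simp [XX]
  refine ⟨fun t => XX X0 (Φ t), hinit, hsol, ?_, G, hG1, hG2⟩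
  intro T _ Y hY0 hY t ht
  exact Solves.unique hC hA h0 (hsol.mono' fun u hu => hu.1) hY (by rw [hY0, hinit]) ht

end Pool.Agent.PhysND
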