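import Pool.Agent.Lib.MP_e757b3_an.KL
import Pool.Agent.Lib.MP_e757b3_an.Thm

/-!
# Convergence of the flow without any hypothesis on the equilibria
-/

namespace Pool.Agent.PhysND

open Matrix Set Filter Topology

set_option linter.unusedSectionVars false

/-! ### polynomial matrix functions -/

section PM

variable {ι : Type} {k l n : Type*} [Fintype k] [Fintype l] [Fintype n]

def PM (F : (ι → ℝ) → Matrix k l ℝ) : Prop := ∀ i j, PF' (fun z => F z i j)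

lemma PM.const (P : Matrix k l ℝ) : PM (fun _ : ι → ℝ => P) := fun _ _ => PF'.const _

lemma PM.mul {F : (ι → ℝ) → Matrix k n ℝ} {G : (ι → ℝ) → Matrix n l ℝ} (hF : PM F) (hG : PM G) :
    PM (fun z => F z * G z) := by
  intro i j
  simp only [Matrix.mul_apply]
  exact PF'.sum _ fun a _ => (hF i a).mul (hG a j)

lemma PM.add {F G : (ι → ℝ) → Matrix k l ℝ} (hF : PM F) (hG : PM G) :
    PM (fun z => F z + G z) := fun i j => (hF i j).add (hG i j)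

lemma PM.sub {F G : (ι → ℝ) → Matrix k l ℝ} (hF : PM F) (hG : PM G) :
    PM (fun z => F z - G z) := fun i j => (hF i j).sub (hG i j)

lemma PM.smul {f : (ι → ℝ) → ℝ} {F : (ι → ℝ) → Matrix k l ℝ} (hf : PF' f) (hF : PM F) :
    PM (fun z => f z • F z) := fun i j => hf.mul (hF i j)

lemma PM.transpose {F : (ι → ℝ) → Matrix k l ℝ} (hF : PM F) : PM (fun z => (F z)ᵀ) :=
  fun i j => hF j i

lemma PM.trace {F : (ι → ℝ) → Matrix n n ℝ} (hF : PM F) : PF' (fun z => (F z).trace) := by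
  simp only [Matrix.trace, Matrix.diag]
  exact PF'.sum _ fun i _ => hF i i

end PM

variable {n m : Type} [Fintype n] [DecidableEq n] [Fintype m] [DecidableEq m]

lemma PM.cond {ι : Type} {C : Matrix n n ℝ} {F G : (ι → ℝ) → Matrix n n ℝ} (hF : PM F)
    (hG : PM G) : PM (fun z => cond C (F z) (G z)) :=
  PM.smul (PF'.const _) (((hF.mul hG).mul (PM.const _)).add (((PM.const _).mul hG).mul hF))

lemma PM.comb {ι : Type} {A : m → Matrix n n ℝ} {p : (ι → ℝ) → m → ℝ}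
    (hp : ∀ l, PF' (fun z => p z l)) : PM (fun z => comb A (p z)) := by
  intro i j
  simp only [Pool.Agent.PhysND.comb, Matrix.sum_apply, Matrix.smul_apply, smul_eq_mul]
  exact PF'.sum _ fun l _ => (hp l).mul (PF'.const _)

lemma PM.XX {ι : Type} {X0 : Matrix n n ℝ} {F : (ι → ℝ) → Matrix n n ℝ} (hF : PM F) :
    PM (fun z => XX X0 (F z)) := (hF.mul (PM.const _)).mul hF.transpose

/-! ### the state space -/

/-- factor part -/
def ph (z : (n × n) ⊕ (m ⊕ Unit) → ℝ) : Matrix n n ℝ := of fun i j => z (Sum.inl (i, j))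

/-- multiplier part -/
def pp (z : (n × n) ⊕ (m ⊕ Unit) → ℝ) : m → ℝ := fun l => z (Sum.inr (Sum.inl l))

/-- `σ`, with `σ² = e^{-t}` along the flow -/
def sgm (z : (n × n) ⊕ (m ⊕ Unit) → ℝ) : ℝ := z (Sum.inr (Sum.inr ()))

def enc (Ψ : n → n → ℝ) (p : m → ℝ) (s : ℝ) : (n × n) ⊕ (m ⊕ Unit) → ℝ :=
  Sum.elim (fun q => Ψ q.1 q.2) (Sum.elim p fun _ => s)

lemma ph_enc (Ψ : n → n → ℝ) (p : m → ℝ) (s : ℝ) : ph (enc Ψ p s) = of Ψ := rfl
lemma pp_enc (Ψ : n → n → ℝ) (p : m → ℝ) (s : ℝ) : pp (enc Ψ p s) = p := rfl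
lemma sgm_enc (Ψ : n → n → ℝ) (p : m → ℝ) (s : ℝ) : sgm (enc Ψ p s) = s := rfl

lemma PM_ph : PM (fun z : (n × n) ⊕ (m ⊕ Unit) → ℝ => ph z) := fun _ _ => PF'.coord _
lemma PF_pp (l : m) : PF' (fun z : (n × n) ⊕ (m ⊕ Unit) → ℝ => pp z l) := PF'.coord _
lemma PF_sgm : PF' (fun z : (n × n) ⊕ (m ⊕ Unit) → ℝ => sgm z) := PF'.coord _

/-- the compact semialgebraic state space -/
def KP (C X0 : Matrix n n ℝ) (A : m → Matrix n n ℝ) (b : m → ℝ) (R : ℝ)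
    (z : (n × n) ⊕ (m ⊕ Unit) → ℝ) : Prop :=
  (∀ l, (A l * XX X0 (ph z)).trace = b l + sgm z ^ 2 * ((A l * X0).trace - b l)) ∧
    (C * XX X0 (ph z)).trace ≤ R ∧ 0 ≤ sgm z ∧ sgm z ≤ 1 ∧
    ∀ k, (A k * cond C (XX X0 (ph z)) (comb A (pp z))).trace = b k

lemma SS_KP (C X0 : Matrix n n ℝ) (A : m → Matrix n n ℝ) (b : m → ℝ) (R : ℝ) :
    SS (KP C X0 A b R) := by
  refine SS.and (SS.allFin fun l => SS.eq ?_ ?_) (SS.and (SS.le ?_ (PF'.const R))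
    (SS.and (SS.le (PF'.const 0) PF_sgm) (SS.and (SS.le PF_sgm (PF'.const 1))
    (SS.allFin fun k => SS.eq ?_ (PF'.const _)))))
  · exact ((PM.const _).mul PM_ph.XX).trace
  · exact (PF'.const _).add ((PF_sgm.pow 2).mul (PF'.const _))
  · exact ((PM.const _).mul PM_ph.XX).trace
  · exact ((PM.const _).mul (PM.cond PM_ph.XX (PM.comb PF_pp))).trace

noncomputable def ff (C X0 : Matrix n n ℝ) (κ : ℝ) (z : (n × n) ⊕ (m ⊕ Unit) → ℝ) : ℝ :=
  (C * XX X0 (ph z)).trace + κ * sgm z ^ 2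

noncomputable def TT (C X0 : Matrix n n ℝ) (A : m → Matrix n n ℝ)
    (z : (n × n) ⊕ (m ⊕ Unit) → ℝ) : ℝ :=
  ((comb A (pp z) - C) * C⁻¹ * (comb A (pp z) - C) * XX X0 (ph z)).trace + sgm z ^ 2

lemma PF_ff (C X0 : Matrix n n ℝ) (κ : ℝ) : PF' (ff (m := m) C X0 κ) :=
  ((PM.const _).mul PM_ph.XX).trace.add ((PF'.const _).mul (PF_sgm.pow 2))

lemma PF_TT (C X0 : Matrix n n ℝ) (A : m → Matrix n n ℝ) : PF' (TT C X0 A) := by
  have h1 : PM (fun z : (n × n) ⊕ (m ⊕ Unit) → ℝ => comb A (pp z) - C) :=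
    (PM.comb PF_pp).sub (PM.const _)
  exact (((h1.mul (PM.const _)).mul h1).mul PM_ph.XX).trace.add (PF_sgm.pow 2)

variable {C X0 : Matrix n n ℝ} {A : m → Matrix n n ℝ} {b : m → ℝ} {R : ℝ}
  {Φ : ℝ → Matrix n n ℝ}

lemma KP.mem {z : (n × n) ⊕ (m ⊕ Unit) → ℝ} (hz : KP C X0 A b R z) :
    (fun i j => ph z i j) ∈ KK C X0 A b R :=
  ⟨⟨sgm z ^ 2, ⟨sq_nonneg _, by
    have := hz.2.2.1
    have := hz.2.2.2.1
    nlinarith⟩, hz.1⟩, hz.2.1⟩

lemma KP.mult {z : (n × n) ⊕ (m ⊕ Unit) → ℝ} (hKU : KK C X0 A b R ⊆ UU C X0 A)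
    (hz : KP C X0 A b R z) : pp z = (gram C A (XX X0 (ph z)))⁻¹ *ᵥ b := by
  have hu : IsUnit (gram C A (XX X0 (ph z))).det := isUnit_iff_ne_zero.2 (hKU hz.mem)
  have h1 : gram C A (XX X0 (ph z)) *ᵥ pp z = b := by
    funext k
    rw [gram_mulVec]
    exact hz.2.2.2.2 k
  calc pp z = ((gram C A (XX X0 (ph z)))⁻¹ * gram C A (XX X0 (ph z))) *ᵥ pp z := by
        rw [nonsing_inv_mul _ hu, one_mulVec]
    _ = (gram C A (XX X0 (ph z)))⁻¹ *ᵥ b := by rw [← mulVec_mulVec, h1]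

lemma KP.MM {z : (n × n) ⊕ (m ⊕ Unit) → ℝ} (hKU : KK C X0 A b R ⊆ UU C X0 A)
    (hz : KP C X0 A b R z) : comb A (pp z) - C = MM C A b (XX X0 (ph z)) := by
  unfold Pool.Agent.PhysND.MM
  rw [hz.mult hKU]

lemma KP_enc (hKU : KK C X0 A b R ⊆ UU C X0 A) {Ψ : n → n → ℝ} {s : ℝ}
    (h1 : ∀ l, (A l * XX X0 (of Ψ)).trace = b l + s ^ 2 * ((A l * X0).trace - b l))
    (h2 : (C * XX X0 (of Ψ)).trace ≤ R) (hs0 : 0 ≤ s) (hs1 : s ≤ 1) :
    KP C X0 A b R (enc Ψ ((gram C A (XX X0 (of Ψ)))⁻¹ *ᵥ b) s) := by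
  have hmem : Ψ ∈ KK C X0 A b R := ⟨⟨s ^ 2, ⟨sq_nonneg _, by nlinarith⟩, h1⟩, h2⟩
  have hu : IsUnit (gram C A (XX X0 (of Ψ))).det := isUnit_iff_ne_zero.2 (hKU hmem)
  refine ⟨h1, h2, hs0, hs1, fun k => ?_⟩
  rw [pp_enc, ph_enc]
  exact gram_inv_mulVec hu k

lemma compact_KP (hC : C.PosDef) (hX0 : X0.PosDef) (hKU : KK C X0 A b R ⊆ UU C X0 A) :
    IsCompact {z | KP C X0 A b R z} := by
  have hKc := compact_K hC hX0 A b R
  have hc1 : ∀ l, Continuous (fun w : (n → n → ℝ) × ℝ => (A l * XX X0 (of w.1)).trace) := by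
    intro l
    have : Continuous (fun Φ : n → n → ℝ => (A l * XX X0 (of Φ)).trace) :=
      CDA.cont fun x => CDA.trace ((CDA.const _ x).mul (CDA_XX X0 x))
    exact this.comp continuous_fst
  have hT : IsCompact ((KK C X0 A b R ×ˢ Icc (0 : ℝ) 1) ∩
      {w : (n → n → ℝ) × ℝ | ∀ l, (A l * XX X0 (of w.1)).trace
        = b l + w.2 ^ 2 * ((A l * X0).trace - b l)}) := by
    refine (IsCompact.prod (show IsCompact (KK C X0 A b R) from hKc)
      isCompact_Icc).inter_right ?_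
    simp only [setOf_forall]
    refine isClosed_iInter fun l => isClosed_eq (hc1 l) ?_
    fun_prop
  have himg := hT.image_of_continuousOn (f := fun w : (n → n → ℝ) × ℝ =>
    enc w.1 ((gram C A (XX X0 (of w.1)))⁻¹ *ᵥ b) w.2) (by
      rintro ⟨Ψ, s⟩ hw
      have hU := hKU hw.1.1
      apply ContinuousAt.continuousWithinAt
      rw [continuousAt_pi]
      have hinv : CDA (fun Ψ : n → n → ℝ => (gram C A (XX X0 (of Ψ)))⁻¹) Ψ :=
        CDA.inv (CDA.gram (CDA_XX X0 Ψ)) hU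
      rintro (⟨i, j⟩ | l | u)
      · show ContinuousAt (fun w : (n → n → ℝ) × ℝ => w.1 i j) (Ψ, s)
        fun_prop
      · show ContinuousAt (fun w : (n → n → ℝ) × ℝ =>
          ((gram C A (XX X0 (of w.1)))⁻¹ *ᵥ b) l) (Ψ, s)
        have h1 : ContinuousAt (fun Ψ : n → n → ℝ =>
            ((gram C A (XX X0 (of Ψ)))⁻¹ *ᵥ b) l) Ψ := by
          simp only [Matrix.mulVec, dotProduct]
          exact (ContDiffAt.sum fun k _ => (hinv l k).mul contDiffAt_const).continuousAt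
        exact ContinuousAt.comp (f := Prod.fst) (x := (Ψ, s)) h1 continuousAt_fst
      · show ContinuousAt (fun w : (n → n → ℝ) × ℝ => w.2) (Ψ, s)
        fun_prop)
  have : {z | KP C X0 A b R z} = (fun w : (n → n → ℝ) × ℝ =>
      enc w.1 ((gram C A (XX X0 (of w.1)))⁻¹ *ᵥ b) w.2) ''
      ((KK C X0 A b R ×ˢ Icc (0 : ℝ) 1) ∩
      {w : (n → n → ℝ) × ℝ | ∀ l, (A l * XX X0 (of w.1)).trace
        = b l + w.2 ^ 2 * ((A l * X0).trace - b l)}) := by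
    ext z
    constructor
    · intro hz
      have hz' : KP C X0 A b R z := hz
      refine ⟨(fun i j => ph z i j, sgm z), ⟨⟨hz'.mem, hz'.2.2.1, hz'.2.2.2.1⟩, hz'.1⟩, ?_⟩
      have h1 := hz'.mult hKU
      funext i
      rcases i with ⟨i, j⟩ | l | u
      · rfl
      · exact (congrFun h1 l).symm
      · rfl
    · rintro ⟨w, ⟨⟨h1, h2⟩, h3⟩, rfl⟩
      exact KP_enc hKU h3 h1.2 h2.1 h2.2
  rw [this]
  exact himg

/-! ### estimates -/

lemma quad_eq' (M Ψ : Matrix n n ℝ) (hM : Mᵀ = M) :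
    (C⁻¹ * XX X0 (M * Ψ)).trace = (M * C⁻¹ * M * XX X0 Ψ).trace := by
  have h1 : XX X0 (M * Ψ) = M * XX X0 Ψ * M := by
    unfold XX
    rw [transpose_mul, hM]
    simp only [Matrix.mul_assoc]
  rw [h1, ← Matrix.mul_assoc, trace_mul_comm]
  simp only [Matrix.mul_assoc]

lemma entry_bound (hC : C.PosDef) (hX0 : X0.PosDef) :
    ∃ c > 0, ∀ M Ψ : Matrix n n ℝ, Mᵀ = M → ∀ i j,
      |(M * Ψ) i j| ≤ c * √((M * C⁻¹ * M * XX X0 Ψ).trace) := by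
  obtain ⟨κ, hκ0, hκ⟩ := posDef_lower hC.inv
  obtain ⟨κ', hκ'0, hκ'⟩ := posDef_lower hX0
  refine ⟨√((κ * κ')⁻¹), Real.sqrt_pos.2 (by positivity), fun M Ψ hM i j => ?_⟩
  have hD0 : 0 ≤ (M * C⁻¹ * M * XX X0 Ψ).trace :=
    quad_nonneg hC.inv.posSemidef (XX_psd hX0.posSemidef _) hM
  rw [← Real.sqrt_mul (by positivity)]
  apply Real.abs_le_sqrt
  have h2 := XX_lower hC.inv hX0 hκ0.le hκ hκ' (M * Ψ)
  rw [quad_eq' M Ψ hM] at h2
  have h3 : (M * Ψ) i j ^ 2 ≤ ∑ i, ∑ j, (M * Ψ) i j ^ 2 := by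
    have h3 : (M * Ψ) i j ^ 2 ≤ ∑ j, (M * Ψ) i j ^ 2 :=
      Finset.single_le_sum (f := fun j => (M * Ψ) i j ^ 2) (fun _ _ => sq_nonneg _)
        (Finset.mem_univ j)
    have h4 : ∑ j, (M * Ψ) i j ^ 2 ≤ ∑ i, ∑ j, (M * Ψ) i j ^ 2 :=
      Finset.single_le_sum (f := fun i => ∑ j, (M * Ψ) i j ^ 2)
        (fun _ _ => Finset.sum_nonneg fun _ _ => sq_nonneg _) (Finset.mem_univ i)
    exact h3.trans h4
  rw [← div_eq_inv_mul, le_div_iff₀ (mul_pos hκ0 hκ'0)]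
  calc (M * Ψ) i j ^ 2 * (κ * κ') = κ * (κ' * (M * Ψ) i j ^ 2) := by ring
    _ ≤ κ * (κ' * ∑ i, ∑ j, (M * Ψ) i j ^ 2) :=
      mul_le_mul_of_nonneg_left (mul_le_mul_of_nonneg_left h3 hκ'0.le) hκ0.le
    _ ≤ _ := h2

lemma abs_trace_mul_le {P Q : Matrix n n ℝ} {a c : ℝ} (hP : ∀ i j, |P i j| ≤ a) (hc : 0 ≤ a)
    (hQ : (∑ i, ∑ j, |Q i j|) ≤ c) : |(P * Q).trace| ≤ a * c := by
  have h1 : |(P * Q).trace| ≤ ∑ i, ∑ j, |P i j| * |Q j i| := by
    simp only [Matrix.trace, Matrix.diag, Matrix.mul_apply]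
    refine (Finset.abs_sum_le_sum_abs _ _).trans (Finset.sum_le_sum fun i _ => ?_)
    refine (Finset.abs_sum_le_sum_abs _ _).trans (Finset.sum_le_sum fun j _ => ?_)
    rw [abs_mul]
  refine h1.trans ?_
  calc ∑ i, ∑ j, |P i j| * |Q j i| ≤ ∑ i, ∑ j, a * |Q j i| :=
        Finset.sum_le_sum fun i _ => Finset.sum_le_sum fun j _ =>
          mul_le_mul_of_nonneg_right (hP i j) (abs_nonneg _)
    _ = a * ∑ i, ∑ j, |Q i j| := by
        rw [Finset.sum_comm]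
        simp only [Finset.mul_sum]
    _ ≤ a * c := mul_le_mul_of_nonneg_left hQ hc

end Pool.Agent.PhysND
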