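import Mathlib

/-!
# First-ansatz Physarum dynamic of a positive SDP: definitions and matrix algebra
-/

namespace Pool.Agent.PhysND

open Matrix

set_option linter.unusedSectionVars false

variable {n m : Type} [Fintype n] [DecidableEq n] [Fintype m] [DecidableEq m]

/-- `cond C X S` is the matrix whose vectorisation is `G(X) vec(S)`, where
`G(X) = (C⁻¹ ⊗ X + X ⊗ C⁻¹) / 2`. -/
noncomputable def cond (C X S : Matrix n n ℝ) : Matrix n n ℝ :=
  (1 / 2 : ℝ) • (X * S * C⁻¹ + C⁻¹ * S * X)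

/-- The linear combination `∑ p_l A_l`, i.e. the matrix with vectorisation `𝒜ᵀ p`. -/
def comb (A : m → Matrix n n ℝ) (p : m → ℝ) : Matrix n n ℝ := ∑ l, p l • A l

/-- The matrix `𝒜 G(X) 𝒜ᵀ`. -/
noncomputable def gram (C : Matrix n n ℝ) (A : m → Matrix n n ℝ) (X : Matrix n n ℝ) :
    Matrix m m ℝ :=
  Matrix.of fun k l => (A k * cond C X (A l)).trace

/-- `N` is the Moore-Penrose pseudoinverse of the real square matrix `M`. -/
structure IsPinv (M N : Matrix m m ℝ) : Prop where
  mnm : M * N * M = M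
  nmn : N * M * N = N
  mn : (M * N)ᵀ = M * N
  nm : (N * M)ᵀ = N * M

/-- `X` is a feasible solution of the SDP. -/
def Feasible (A : m → Matrix n n ℝ) (b : m → ℝ) (X : Matrix n n ℝ) : Prop :=
  X.PosSemidef ∧ ∀ l, (A l * X).trace = b l

/-- `X` is an optimal solution of the SDP. -/
def Optimal (C : Matrix n n ℝ) (A : m → Matrix n n ℝ) (b : m → ℝ) (X : Matrix n n ℝ) : Prop :=
  Feasible A b X ∧ ∀ Y, Feasible A b Y → (C * X).trace ≤ (C * Y).trace

/-- `X` is an equilibrium: a feasible solution `X` with `(∑ p_l A_l) X = C X` for some `p`. -/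
def Equilibrium (C : Matrix n n ℝ) (A : m → Matrix n n ℝ) (b : m → ℝ) (X : Matrix n n ℝ) : Prop :=
  Feasible A b X ∧ ∃ p : m → ℝ, comb A p * X = C * X

/-- `X` is (primal) nondegenerate: no nontrivial combination of the `A_l` annihilates `X`. -/
def Nondeg (A : m → Matrix n n ℝ) (X : Matrix n n ℝ) : Prop :=
  ∀ p : m → ℝ, p ≠ 0 → comb A p * X ≠ 0

/-- `X` is, on the time set `s`, a positive definite solution of the first-ansatz dynamic
`vec(X') = G 𝒜ᵀ (𝒜 G 𝒜ᵀ)† b - vec(X)`. The derivative is taken entrywise. -/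
def Solves (C : Matrix n n ℝ) (A : m → Matrix n n ℝ) (b : m → ℝ) (s : Set ℝ)
    (X : ℝ → Matrix n n ℝ) : Prop :=
  ∀ t ∈ s, (X t).PosDef ∧ ∃ N : Matrix m m ℝ, IsPinv (gram C A (X t)) N ∧
    ∀ i j, HasDerivWithinAt (fun u => X u i j)
      (cond C (X t) (comb A (N *ᵥ b)) i j - X t i j) s t

/-! ### Algebra -/

lemma comb_transpose {A : m → Matrix n n ℝ} (hA : ∀ l, (A l)ᵀ = A l) (p : m → ℝ) :
    (comb A p)ᵀ = comb A p := by
  unfold comb
  rw [transpose_sum]
  exact Finset.sum_congr rfl fun l _ => by rw [transpose_smul, hA l]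

lemma trace_comb_mul (A : m → Matrix n n ℝ) (p : m → ℝ) (Y : Matrix n n ℝ) :
    (comb A p * Y).trace = ∑ l, p l * (A l * Y).trace := by
  unfold comb
  rw [Finset.sum_mul, trace_sum]
  exact Finset.sum_congr rfl fun l _ => by rw [smul_mul_assoc, trace_smul, smul_eq_mul]

lemma cond_comb (C : Matrix n n ℝ) (A : m → Matrix n n ℝ) (X : Matrix n n ℝ) (p : m → ℝ) :
    cond C X (comb A p) = ∑ l, p l • cond C X (A l) := by
  unfold cond comb
  simp only [Finset.mul_sum, Finset.sum_mul, mul_smul_comm, smul_mul_assoc,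
    ← Finset.sum_add_distrib, Finset.smul_sum, ← smul_add]
  exact Finset.sum_congr rfl fun l _ => smul_comm _ _ _

lemma gram_mulVec (C : Matrix n n ℝ) (A : m → Matrix n n ℝ) (X : Matrix n n ℝ) (p : m → ℝ)
    (k : m) : (gram C A X *ᵥ p) k = (A k * cond C X (comb A p)).trace := by
  rw [cond_comb, Finset.mul_sum, trace_sum]
  simp only [mulVec, dotProduct, gram, of_apply]
  exact Finset.sum_congr rfl fun l _ => by
    rw [mul_smul_comm, trace_smul, smul_eq_mul, mul_comm]

lemma quad (C : Matrix n n ℝ) (A : m → Matrix n n ℝ) (X : Matrix n n ℝ) (p : m → ℝ) :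
    p ⬝ᵥ (gram C A X *ᵥ p) = (comb A p * cond C X (comb A p)).trace := by
  rw [trace_comb_mul]
  simp only [dotProduct, gram_mulVec]

lemma inv_transpose {C : Matrix n n ℝ} (hC : Cᵀ = C) : (C⁻¹)ᵀ = C⁻¹ := by
  rw [transpose_nonsing_inv, hC]

lemma trace_mul_cond {C X S T : Matrix n n ℝ} (hC : Cᵀ = C) (hX : Xᵀ = X) (hS : Sᵀ = S)
    (hT : Tᵀ = T) : (T * cond C X S).trace = (T * C⁻¹ * S * X).trace := by
  have h1 : (T * (X * S * C⁻¹)).trace = (T * C⁻¹ * S * X).trace := by
    rw [← trace_transpose]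
    simp only [transpose_mul, hX, hS, hT, inv_transpose hC]
    rw [show C⁻¹ * (S * X) * T = C⁻¹ * S * X * T by simp only [Matrix.mul_assoc],
      trace_mul_comm]
    simp only [Matrix.mul_assoc]
  unfold cond
  rw [mul_smul_comm, mul_add, trace_smul, trace_add, h1,
    show T * (C⁻¹ * S * X) = T * C⁻¹ * S * X by simp only [Matrix.mul_assoc], smul_eq_mul]
  ring

lemma trace_C_cond {C : Matrix n n ℝ} (hC : IsUnit C.det) (X S : Matrix n n ℝ) :
    (C * cond C X S).trace = (S * X).trace := by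
  have h1 : (C * (X * S * C⁻¹)).trace = (S * X).trace := by
    rw [trace_mul_comm, Matrix.mul_assoc (X * S), nonsing_inv_mul C hC, Matrix.mul_one,
      trace_mul_comm]
  have h2 : (C * (C⁻¹ * S * X)).trace = (S * X).trace := by
    rw [← Matrix.mul_assoc, ← Matrix.mul_assoc, mul_nonsing_inv C hC, Matrix.one_mul]
  unfold cond
  rw [mul_smul_comm, mul_add, trace_smul, trace_add, h1, h2, smul_eq_mul]
  ring

lemma cond_C {C : Matrix n n ℝ} (hC : IsUnit C.det) (X : Matrix n n ℝ) : cond C X C = X := by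
  unfold cond
  rw [Matrix.mul_assoc, mul_nonsing_inv C hC, nonsing_inv_mul C hC, Matrix.mul_one,
    Matrix.one_mul, ← two_smul ℝ X, smul_smul]
  norm_num

lemma cond_sub (C X S T : Matrix n n ℝ) : cond C X (S - T) = cond C X S - cond C X T := by
  unfold cond
  rw [← smul_sub]
  congr 1
  simp only [mul_sub, sub_mul]
  abel

lemma cond_smul_left (C X S : Matrix n n ℝ) (r : ℝ) : cond C (r • X) S = r • cond C X S := by
  unfold cond
  rw [smul_comm]
  congr 1
  simp only [smul_mul_assoc, mul_smul_comm, smul_add]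

lemma gram_smul (C : Matrix n n ℝ) (A : m → Matrix n n ℝ) (X : Matrix n n ℝ) (r : ℝ) :
    gram C A (r • X) = r • gram C A X := by
  ext k l
  simp only [gram, of_apply, Matrix.smul_apply, cond_smul_left, mul_smul_comm, trace_smul]

open scoped MatrixOrder in
lemma exists_factor {X : Matrix n n ℝ} (h : X.PosSemidef) : ∃ B : Matrix n n ℝ, X = Bᴴ * B :=
  CStarAlgebra.nonneg_iff_eq_star_mul_self.mp h.nonneg

lemma trace_mul_nonneg {P Q : Matrix n n ℝ} (hP : P.PosSemidef) (hQ : Q.PosSemidef) :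
    0 ≤ (P * Q).trace := by
  obtain ⟨B, rfl⟩ := exists_factor hQ
  rw [← Matrix.mul_assoc, trace_mul_comm, ← Matrix.mul_assoc]
  exact (hP.mul_mul_conjTranspose_same B).trace_nonneg

lemma symm_of_posSemidef {X : Matrix n n ℝ} (h : X.PosSemidef) : Xᵀ = X := by
  have := h.isHermitian
  rwa [IsHermitian, conjTranspose_eq_transpose_of_trivial] at this

lemma symm_of_posDef {X : Matrix n n ℝ} (h : X.PosDef) : Xᵀ = X := symm_of_posSemidef h.posSemidef

lemma quad_nonneg {D X S : Matrix n n ℝ} (hD : D.PosSemidef) (hX : X.PosSemidef) (hS : Sᵀ = S) :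
    0 ≤ (S * D * S * X).trace := by
  have h : (S * D * S).PosSemidef := by
    have := hD.mul_mul_conjTranspose_same S
    rwa [conjTranspose_eq_transpose_of_trivial, hS] at this
  exact trace_mul_nonneg h hX

lemma quad_eq_zero {D X S : Matrix n n ℝ} (hD : D.PosDef) (hX : X.PosSemidef) (hS : Sᵀ = S)
    (h : (S * D * S * X).trace = 0) : S * X = 0 := by
  obtain ⟨B, rfl⟩ := exists_factor hX
  have h1 : ((B * S) * D * (B * S)ᴴ).trace = 0 := by
    rw [← h, conjTranspose_mul, conjTranspose_eq_transpose_of_trivial S, hS]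
    rw [show S * D * S * (Bᴴ * B) = S * D * S * Bᴴ * B by simp only [Matrix.mul_assoc],
      trace_mul_comm (S * D * S * Bᴴ) B]
    simp only [Matrix.mul_assoc]
  have h2 := (Matrix.PosSemidef.trace_eq_zero_iff
    (hD.posSemidef.mul_mul_conjTranspose_same (B * S))).1 h1
  have h3 : (B * S)ᴴ = 0 := by
    have h4 : ∀ v : n → ℝ, (B * S)ᴴ *ᵥ v = 0 := by
      intro v
      by_contra hne
      have h5 := hD.dotProduct_mulVec_pos hne
      have h6 : star ((B * S)ᴴ *ᵥ v) ⬝ᵥ (D *ᵥ ((B * S)ᴴ *ᵥ v))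
          = star v ⬝ᵥ (((B * S) * D * (B * S)ᴴ) *ᵥ v) := by
        rw [star_mulVec, conjTranspose_conjTranspose, ← dotProduct_mulVec, mulVec_mulVec,
          mulVec_mulVec, Matrix.mul_assoc]
      rw [h6, h2] at h5
      simp at h5
    ext i j
    have := congrFun (h4 (Pi.single j 1)) i
    rw [mulVec_single_one] at this
    exact this
  have h7 : S * Bᴴ = 0 := by
    rw [conjTranspose_mul, conjTranspose_eq_transpose_of_trivial S, hS] at h3
    exact h3
  rw [← Matrix.mul_assoc, h7, Matrix.zero_mul]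

/-- At a nondegenerate positive semidefinite `X` the matrix `𝒜 G(X) 𝒜ᵀ` is invertible. -/
lemma gram_isUnit {C : Matrix n n ℝ} {A : m → Matrix n n ℝ} {X : Matrix n n ℝ}
    (hC : C.PosDef) (hA : ∀ l, (A l)ᵀ = A l) (hX : X.PosSemidef) (hnd : Nondeg A X) :
    IsUnit (gram C A X).det := by
  rw [isUnit_iff_ne_zero]
  intro hdet
  obtain ⟨p, hp, hp0⟩ := Matrix.exists_mulVec_eq_zero_iff.2 hdet
  have h1 := quad C A X p
  rw [hp0, dotProduct_zero, trace_mul_cond (symm_of_posDef hC) (symm_of_posSemidef hX)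
    (comb_transpose hA p) (comb_transpose hA p)] at h1
  exact hnd p hp (quad_eq_zero hC.inv hX (comb_transpose hA p) h1.symm)

lemma IsPinv.inv {M : Matrix m m ℝ} (h : IsUnit M.det) : IsPinv M M⁻¹ := by
  refine ⟨?_, ?_, ?_, ?_⟩ <;>
  simp [mul_nonsing_inv M h, nonsing_inv_mul M h]

lemma IsPinv.eq_inv {M N : Matrix m m ℝ} (h : IsUnit M.det) (hN : IsPinv M N) : N = M⁻¹ := by
  have h1 := hN.mnm
  calc N = M⁻¹ * (M * N * M) * M⁻¹ := by
        rw [show M⁻¹ * (M * N * M) * M⁻¹ = (M⁻¹ * M) * N * (M * M⁻¹) by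
          simp only [Matrix.mul_assoc], mul_nonsing_inv M h, nonsing_inv_mul M h,
          Matrix.one_mul, Matrix.mul_one]
    _ = M⁻¹ := by rw [h1, nonsing_inv_mul M h, Matrix.one_mul]

end Pool.Agent.PhysND
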