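import Pool.Agent.Lib.MP_e757b3_an.Sard2

/-!
# Degenerate directions over the segment of right-hand sides, for almost every right-hand side
-/

namespace Pool.Agent.PhysND

open Matrix Set Filter Topology MeasureTheory

set_option linter.unusedSectionVars false

variable {n m : Type} [Fintype n] [DecidableEq n] [Fintype m] [DecidableEq m]

/-- index type of the witnesses: two factors, two multipliers, the time parameter -/
abbrev KX (n m : Type) : Type := ((n × n) ⊕ m) ⊕ (((n × n) ⊕ m) ⊕ Unit)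

def y1 (w : m ⊕ KX n m → ℝ) : Matrix n n ℝ := of fun i j => w (Sum.inr (Sum.inl (Sum.inl (i, j))))
def q1 (w : m ⊕ KX n m → ℝ) : m → ℝ := fun l => w (Sum.inr (Sum.inl (Sum.inr l)))
def y2 (w : m ⊕ KX n m → ℝ) : Matrix n n ℝ :=
  of fun i j => w (Sum.inr (Sum.inr (Sum.inl (Sum.inl (i, j)))))
def q2 (w : m ⊕ KX n m → ℝ) : m → ℝ := fun l => w (Sum.inr (Sum.inr (Sum.inl (Sum.inr l))))
def tp (w : m ⊕ KX n m → ℝ) : ℝ := w (Sum.inr (Sum.inr (Sum.inr ())))
def bb (w : m ⊕ KX n m → ℝ) : m → ℝ := fun l => w (Sum.inl l)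

/-- the witnessed crossing set -/
def VC (A : m → Matrix n n ℝ) (a : m → ℝ) (k : m) (R : ℕ) (w : m ⊕ KX n m → ℝ) : Prop :=
  (∀ l, (A l * (y1 w * (y1 w)ᵀ)).trace = bb w l + tp w * (a l - bb w l)) ∧
  (∀ l, (A l * (y2 w * (y2 w)ᵀ)).trace = bb w l + tp w * (a l - bb w l)) ∧
  (∀ i j, (comb A (q1 w) * y1 w) i j = 0) ∧
  (∀ i j, (comb A (q2 w) * y2 w) i j = 0) ∧
  (∑ l, (q1 w l + q2 w l) * (a l - bb w l) = 0) ∧
  (q1 w k + q2 w k = 1) ∧
  (1 ≤ (R : ℝ) * (1 - tp w)) ∧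
  (∀ c, -(R : ℝ) ≤ w (Sum.inr c)) ∧ ∀ c, w (Sum.inr c) ≤ (R : ℝ)

lemma PM_y1 : PM (fun w : m ⊕ KX n m → ℝ => y1 w) := fun _ _ => PF'.coord _
lemma PM_y2 : PM (fun w : m ⊕ KX n m → ℝ => y2 w) := fun _ _ => PF'.coord _
lemma PF_q1 (l : m) : PF' (fun w : m ⊕ KX n m → ℝ => q1 w l) := PF'.coord _
lemma PF_q2 (l : m) : PF' (fun w : m ⊕ KX n m → ℝ => q2 w l) := PF'.coord _
lemma PF_tp : PF' (fun w : m ⊕ KX n m → ℝ => tp w) := PF'.coord _
lemma PF_bb (l : m) : PF' (fun w : m ⊕ KX n m → ℝ => bb w l) := PF'.coord _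

lemma PF_rhs (a : m → ℝ) (l : m) :
    PF' (fun w : m ⊕ KX n m → ℝ => bb w l + tp w * (a l - bb w l)) :=
  (PF_bb l).add (PF_tp.mul ((PF'.const _).sub (PF_bb l)))

lemma PF_sum (a : m → ℝ) :
    PF' (fun w : m ⊕ KX n m → ℝ => ∑ l, (q1 w l + q2 w l) * (a l - bb w l)) :=
  PF'.sum _ fun l _ => ((PF_q1 l).add (PF_q2 l)).mul ((PF'.const _).sub (PF_bb l))

lemma SS_VC (A : m → Matrix n n ℝ) (a : m → ℝ) (k : m) (R : ℕ) : SS (VC A a k R) := by
  refine SS.and (SS.allFin fun l => SS.eq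
      ((PM.const _).mul (PM_y1.mul PM_y1.transpose)).trace (PF_rhs a l)) <|
    SS.and (SS.allFin fun l => SS.eq
      ((PM.const _).mul (PM_y2.mul PM_y2.transpose)).trace (PF_rhs a l)) <|
    SS.and (SS.allFin fun i => SS.allFin fun j => SS.eq
      (((PM.comb PF_q1).mul PM_y1) i j) (PF'.const 0)) <|
    SS.and (SS.allFin fun i => SS.allFin fun j => SS.eq
      (((PM.comb PF_q2).mul PM_y2) i j) (PF'.const 0)) <|
    SS.and (SS.eq (PF_sum a) (PF'.const 0)) <|
    SS.and (SS.eq ((PF_q1 k).add (PF_q2 k)) (PF'.const 1)) <|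
    SS.and (SS.le (PF'.const 1) ((PF'.const _).mul ((PF'.const 1).sub PF_tp))) <|
    SS.and (SS.allFin fun c => SS.le (PF'.const _) (PF'.coord _))
      (SS.allFin fun c => SS.le (PF'.coord _) (PF'.const _))

lemma CL_VC (A : m → Matrix n n ℝ) (a : m → ℝ) (k : m) (R : ℕ) : CL (VC A a k R) := by
  refine CL.and (CL.all fun l => CL.eq
      ((PM.const _).mul (PM_y1.mul PM_y1.transpose)).trace (PF_rhs a l)) <|
    CL.and (CL.all fun l => CL.eq
      ((PM.const _).mul (PM_y2.mul PM_y2.transpose)).trace (PF_rhs a l)) <|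
    CL.and (CL.all fun i => CL.all fun j => CL.eq
      (((PM.comb PF_q1).mul PM_y1) i j) (PF'.const 0)) <|
    CL.and (CL.all fun i => CL.all fun j => CL.eq
      (((PM.comb PF_q2).mul PM_y2) i j) (PF'.const 0)) <|
    CL.and (CL.eq (PF_sum a) (PF'.const 0)) <|
    CL.and (CL.eq ((PF_q1 k).add (PF_q2 k)) (PF'.const 1)) <|
    CL.and (CL.le (PF'.const 1) ((PF'.const _).mul ((PF'.const 1).sub PF_tp))) <|
    CL.and (CL.all fun c => CL.le (PF'.const _) (PF'.coord _))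
      (CL.all fun c => CL.le (PF'.coord _) (PF'.const _))

lemma null_VC {A : m → Matrix n n ℝ} (hA : ∀ l, (A l)ᵀ = A l) (a : m → ℝ) (k : m) (R : ℕ) :
    volume {b : m → ℝ | ∃ z, VC A a k R (Sum.elim b z)} = 0 := by
  refine null_of_line (SS_VC A a k R) (CL_VC A a k R) (R := R) ?_ (Pi.single k 1)
    (Cq := R * (2 * cst A R)) ?_
  · intro w z hz
    rw [pi_norm_le_iff_of_nonneg (Nat.cast_nonneg _)]
    intro c
    rw [Real.norm_eq_abs, abs_le]
    exact ⟨hz.2.2.2.2.2.2.2.1 c, hz.2.2.2.2.2.2.2.2 c⟩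
  · intro b z z' τ hz hz'
    obtain ⟨f1, f2, f3, f4, f5, f6, f7, f8, f9⟩ := hz
    obtain ⟨g1, g2, _, _, _, _, g7, _, _⟩ := hz'
    set w : m ⊕ KX n m → ℝ := Sum.elim b z with hw
    set w' : m ⊕ KX n m → ℝ := Sum.elim (b + τ • (Pi.single k 1 : m → ℝ)) z' with hw'
    have hR0 : (0 : ℝ) ≤ R := Nat.cast_nonneg _
    have hΔ1 : ∀ i j, |(y1 w' - y1 w) i j| ≤ ‖z' - z‖ := by
      intro i j
      have h3 : (y1 w' - y1 w) i j = (z' - z) (Sum.inl (Sum.inl (i, j))) := rfl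
      rw [h3, ← Real.norm_eq_abs]
      exact norm_le_pi_norm _ _
    have hΔ2 : ∀ i j, |(y2 w' - y2 w) i j| ≤ ‖z' - z‖ := by
      intro i j
      have h3 : (y2 w' - y2 w) i j = (z' - z) (Sum.inr (Sum.inl (Sum.inl (i, j)))) := rfl
      rw [h3, ← Real.norm_eq_abs]
      exact norm_le_pi_norm _ _
    have e1 := quad_est hA hR0 (q := q1 w) (fun l => abs_le.2
      ⟨f8 (Sum.inl (Sum.inr l)), f9 (Sum.inl (Sum.inr l))⟩) (by
        ext i j
        exact f3 i j) (norm_nonneg (z' - z)) hΔ1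
    have e2 := quad_est hA hR0 (q := q2 w) (fun l => abs_le.2
      ⟨f8 (Sum.inr (Sum.inl (Sum.inr l))), f9 (Sum.inr (Sum.inl (Sum.inr l)))⟩) (by
        ext i j
        exact f4 i j) (norm_nonneg (z' - z)) hΔ2
    have hb : ∀ l, bb w l = b l := fun l => rfl
    have hb' : ∀ l, bb w' l = b l + τ * (Pi.single k 1 : m → ℝ) l := fun l => rfl
    -- the difference of the right-hand sides
    set dc : m → ℝ := fun l => (bb w' l + tp w' * (a l - bb w' l)) - (bb w l + tp w * (a l - bb w l))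
      with hdc
    have hs1 : ∑ l, q1 w l * ((A l * (y1 w' * (y1 w')ᵀ)).trace - (A l * (y1 w * (y1 w)ᵀ)).trace)
        = ∑ l, q1 w l * dc l := Finset.sum_congr rfl fun l _ => by rw [f1 l, g1 l]
    have hs2 : ∑ l, q2 w l * ((A l * (y2 w' * (y2 w')ᵀ)).trace - (A l * (y2 w * (y2 w)ᵀ)).trace)
        = ∑ l, q2 w l * dc l := Finset.sum_congr rfl fun l _ => by rw [f2 l, g2 l]
    rw [hs1] at e1
    rw [hs2] at e2
    have hsum : ∑ l, q1 w l * dc l + ∑ l, q2 w l * dc l = (1 - tp w') * τ := by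
      rw [← Finset.sum_add_distrib]
      have h1 : ∀ l, q1 w l * dc l + q2 w l * dc l
          = (1 - tp w') * τ * ((q1 w l + q2 w l) * (Pi.single k 1 : m → ℝ) l)
            + (tp w' - tp w) * ((q1 w l + q2 w l) * (a l - bb w l)) := by
        intro l
        simp only [hdc, hb', hb]
        ring
      simp only [h1]
      rw [Finset.sum_add_distrib, ← Finset.mul_sum, ← Finset.mul_sum, f5, mul_zero, add_zero]
      have h2 : ∑ l, (q1 w l + q2 w l) * (Pi.single k 1 : m → ℝ) l = 1 := by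
        simp only [Pi.single_apply, mul_ite, mul_one, mul_zero]
        rw [Finset.sum_ite_eq' Finset.univ k]
        simp only [Finset.mem_univ, if_true]
        exact f6
      rw [h2, mul_one]
    have h3 : |(1 - tp w') * τ| ≤ 2 * cst A R * ‖z' - z‖ ^ 2 := by
      rw [← hsum]
      refine (abs_add_le _ _).trans ?_
      linarith
    have hR1 : 0 < (R : ℝ) := by
      rcases eq_or_lt_of_le hR0 with h | h
      · exfalso
        rw [← h, zero_mul] at g7
        linarith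
      · exact h
    have ht : 0 < 1 - tp w' := by
      by_contra hcon
      push Not at hcon
      have : (R : ℝ) * (1 - tp w') ≤ 0 := mul_nonpos_of_nonneg_of_nonpos hR0 hcon
      linarith
    rw [abs_mul, abs_of_pos ht] at h3
    have h4 : |τ| ≤ R * ((1 - tp w') * |τ|) := by
      have := mul_le_mul_of_nonneg_right g7 (abs_nonneg τ)
      linarith
    calc |τ| ≤ R * ((1 - tp w') * |τ|) := h4
      _ ≤ R * (2 * cst A R * ‖z' - z‖ ^ 2) := mul_le_mul_of_nonneg_left h3 hR0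
      _ = R * (2 * cst A R) * ‖z' - z‖ ^ 2 := by ring

/-- For every constraint family, every vector `a` and almost every `b`: over each point
`b + s (a - b)`, `0 ≤ s < 1`, all degenerate directions lie on one line, which is not orthogonal
to `a - b`. -/
theorem gen_cross {A : m → Matrix n n ℝ} (hA : ∀ l, (A l)ᵀ = A l) (a : m → ℝ) :
    ∀ᵐ b : m → ℝ, ∀ s ∈ Ico (0 : ℝ) 1, ∀ X X' : Matrix n n ℝ, X.PosSemidef → X'.PosSemidef →
      (∀ l, (A l * X).trace = b l + s * (a l - b l)) →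
      (∀ l, (A l * X').trace = b l + s * (a l - b l)) →
      ∀ q q' : m → ℝ, comb A q * X = 0 → comb A q' * X' = 0 →
      ∑ l, (q l + q' l) * (a l - b l) = 0 → q + q' = 0 := by
  have h1 : ∀ᵐ b : m → ℝ, ∀ k : m, ∀ R : ℕ,
      b ∉ {b : m → ℝ | ∃ z, VC A a k R (Sum.elim b z)} := by
    rw [ae_all_iff]
    intro k
    rw [ae_all_iff]
    intro R
    exact measure_eq_zero_iff_ae_notMem.1 (null_VC hA a k R)
  filter_upwards [h1] with b hb s hs X X' hX hX' hXb hXb' q q' hq hq' hsum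
  by_contra hne
  obtain ⟨k, hk⟩ : ∃ k, q k + q' k ≠ 0 := by
    by_contra hcon
    push Not at hcon
    exact hne (funext hcon)
  obtain ⟨Y, hY⟩ := exists_sqrt hX
  obtain ⟨Y', hY'⟩ := exists_sqrt hX'
  set ρ : ℝ := (q k + q' k)⁻¹ with hρ
  have hcomb : ∀ p : m → ℝ, comb A (fun l => ρ * p l) = ρ • comb A p := by
    intro p
    unfold comb
    rw [Finset.smul_sum]
    exact Finset.sum_congr rfl fun l _ => by rw [smul_smul]
  have h2 : comb A (fun l => ρ * q l) * Y = 0 := by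
    apply mul_sqrt_zero (comb_transpose hA _)
    rw [← hY, hcomb, smul_mul_assoc, hq, smul_zero]
  have h3 : comb A (fun l => ρ * q' l) * Y' = 0 := by
    apply mul_sqrt_zero (comb_transpose hA _)
    rw [← hY', hcomb, smul_mul_assoc, hq', smul_zero]
  set z : KX n m → ℝ := Sum.elim (Sum.elim (fun c => Y c.1 c.2) (fun l => ρ * q l))
    (Sum.elim (Sum.elim (fun c => Y' c.1 c.2) (fun l => ρ * q' l)) (fun _ => s)) with hz
  obtain ⟨R, hR⟩ := exists_nat_ge (max ‖z‖ (1 / (1 - s)))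
  have hR1 : ‖z‖ ≤ R := (le_max_left _ _).trans hR
  have hR2 : 1 / (1 - s) ≤ R := (le_max_right _ _).trans hR
  refine hb k R ⟨z, ?_, ?_, ?_, ?_, ?_, ?_, ?_, ?_, ?_⟩
  · intro l
    show (A l * (Y * Yᵀ)).trace = b l + s * (a l - b l)
    rw [← hY]
    exact hXb l
  · intro l
    show (A l * (Y' * Y'ᵀ)).trace = b l + s * (a l - b l)
    rw [← hY']
    exact hXb' l
  · intro i j
    exact congrFun (congrFun h2 i) j
  · intro i j
    exact congrFun (congrFun h3 i) j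
  · show ∑ l, (ρ * q l + ρ * q' l) * (a l - b l) = 0
    have h4 : ∑ l, (ρ * q l + ρ * q' l) * (a l - b l)
        = ρ * ∑ l, (q l + q' l) * (a l - b l) := by
      rw [Finset.mul_sum]
      exact Finset.sum_congr rfl fun l _ => by ring
    rw [h4, hsum, mul_zero]
  · show ρ * q k + ρ * q' k = 1
    rw [← mul_add, hρ, inv_mul_cancel₀ hk]
  · show 1 ≤ (R : ℝ) * (1 - s)
    have h5 : 0 < 1 - s := by linarith [hs.2]
    rwa [div_le_iff₀ h5] at hR2
  · intro c
    show -(R : ℝ) ≤ z c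
    have h3 := (norm_le_pi_norm z c).trans hR1
    rw [Real.norm_eq_abs, abs_le] at h3
    exact h3.1
  · intro c
    show z c ≤ (R : ℝ)
    have h3 := (norm_le_pi_norm z c).trans hR1
    rw [Real.norm_eq_abs, abs_le] at h3
    exact h3.2

end Pool.Agent.PhysND
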