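import Pool.Agent.Lib.MP_e757b3_ae.MB
import Pool.Agent.Lib.MP_e757b3_an.Sard3
import Pool.Agent.Lib.MP_e757b3_an.Bridge

/-!
# Every constraint family, almost every right-hand side: starts over a segment
-/

namespace Pool.Agent.PhysND

open Matrix Set Filter Topology MeasureTheory
open Pool.Agent.Lib.MP_e757b3_ae (IsTrajectory IsFeasible IsOptimal cross_kl)

variable {n m : ℕ}

theorem every_segment (A : Fin m → Matrix (Fin n) (Fin n) ℝ) (hA : ∀ l, (A l).IsSymm)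
    (hrec : ∀ X : Matrix (Fin n) (Fin n) ℝ, X.PosSemidef → X ≠ 0 → (∀ l, (A l * X).trace = 0) →
      ∀ μ : Fin m → ℝ, (∑ l, μ l • A l) * X = 0 → μ = 0)
    (Y : Matrix (Fin n) (Fin n) ℝ) :
    ∀ᵐ b : Fin m → ℝ, (∃ F, IsFeasible A b F) →
      ∀ C : Matrix (Fin n) (Fin n) ℝ, C.PosDef →
      ∀ s ∈ Icc (0 : ℝ) 1, ∀ X₀ : Matrix (Fin n) (Fin n) ℝ, X₀.PosDef →
      (∀ l, (A l * X₀).trace = (1 - s) * b l + s * (A l * Y).trace) →
      ∃ X : ℝ → Matrix (Fin n) (Fin n) ℝ, X 0 = X₀ ∧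
        IsTrajectory C A b (Set.Ici 0) X ∧
        (∀ (T : ℝ) (Z : ℝ → Matrix (Fin n) (Fin n) ℝ), Z 0 = X₀ →
          IsTrajectory C A b (Set.Ico 0 T) Z → ∀ t ∈ Set.Ico 0 T, Z t = X t) ∧
        ∃ Xs, IsOptimal C A b Xs ∧ Tendsto X atTop (𝓝 Xs) := by
  have hA' : ∀ l, (A l)ᵀ = A l := fun l => (hA l).eq
  filter_upwards [sard hA', gen_cross hA' (fun l => (A l * Y).trace)] with b hb1 hb2 hfeas C hC
    s0 hs0 X₀ hX₀ hX₀l
  have hnd : ∀ X : Matrix (Fin n) (Fin n) ℝ, X.PosSemidef → (∀ l, (A l * X).trace = b l) →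
      ∀ μ : Fin m → ℝ, (∑ l, μ l • A l) * X = 0 → μ = 0 := by
    intro X hX hl μ hμ
    by_contra hne
    exact hb1 X hX hl μ hne hμ
  -- points over the segment from `b` to `𝒜 X₀` are over the segment from `b` to `𝒜 Y`
  have hpt : ∀ s ∈ Ioo (0 : ℝ) 1, ∀ X : Matrix (Fin n) (Fin n) ℝ,
      (∀ l, (A l * X).trace = (1 - s) * b l + s * (A l * X₀).trace) →
      ∀ l, (A l * X).trace = b l + (s * s0) * ((A l * Y).trace - b l) := by
    intro s _ X hl l
    rw [hl l, hX₀l l]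
    ring
  have hmem : ∀ s ∈ Ioo (0 : ℝ) 1, s * s0 ∈ Ico (0 : ℝ) 1 := by
    intro s hs
    refine ⟨mul_nonneg hs.1.le hs0.1, ?_⟩
    nlinarith [hs.1, hs.2, hs0.1, hs0.2]
  -- `μ ≠ 0` is not orthogonal to `a - b`
  have htr : ∀ s ∈ Ioo (0 : ℝ) 1, ∀ X : Matrix (Fin n) (Fin n) ℝ, X.PosSemidef →
      (∀ l, (A l * X).trace = (1 - s) * b l + s * (A l * X₀).trace) →
      ∀ μ : Fin m → ℝ, μ ≠ 0 → (∑ l, μ l • A l) * X = 0 →
      ∑ l, μ l * ((A l * Y).trace - b l) ≠ 0 := by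
    intro s hs X hX hl μ hμ hμX h0
    have h1 := hb2 (s * s0) (hmem s hs) X X hX hX (hpt s hs X hl) (hpt s hs X hl) μ 0 hμX
      (by
        have : comb A (0 : Fin m → ℝ) = 0 := by simp [comb]
        rw [this, Matrix.zero_mul]) (by simpa using h0)
    rw [add_zero] at h1
    exact hμ h1
  have hline : ∀ s ∈ Ioo (0 : ℝ) 1, ∀ X X' : Matrix (Fin n) (Fin n) ℝ, X.PosSemidef →
      X'.PosSemidef →
      (∀ l, (A l * X).trace = (1 - s) * b l + s * (A l * X₀).trace) →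
      (∀ l, (A l * X').trace = (1 - s) * b l + s * (A l * X₀).trace) →
      ∀ μ μ' : Fin m → ℝ, μ ≠ 0 → (∑ l, μ l • A l) * X = 0 →
      (∑ l, μ' l • A l) * X' = 0 → ∃ k : ℝ, μ' = k • μ := by
    intro s hs X X' hX hX' hl hl' μ μ' hμ hμX hμX'
    set κ : ℝ := ∑ l, μ l * ((A l * Y).trace - b l) with hκ
    set κ' : ℝ := ∑ l, μ' l * ((A l * Y).trace - b l) with hκ'
    have hκ0 : κ ≠ 0 := htr s hs X hX hl μ hμ hμX
    refine ⟨κ' / κ, ?_⟩
    have h1 : comb A (-(κ' / κ) • μ) * X = 0 := by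
      have h2 : comb A (-(κ' / κ) • μ) = (-(κ' / κ)) • comb A μ := by
        unfold comb
        rw [Finset.smul_sum]
        exact Finset.sum_congr rfl fun l _ => by rw [smul_smul]; rfl
      have h3 : comb A μ * X = 0 := hμX
      rw [h2, smul_mul_assoc, h3, smul_zero]
    have h4 := hb2 (s * s0) (hmem s hs) X' X hX' hX (hpt s hs X' hl') (hpt s hs X hl) μ'
      (-(κ' / κ) • μ) hμX' h1 (by
        have h5 : ∑ l, (μ' l + (-(κ' / κ) • μ) l) * ((A l * Y).trace - b l)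
            = κ' + -(κ' / κ) * κ := by
          rw [hκ, hκ', Finset.mul_sum, ← Finset.sum_add_distrib]
          refine Finset.sum_congr rfl fun l _ => ?_
          rw [Pi.smul_apply, smul_eq_mul]
          ring
        rw [h5, neg_mul, div_mul_cancel₀ _ hκ0]
        ring)
    rw [neg_smul, ← sub_eq_add_neg, sub_eq_zero] at h4
    exact h4
  refine cross_kl C hC A hA b X₀ hX₀ hnd hrec (fun s hs => Or.inr (hline s hs))
    (fun s hs X hX hl μ μ' hμ h1 h2 => hline s hs X X hX hX hl hl μ μ' hμ h1 h2) ?_ hfeas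
  intro s hs X hX hl μ hμ hμX h0
  -- `μ ⬝ b = 0` forces `μ ⬝ (a - b) = 0`
  have h1 : ∑ l, μ l * (A l * X).trace = 0 := by
    have h2 := trace_comb_mul A μ X
    have h3 : comb A μ * X = 0 := hμX
    rw [h3, trace_zero] at h2
    exact h2.symm
  have hb0 : ∑ l, μ l * b l = 0 := h0
  have h4 : (s * s0) * ∑ l, μ l * ((A l * Y).trace - b l) = 0 := by
    have h5 : ∑ l, μ l * (A l * X).trace
        = ∑ l, μ l * b l + (s * s0) * ∑ l, μ l * ((A l * Y).trace - b l) := by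
      rw [Finset.mul_sum, ← Finset.sum_add_distrib]
      refine Finset.sum_congr rfl fun l _ => ?_
      rw [hpt s hs X hl l]
      ring
    rw [h1, hb0, zero_add] at h5
    exact h5.symm
  rcases mul_eq_zero.1 h4 with h5 | h5
  · -- `s0 = 0`: `X` is feasible, hence nondegenerate
    have h6 : s0 = 0 := (mul_eq_zero.1 h5).resolve_left hs.1.ne'
    exact hμ (hnd X hX (fun l => by rw [hpt s hs X hl l, h6]; ring) μ hμX)
  · exact htr s hs X hX hl μ hμ hμX h5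

end Pool.Agent.PhysND
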