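import Mathlib

/-!
# Global solutions of (cut-off) autonomous differential equations
-/

namespace Pool.Agent.PhysND

open Set Metric Filter Topology
open scoped NNReal Manifold ContDiff

theorem local_sol {E : Type*} [NormedAddCommGroup E] [NormedSpace ℝ E] [CompleteSpace E]
    {g : E → E} {K : ℝ≥0} (hg : LipschitzWith K g) {L : ℝ≥0} (hL : ∀ x, ‖g x‖ ≤ L) (x0 : E)
    (N : ℕ) :
    ∃ α : ℝ → E, α 0 = x0 ∧ ∀ t ∈ Icc (-((N : ℝ) + 1)) ((N : ℝ) + 1),
      HasDerivWithinAt α (g (α t)) (Icc (-((N : ℝ) + 1)) ((N : ℝ) + 1)) t := by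
  have hN : (0 : ℝ) ≤ (N : ℝ) + 1 := by positivity
  have h0 : (0 : ℝ) ∈ Icc (-((N : ℝ) + 1)) ((N : ℝ) + 1) := ⟨by linarith, hN⟩
  have hp : IsPicardLindelof (fun _ => g) (tmin := -((N : ℝ) + 1)) (tmax := (N : ℝ) + 1)
      ⟨0, h0⟩ x0 (L * ((N : ℝ≥0) + 1)) 0 L K := by
    apply IsPicardLindelof.of_time_independent (fun x _ => hL x) hg.lipschitzOnWith
    simp
  obtain ⟨α, h1, h2⟩ := hp.exists_eq_forall_mem_Icc_hasDerivWithinAt₀
  exact ⟨α, h1, h2⟩

theorem global_exists {E : Type*} [NormedAddCommGroup E] [NormedSpace ℝ E] [CompleteSpace E]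
    {g : E → E} {K : ℝ≥0} (hg : LipschitzWith K g) {L : ℝ≥0} (hL : ∀ x, ‖g x‖ ≤ L) (x0 : E) :
    ∃ α : ℝ → E, α 0 = x0 ∧ ∀ t, HasDerivAt α (g (α t)) t := by
  choose α h0 h1 using local_sol hg hL x0
  have hder : ∀ (N : ℕ) (t : ℝ), |t| < (N : ℝ) + 1 → HasDerivAt (α N) (g (α N t)) t := by
    intro N t ht
    have ht' := abs_lt.1 ht
    exact (h1 N t ⟨ht'.1.le, ht'.2.le⟩).hasDerivAt (Icc_mem_nhds ht'.1 ht'.2)
  have huniq : ∀ (N M : ℕ), N ≤ M → ∀ t, |t| < (N : ℝ) + 1 → α N t = α M t := by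
    intro N M hNM t ht
    have hNM' : (N : ℝ) ≤ M := by exact_mod_cast hNM
    have hN : (0 : ℝ) < (N : ℝ) + 1 := by positivity
    have := ODE_solution_unique_of_mem_Ioo (v := fun _ => g) (s := fun _ => univ) (K := K)
      (f := α N) (g := α M) (a := -((N : ℝ) + 1)) (b := (N : ℝ) + 1) (t₀ := 0)
      (fun s _ => hg.lipschitzOnWith) ⟨by linarith, hN⟩
      (fun s hs => ⟨hder N s (abs_lt.2 hs), mem_univ _⟩)
      (fun s hs => ⟨hder M s (abs_lt.2 ⟨by linarith [hs.1], by linarith [hs.2]⟩), mem_univ _⟩)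
      (by rw [h0, h0])
    exact this (abs_lt.1 ht)
  refine ⟨fun t => α ⌈|t|⌉₊ t, h0 _, fun t => ?_⟩
  have ht0 : |t| < ((⌈|t|⌉₊ : ℕ) : ℝ) + 1 := by
    linarith [Nat.le_ceil |t|]
  set N : ℕ := ⌈|t|⌉₊ with hN
  have hev : (fun s => α ⌈|s|⌉₊ s) =ᶠ[𝓝 t] α (N + 1) := by
    have hopen : ∀ᶠ s in 𝓝 t, |s| < (N : ℝ) + 1 :=
      (continuous_abs.continuousAt (x := t)).eventually_lt continuousAt_const ht0
    filter_upwards [hopen] with s hs
    apply huniq
    · apply Nat.ceil_le.2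
      push_cast
      exact hs.le
    · linarith [Nat.le_ceil |s|]
  have h2 : α N t = α (N + 1) t := huniq N (N + 1) (Nat.le_succ N) t ht0
  have h3 := hder (N + 1) t (by push_cast; linarith)
  show HasDerivAt (fun s => α ⌈|s|⌉₊ s) (g (α N t)) t
  rw [h2]
  exact h3.congr_of_eventuallyEq hev

/-- Cut-off flow: a `C¹` vector field on an open set `U` can be multiplied by a continuous function
`χ ≥ 0` equal to `1` on a given compact subset of `U`, so that the product has global solutions. -/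
theorem cutoff_flow {E : Type*} [NormedAddCommGroup E] [NormedSpace ℝ E] [FiniteDimensional ℝ E]
    {U K : Set E} (hU : IsOpen U) (hK : IsCompact K) (hKU : K ⊆ U) {h : E → E}
    (hh : ∀ x ∈ U, ContDiffAt ℝ 1 h x) (x0 : E) :
    ∃ χ : E → ℝ, (∀ x ∈ K, χ x = 1) ∧ (∀ x, 0 ≤ χ x) ∧ (∀ x, x ∉ U → χ x = 0) ∧
      Continuous χ ∧
      (∀ f : E → ℝ, (∀ x ∈ U, ContinuousAt f x) → Continuous (fun x => χ x * f x)) ∧
      (∃ Kl : ℝ≥0, LipschitzWith Kl (fun x => χ x • h x)) ∧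
      ∃ α : ℝ → E, α 0 = x0 ∧ ∀ t, HasDerivAt α (χ (α t) • h (α t)) t := by
  have : CompleteSpace E := FiniteDimensional.complete ℝ E
  have : ProperSpace E := FiniteDimensional.proper ℝ E
  obtain ⟨L, hL, hKL, hLU⟩ := exists_compact_between hK hU hKU
  obtain ⟨χ, h1, h2, h3⟩ := exists_contMDiffMap_one_nhds_of_subset_interior
    (n := (1 : ℕ∞)) 𝓘(ℝ, E) hK.isClosed hKL
  have hχ : ContDiff ℝ 1 (χ : E → ℝ) := χ.contMDiff.contDiff
  have hsupp : tsupport (χ : E → ℝ) ⊆ L := by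
    apply closure_minimal _ hL.isClosed
    intro x hx
    by_contra hxL
    exact hx (h2 x hxL)
  have hcs : HasCompactSupport (χ : E → ℝ) := hL.of_isClosed_subset isClosed_closure hsupp
  have hoff : ∀ x, x ∉ U → ∀ᶠ y in 𝓝 x, χ y = 0 := by
    intro x hx
    have : x ∈ (tsupport (χ : E → ℝ))ᶜ := fun hx' => hx (hLU (hsupp hx'))
    filter_upwards [(isClosed_closure.isOpen_compl).mem_nhds this] with y hy
    exact image_eq_zero_of_notMem_tsupport hy
  have hg : ContDiff ℝ 1 (fun x => χ x • h x) := by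
    rw [contDiff_iff_contDiffAt]
    intro x
    by_cases hx : x ∈ U
    · exact hχ.contDiffAt.smul (hh x hx)
    · apply (contDiffAt_const (c := (0 : E))).congr_of_eventuallyEq
      filter_upwards [hoff x hx] with y hy
      rw [hy, zero_smul]
  have hgs : HasCompactSupport (fun x => χ x • h x) := hcs.smul_right
  obtain ⟨Kl, hKl⟩ := ContDiff.lipschitzWith_of_hasCompactSupport hgs hg one_ne_zero
  obtain ⟨B, hB⟩ := hgs.exists_bound_of_continuous hg.continuous
  obtain ⟨α, hα0, hα⟩ := global_exists hKl (L := ⟨max B 0, le_max_right _ _⟩)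
    (fun x => (hB x).trans (le_max_left _ _)) x0
  refine ⟨χ, fun x hx => h1.self_of_nhdsSet x hx, fun x => (h3 x).1,
    fun x hx => (hoff x hx).self_of_nhds, hχ.continuous, ?_, ⟨Kl, hKl⟩, α, hα0, hα⟩
  intro f hf
  rw [continuous_iff_continuousAt]
  intro x
  by_cases hx : x ∈ U
  · exact hχ.continuous.continuousAt.mul (hf x hx)
  · apply (continuousAt_const (y := (0 : ℝ))).congr
    filter_upwards [hoff x hx] with y hy
    rw [hy, zero_mul]

end Pool.Agent.PhysND
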