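import Pool.Agent.Lib.MP_e757b3_an.Calc
import Pool.Agent.Lib.MP_e757b3_an.Ode

/-!
# Global existence of the first-ansatz flow under nondegeneracy along the slices
-/

namespace Pool.Agent.PhysND

open Matrix Set Filter Topology

set_option linter.unusedSectionVars false

variable {n m : Type} [Fintype n] [DecidableEq n] [Fintype m] [DecidableEq m]

/-- The matrix `S(X) - C`, where `S(X) = ∑ p_l A_l`, `p = (𝒜 G(X) 𝒜ᵀ)⁻¹ b`. -/
noncomputable def MM (C : Matrix n n ℝ) (A : m → Matrix n n ℝ) (b : m → ℝ)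
    (X : Matrix n n ℝ) : Matrix n n ℝ :=
  comb A ((gram C A X)⁻¹ *ᵥ b) - C

/-- `X = Φ X₀ Φᵀ` -/
noncomputable def XX (X0 Φ : Matrix n n ℝ) : Matrix n n ℝ := Φ * X0 * Φᵀ

/-- the constraint vector of `X` lies on the segment from `b` to that of `X₀` -/
def OnSeg (A : m → Matrix n n ℝ) (b : m → ℝ) (X0 X : Matrix n n ℝ) : Prop :=
  ∃ s ∈ Icc (0 : ℝ) 1, ∀ l, (A l * X).trace = b l + s * ((A l * X0).trace - b l)

lemma CDA_MM {E : Type*} [NormedAddCommGroup E] [NormedSpace ℝ E] {C : Matrix n n ℝ}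
    {A : m → Matrix n n ℝ} {b : m → ℝ} {F : E → Matrix n n ℝ} {x : E} (hF : CDA F x)
    (h : (gram C A (F x)).det ≠ 0) : CDA (fun y => MM C A b (F y)) x := by
  have hinv : CDA (fun y => (gram C A (F y))⁻¹) x := CDA.inv hF.gram h
  intro i j
  simp only [Pool.Agent.PhysND.MM, comb, Matrix.sub_apply, Matrix.sum_apply, Matrix.smul_apply,
    Matrix.mulVec, dotProduct, smul_eq_mul]
  exact (ContDiffAt.sum fun l _ => (ContDiffAt.sum fun k _ =>
    (hinv l k).mul contDiffAt_const).mul contDiffAt_const).sub contDiffAt_const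

lemma MM_symm {C : Matrix n n ℝ} {A : m → Matrix n n ℝ} (hC : Cᵀ = C)
    (hA : ∀ l, (A l)ᵀ = A l) (b : m → ℝ) (X : Matrix n n ℝ) :
    (MM C A b X)ᵀ = MM C A b X := by
  unfold MM
  rw [transpose_sub, comb_transpose hA, hC]

lemma XX_psd {X0 : Matrix n n ℝ} (h : X0.PosSemidef) (Φ : Matrix n n ℝ) :
    (XX X0 Φ).PosSemidef := by
  have := h.mul_mul_conjTranspose_same Φ
  rwa [conjTranspose_eq_transpose_of_trivial] at this

lemma CDA_of (x : n → n → ℝ) : CDA (fun Φ : n → n → ℝ => (of Φ : Matrix n n ℝ)) x := by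
  intro i j
  simp only [of_apply]
  fun_prop

lemma CDA_XX (X0 : Matrix n n ℝ) (x : n → n → ℝ) :
    CDA (fun Φ : n → n → ℝ => XX X0 (of Φ)) x :=
  ((CDA_of x).mul (CDA.const _ x)).mul (CDA_of x).transpose

lemma CDA.cont {E : Type*} [NormedAddCommGroup E] [NormedSpace ℝ E] {F : E → ℝ}
    (h : ∀ x, ContDiffAt ℝ 1 F x) : Continuous F :=
  continuous_iff_continuousAt.2 fun x => (h x).continuousAt

lemma trace_lower {C Y : Matrix n n ℝ} {κ : ℝ} (hC : C.PosDef)
    (hκ : ∀ x : n → ℝ, κ * ∑ i, x i ^ 2 ≤ x ⬝ᵥ (C *ᵥ x)) (hY : Y.PosSemidef) :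
    κ * Y.trace ≤ (C * Y).trace := by
  have h1 : (C - κ • (1 : Matrix n n ℝ)).PosSemidef := by
    refine Matrix.PosSemidef.of_dotProduct_mulVec_nonneg ?_ fun x => ?_
    · have := symm_of_posDef hC
      rw [IsHermitian, conjTranspose_eq_transpose_of_trivial, transpose_sub, transpose_smul,
        transpose_one, this]
    · have h2 := hκ x
      have h3 : star x ⬝ᵥ ((C - κ • (1 : Matrix n n ℝ)) *ᵥ x)
          = x ⬝ᵥ (C *ᵥ x) - κ * ∑ i, x i ^ 2 := by
        rw [sub_mulVec, smul_mulVec, one_mulVec, dotProduct_sub, dotProduct_smul, smul_eq_mul]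
        simp [dotProduct, pow_two]
      rw [h3]
      linarith
  have h4 := trace_mul_nonneg h1 hY
  rw [sub_mul, trace_sub, smul_mul_assoc, Matrix.one_mul, trace_smul, smul_eq_mul] at h4
  linarith

lemma trace_XX (X0 Φ : Matrix n n ℝ) :
    (XX X0 Φ).trace = ∑ i, (Φ i) ⬝ᵥ (X0 *ᵥ (Φ i)) := by
  unfold XX
  simp only [Matrix.trace, Matrix.diag]
  refine Finset.sum_congr rfl fun i _ => ?_
  rw [dotProduct_mulVec, Matrix.mul_apply]
  simp only [dotProduct, Matrix.transpose_apply]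
  refine Finset.sum_congr rfl fun j _ => ?_
  rw [Matrix.mul_apply]
  rfl

lemma XX_lower {C X0 : Matrix n n ℝ} {κ κ' : ℝ} (hC : C.PosDef) (hX0 : X0.PosDef) (hκ0 : 0 ≤ κ)
    (hκ : ∀ x : n → ℝ, κ * ∑ i, x i ^ 2 ≤ x ⬝ᵥ (C *ᵥ x))
    (hκ' : ∀ x : n → ℝ, κ' * ∑ i, x i ^ 2 ≤ x ⬝ᵥ (X0 *ᵥ x)) (Φ : Matrix n n ℝ) :
    κ * (κ' * ∑ i, ∑ j, Φ i j ^ 2) ≤ (C * XX X0 Φ).trace := by
  refine le_trans ?_ (trace_lower hC hκ (XX_psd hX0.posSemidef Φ))
  refine mul_le_mul_of_nonneg_left ?_ hκ0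
  rw [trace_XX, Finset.mul_sum]
  exact Finset.sum_le_sum fun i _ => hκ' (Φ i)

lemma compact_K {C X0 : Matrix n n ℝ} (hC : C.PosDef) (hX0 : X0.PosDef)
    (A : m → Matrix n n ℝ) (b : m → ℝ) (R : ℝ) :
    IsCompact {Φ : n → n → ℝ | OnSeg A b X0 (XX X0 (of Φ)) ∧
      (C * XX X0 (of Φ)).trace ≤ R} := by
  obtain ⟨κ, hκ0, hκ⟩ := posDef_lower hC
  obtain ⟨κ', hκ'0, hκ'⟩ := posDef_lower hX0
  apply Metric.isCompact_of_isClosed_isBounded
  · refine IsClosed.inter (s₁ := {Φ : n → n → ℝ | OnSeg A b X0 (XX X0 (of Φ))})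
      (s₂ := {Φ : n → n → ℝ | (C * XX X0 (of Φ)).trace ≤ R}) ?_ ?_
    · have hcl : IsClosed ((fun s : ℝ => fun l : m => b l + s * ((A l * X0).trace - b l)) ''
          Icc 0 1) := by
        apply IsCompact.isClosed
        apply isCompact_Icc.image
        fun_prop
      have hcont : Continuous (fun Φ : n → n → ℝ => fun l : m => (A l * XX X0 (of Φ)).trace) := by
        apply continuous_pi
        intro l
        exact CDA.cont fun x => CDA.trace ((CDA.const _ x).mul (CDA_XX X0 x))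
      have hset : {Φ : n → n → ℝ | OnSeg A b X0 (XX X0 (of Φ))}
          = (fun Φ : n → n → ℝ => fun l : m => (A l * XX X0 (of Φ)).trace) ⁻¹'
            ((fun s : ℝ => fun l : m => b l + s * ((A l * X0).trace - b l)) '' Icc 0 1) := by
        ext Φ
        simp only [OnSeg, mem_ofPred_eq, mem_preimage, mem_image, funext_iff]
        constructor
        · rintro ⟨s, hs, h⟩
          exact ⟨s, hs, fun l => (h l).symm⟩
        · rintro ⟨s, hs, h⟩
          exact ⟨s, hs, fun l => (h l).symm⟩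
      rw [hset]
      exact hcl.preimage hcont
    · exact isClosed_le (CDA.cont fun x => CDA.trace ((CDA.const _ x).mul (CDA_XX X0 x)))
        continuous_const
  · rw [Metric.isBounded_iff_subset_closedBall 0]
    refine ⟨1 + |R| / (κ * κ'), fun Φ hΦ => ?_⟩
    have hr : 0 ≤ 1 + |R| / (κ * κ') := by positivity
    rw [mem_closedBall_zero_iff, pi_norm_le_iff_of_nonneg hr]
    intro i
    rw [pi_norm_le_iff_of_nonneg hr]
    intro j
    have h1 := (XX_lower hC hX0 hκ0.le hκ hκ' (of Φ)).trans hΦ.2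
    have h2 : Φ i j ^ 2 ≤ ∑ i, ∑ j, (of Φ : Matrix n n ℝ) i j ^ 2 := by
      have h3 : Φ i j ^ 2 ≤ ∑ j, Φ i j ^ 2 :=
        Finset.single_le_sum (f := fun j => Φ i j ^ 2) (fun _ _ => sq_nonneg _) (Finset.mem_univ j)
      have h4 : ∑ j, Φ i j ^ 2 ≤ ∑ i, ∑ j, Φ i j ^ 2 :=
        Finset.single_le_sum (f := fun i => ∑ j, Φ i j ^ 2)
          (fun _ _ => Finset.sum_nonneg fun _ _ => sq_nonneg _) (Finset.mem_univ i)
      exact h3.trans h4
    have hk : 0 < κ * κ' := mul_pos hκ0 hκ'0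
    have h5 : Φ i j ^ 2 ≤ |R| / (κ * κ') := by
      rw [le_div_iff₀ hk]
      have h6 : κ * κ' * Φ i j ^ 2 ≤ κ * (κ' * ∑ i, ∑ j, (of Φ : Matrix n n ℝ) i j ^ 2) := by
        rw [mul_assoc]
        exact mul_le_mul_of_nonneg_left (mul_le_mul_of_nonneg_left h2 hκ'0.le) hκ0.le
      linarith [le_abs_self R]
    rw [Real.norm_eq_abs]
    nlinarith [sq_nonneg (|Φ i j| - 1), sq_abs (Φ i j), abs_nonneg (Φ i j)]

/-- derivative of `X = Φ X₀ Φᵀ` -/
lemma XX_deriv_eq {C X0 : Matrix n n ℝ} (hC : Cᵀ = C) (M Φ : Matrix n n ℝ)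
    (hM : Mᵀ = M) (c : ℝ) :
    (c • (1 / 2 : ℝ) • (C⁻¹ * M * Φ)) * X0 * Φᵀ
      + Φ * X0 * (c • (1 / 2 : ℝ) • (C⁻¹ * M * Φ))ᵀ = c • cond C (XX X0 Φ) M := by
  unfold cond XX
  simp only [transpose_smul, transpose_mul, smul_mul_assoc, mul_smul_comm, hM, inv_transpose hC,
    Matrix.mul_assoc, smul_add]
  rw [add_comm]

lemma gram_inv_mulVec {C : Matrix n n ℝ} {A : m → Matrix n n ℝ} {b : m → ℝ} {X : Matrix n n ℝ}
    (h : IsUnit (gram C A X).det) (l : m) :
    (A l * cond C X (comb A ((gram C A X)⁻¹ *ᵥ b))).trace = b l := by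
  rw [← gram_mulVec, mulVec_mulVec, mul_nonsing_inv _ h, one_mulVec]

lemma trace_A_cond_MM {C : Matrix n n ℝ} (hC : IsUnit C.det) {A : m → Matrix n n ℝ} {b : m → ℝ}
    {X : Matrix n n ℝ} (h : IsUnit (gram C A X).det) (l : m) :
    (A l * cond C X (MM C A b X)).trace = b l - (A l * X).trace := by
  unfold MM
  rw [cond_sub, cond_C hC, mul_sub, trace_sub, gram_inv_mulVec h]

theorem flow_exists {C X0 : Matrix n n ℝ} {A : m → Matrix n n ℝ} {b : m → ℝ} {R : ℝ}
    (hC : C.PosDef) (hA : ∀ l, (A l)ᵀ = A l) (hX0 : X0.PosDef)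
    (hR0 : (C * X0).trace ≤ R)
    (hnd : ∀ X, X.PosSemidef → OnSeg A b X0 X → Nondeg A X)
    (hbar : ∀ X, X.PosSemidef → OnSeg A b X0 X → R ≤ (C * X).trace →
      (MM C A b X * X).trace ≤ 0) :
    ∃ Φ : ℝ → Matrix n n ℝ, Φ 0 = 1 ∧
      (∀ t, 0 ≤ t → IsUnit (Φ t).det) ∧
      (∀ t, 0 ≤ t → HD Φ ((1 / 2 : ℝ) • (C⁻¹ * MM C A b (XX X0 (Φ t)) * Φ t)) t) ∧
      (∀ t, 0 ≤ t → ∀ l, (A l * XX X0 (Φ t)).trace
        = b l + Real.exp (-t) * ((A l * X0).trace - b l)) ∧
      (∀ t, 0 ≤ t → (C * XX X0 (Φ t)).trace ≤ R) := by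
  have hCs : Cᵀ = C := symm_of_posDef hC
  have hCu : IsUnit C.det := hC.det_pos.ne'.isUnit
  set U : Set (n → n → ℝ) := {Φ | (gram C A (XX X0 (of Φ))).det ≠ 0} with hUdef
  set K : Set (n → n → ℝ) := {Φ : n → n → ℝ | OnSeg A b X0 (XX X0 (of Φ)) ∧
      (C * XX X0 (of Φ)).trace ≤ R} with hKdef
  have hU : IsOpen U :=
    isOpen_ne.preimage (CDA.cont fun x => CDA.det (CDA.gram (CDA_XX X0 x)))
  have hK : IsCompact K := compact_K hC hX0 A b R
  have hKU : K ⊆ U := fun Φ hΦ =>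
    (gram_isUnit hC hA (XX_psd hX0.posSemidef _)
      (hnd _ (XX_psd hX0.posSemidef _) hΦ.1)).ne_zero
  have hmm : ∀ x ∈ U, CDA (fun Φ : n → n → ℝ => MM C A b (XX X0 (of Φ))) x :=
    fun x hx => CDA_MM (CDA_XX X0 x) hx
  have hh : ∀ x ∈ U, ContDiffAt ℝ 1 (fun (Φ : n → n → ℝ) (i j : n) =>
      ((1 / 2 : ℝ) • (C⁻¹ * MM C A b (XX X0 (of Φ)) * of Φ)) i j) x := by
    intro x hx
    rw [contDiffAt_pi]
    intro i
    rw [contDiffAt_pi]
    intro j
    exact CDA.smul contDiffAt_const (((CDA.const _ x).mul (hmm x hx)).mul (CDA_of x)) i j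
  obtain ⟨χ, hχ1, hχ0, hχU, hχc, hχf, _, α, hα0, hα⟩ :=
    cutoff_flow hU hK hKU hh (fun i j => (1 : Matrix n n ℝ) i j)
  set Φ : ℝ → Matrix n n ℝ := fun t => of (α t) with hΦdef
  set c : ℝ → ℝ := fun t => χ (α t) with hcdef
  have hαc : Continuous α := continuous_iff_continuousAt.2 fun t => (hα t).continuousAt
  have hcc : Continuous c := hχc.comp hαc
  have hΦ0 : Φ 0 = 1 := by
    ext i j
    simp only [hΦdef, of_apply, hα0]
  have hΦ : ∀ t, HD Φ (c t • (1 / 2 : ℝ) • (C⁻¹ * MM C A b (XX X0 (Φ t)) * Φ t)) t := by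
    intro t i j
    have h1 := hα t
    rw [hasDerivAt_pi] at h1
    have h2 := h1 i
    rw [hasDerivAt_pi] at h2
    exact h2 j
  have hXd : ∀ t, HD (fun s => XX X0 (Φ s)) (c t • cond C (XX X0 (Φ t))
      (MM C A b (XX X0 (Φ t)))) t := by
    intro t
    have h1 := ((hΦ t).mulConst X0).mul (hΦ t).transpose
    rw [XX_deriv_eq hCs _ _ (MM_symm hCs hA b _) (c t)] at h1
    exact h1
  have hUc : ∀ t, c t ≠ 0 → IsUnit (gram C A (XX X0 (Φ t))).det := by
    intro t ht
    have : α t ∈ U := by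
      by_contra hn
      exact ht (hχU _ hn)
    exact isUnit_iff_ne_zero.2 this
  -- the linear constraints
  set I : ℝ → ℝ := fun t => ∫ s in (0 : ℝ)..t, c s with hIdef
  have hI : ∀ t, HasDerivAt I (c t) t := fun t =>
    (hcc.integral_hasStrictDerivAt 0 t).hasDerivAt
  have hI0 : I 0 = 0 := by simp [hIdef]
  have hAd : ∀ l t, HasDerivAt (fun s => (A l * XX X0 (Φ s)).trace)
      (c t * (b l - (A l * XX X0 (Φ t)).trace)) t := by
    intro l t
    have h1 := ((hXd t).constMul (A l)).trace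
    rw [mul_smul_comm, trace_smul, smul_eq_mul] at h1
    by_cases hc0 : c t = 0
    · simpa [hc0] using h1
    · rwa [trace_A_cond_MM hCu (hUc t hc0)] at h1
  have hAeq : ∀ l t, (A l * XX X0 (Φ t)).trace
      = b l + Real.exp (-I t) * ((A l * X0).trace - b l) := by
    intro l t
    have hd : ∀ s, HasDerivAt (fun s => ((A l * XX X0 (Φ s)).trace - b l) * Real.exp (I s)) 0 s := by
      intro s
      have h1 := ((hAd l s).sub_const (b l)).fun_mul (hI s).exp
      have e1 : (c s * (b l - (A l * XX X0 (Φ s)).trace)) * Real.exp (I s)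
          + ((A l * XX X0 (Φ s)).trace - b l) * (Real.exp (I s) * c s) = 0 := by ring
      rw [e1] at h1
      exact h1
    have h2 := is_const_of_deriv_eq_zero (fun s => (hd s).differentiableAt)
      (fun s => (hd s).deriv) t 0
    simp only [hI0, Real.exp_zero, mul_one, hΦ0] at h2
    have h3 : XX X0 (1 : Matrix n n ℝ) = X0 := by simp [XX]
    rw [h3] at h2
    have h4 : (A l * XX X0 (Φ t)).trace - b l = Real.exp (-I t) * ((A l * X0).trace - b l) := by
      rw [← h2, mul_comm, mul_assoc, ← Real.exp_add, add_neg_cancel, Real.exp_zero, mul_one]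
    linarith
  have hI_nn : ∀ t, 0 ≤ t → 0 ≤ I t := fun t ht =>
    intervalIntegral.integral_nonneg ht fun s _ => hχ0 _
  have hseg : ∀ t, 0 ≤ t → OnSeg A b X0 (XX X0 (Φ t)) := fun t ht =>
    ⟨Real.exp (-I t), ⟨(Real.exp_pos _).le, Real.exp_le_one_iff.2 (by linarith [hI_nn t ht])⟩,
      fun l => hAeq l t⟩
  have hEd : ∀ t, HasDerivAt (fun s => (C * XX X0 (Φ s)).trace)
      (c t * (MM C A b (XX X0 (Φ t)) * XX X0 (Φ t)).trace) t := by
    intro t
    have h1 := ((hXd t).constMul C).trace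
    rwa [mul_smul_comm, trace_smul, smul_eq_mul, trace_C_cond hCu] at h1
  have hEle : ∀ t, 0 ≤ t → (C * XX X0 (Φ t)).trace ≤ R := by
    intro T hT
    refine le_of_forall_pos_le_add fun ε hε => ?_
    have hε' : 0 < ε / (T + 1) := by positivity
    have h1 := image_le_of_deriv_right_lt_deriv_boundary (a := 0) (b := T)
      (f := fun s => (C * XX X0 (Φ s)).trace)
      (f' := fun t => c t * (MM C A b (XX X0 (Φ t)) * XX X0 (Φ t)).trace)
      (B := fun s => R + ε / (T + 1) * s) (B' := fun _ => ε / (T + 1))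
      (fun s _ => (hEd s).continuousAt.continuousWithinAt)
      (fun s _ => (hEd s).hasDerivWithinAt)
      (by
        have h3 : XX X0 (1 : Matrix n n ℝ) = X0 := by simp [XX]
        simp only [hΦ0, h3]
        linarith)
      (fun s => by simpa using ((hasDerivAt_id s).const_mul (ε / (T + 1))).const_add R)
      (fun s hs heq => by
        have h4 : R ≤ (C * XX X0 (Φ s)).trace := by
          rw [heq]
          have := mul_nonneg hε'.le hs.1
          linarith
        have h5 := hbar _ (XX_psd hX0.posSemidef _) (hseg s hs.1) h4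
        have h6 := mul_nonpos_of_nonneg_of_nonpos (hχ0 (α s)) h5
        exact lt_of_le_of_lt h6 hε')
      (show T ∈ Icc 0 T from ⟨hT, le_rfl⟩)
    have h7 : ε / (T + 1) * T ≤ ε := by
      rw [div_mul_eq_mul_div, div_le_iff₀ (by positivity)]
      nlinarith
    linarith
  have hc1 : ∀ t, 0 ≤ t → c t = 1 := fun t ht => hχ1 _ ⟨hseg t ht, hEle t ht⟩
  have hIt : ∀ t, 0 ≤ t → I t = t := by
    intro t ht
    have : I t = ∫ s in (0 : ℝ)..t, (1 : ℝ) := by
      apply intervalIntegral.integral_congr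
      intro s hs
      rw [uIcc_of_le ht] at hs
      exact hc1 s hs.1
    rw [this]
    simp
  refine ⟨Φ, hΦ0, ?_, ?_, ?_, hEle⟩
  · intro T hT
    rw [isUnit_iff_ne_zero]
    intro hdet
    obtain ⟨v, hv, hv0⟩ := Matrix.exists_mulVec_eq_zero_iff.2 hdet
    set B : ℝ → Matrix n n ℝ := fun t => c t • (1 / 2 : ℝ) • (C⁻¹ * MM C A b (XX X0 (Φ t))) with hB
    have hBc : ∀ i j, Continuous (fun t => B t i j) := by
      intro i j
      have h1 := hχf (fun Ψ => ((1 / 2 : ℝ) • (C⁻¹ * MM C A b (XX X0 (of Ψ)))) i j)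
        (fun x hx => (CDA.smul contDiffAt_const ((CDA.const _ x).mul (hmm x hx)) i j).continuousAt)
      exact h1.comp hαc
    have hsum : Continuous (fun t => ∑ i, ∑ j, |B t i j|) :=
      continuous_finsetSum _ fun i _ => continuous_finsetSum _ fun j _ => (hBc i j).abs
    obtain ⟨β, hβ⟩ := (isCompact_Icc (a := (0 : ℝ)) (b := T)).exists_bound_of_continuousOn
      hsum.continuousOn
    have h2 := lower_growth (w := fun t => Φ t *ᵥ v) (B := B) (β := β) hT
      (fun t _ i => by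
        have h3 := (hΦ t).mulVec v i
        convert h3 using 1
        rw [mulVec_mulVec, hB]
        simp only [smul_mul_assoc])
      (fun t ht => (le_abs_self _).trans (by simpa [Real.norm_eq_abs] using hβ t ht))
    simp only [hΦ0, hv0, one_mulVec] at h2
    simp only [Pi.zero_apply, ne_eq, OfNat.ofNat_ne_zero, not_false_eq_true, zero_pow,
      Finset.sum_const_zero, zero_mul] at h2
    apply hv
    have h4 := (Finset.sum_eq_zero_iff_of_nonneg (fun i _ => sq_nonneg (v i))).1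
      (le_antisymm h2 (Finset.sum_nonneg fun i _ => sq_nonneg (v i)))
    ext i
    have := h4 i (Finset.mem_univ i)
    simpa using this
  · intro t ht
    have := hΦ t
    rwa [hc1 t ht, one_smul] at this
  · intro t ht l
    rw [hAeq l t, hIt t ht]

end Pool.Agent.PhysND
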