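import Pool.Agent.Lib.MP_e757b3_an.Limit

/-!
# Non-optimal levels cannot be limits
-/

namespace Pool.Agent.PhysND

open Matrix Set Filter Topology

set_option linter.unusedSectionVars false

variable {n m : Type} [Fintype n] [DecidableEq n] [Fintype m] [DecidableEq m]

variable {C X0 : Matrix n n ℝ} {A : m → Matrix n n ℝ} {b : m → ℝ} {R : ℝ}
  {Φ : ℝ → Matrix n n ℝ}

lemma isClosed_KK (hC : C.PosDef) (hX0 : X0.PosDef) : IsClosed (KK C X0 A b R) :=
  (compact_K hC hX0 A b R).isClosed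

/-- cluster points of the curve of factors are factors of equilibria -/
theorem Flow.cluster (F : Flow C X0 A b R Φ) (hC : C.PosDef) (hX0 : X0.PosDef)
    (hA : ∀ l, (A l)ᵀ = A l) (hKU : KK C X0 A b R ⊆ UU C X0 A)
    {L : ℝ} (hL : Tendsto (fun t => (C * XX X0 (Φ t)).trace) atTop (𝓝 L))
    {Ψ : n → n → ℝ} (hΨ : MapClusterPt Ψ atTop (al Φ)) :
    Ψ ∈ KK C X0 A b R ∧ Feasible A b (XX X0 (of Ψ)) ∧ (C * XX X0 (of Ψ)).trace = L ∧
      MM C A b (XX X0 (of Ψ)) * XX X0 (of Ψ) = 0 := by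
  have hmem : Ψ ∈ KK C X0 A b R := mem_of_cluster (isClosed_KK hC hX0)
    ((eventually_ge_atTop 0).mono fun t ht => F.mem ht) hΨ
  have hU := hKU hmem
  refine ⟨hmem, ⟨XX_psd hX0.posSemidef _, fun l => ?_⟩, ?_, ?_⟩
  · have hg : ContinuousAt (fun Ψ : n → n → ℝ => (A l * XX X0 (of Ψ)).trace) Ψ :=
      (CDA.trace ((CDA.const _ Ψ).mul (CDA_XX X0 Ψ))).continuousAt
    refine eq_of_cluster hΨ hg ?_
    have h1 : Tendsto (fun t : ℝ => b l + Real.exp (-t) * ((A l * X0).trace - b l)) atTop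
        (𝓝 (b l + 0 * ((A l * X0).trace - b l))) :=
      (Real.tendsto_exp_neg_atTop_nhds_zero.mul_const _).const_add _
    rw [zero_mul, add_zero] at h1
    refine h1.congr' ?_
    filter_upwards [eventually_ge_atTop (0 : ℝ)] with t ht
    rw [of_al, F.lin t ht l]
  · have hg : ContinuousAt (fun Ψ : n → n → ℝ => (C * XX X0 (of Ψ)).trace) Ψ :=
      (CDA.trace ((CDA.const _ Ψ).mul (CDA_XX X0 Ψ))).continuousAt
    exact eq_of_cluster hΨ hg hL
  · have hg : ContinuousAt (fun Ψ : n → n → ℝ => (MM C A b (XX X0 (of Ψ)) * C⁻¹ *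
        MM C A b (XX X0 (of Ψ)) * XX X0 (of Ψ)).trace) Ψ :=
      (CDA.trace ((((mmC hU).mul (CDA.const _ Ψ)).mul (mmC hU)).mul (CDA_XX X0 Ψ))).continuousAt
    have h1 := eq_of_cluster hΨ hg (F.energy hC hX0 hA hKU).2.1
    exact quad_eq_zero hC.inv (XX_psd hX0.posSemidef _)
      (MM_symm (symm_of_posDef hC) hA b _) h1

lemma mult_of_MM {X : Matrix n n ℝ} (h : MM C A b X * X = 0) :
    comb A ((gram C A X)⁻¹ *ᵥ b) * X = C * X := by
  unfold MM at h
  rw [sub_mul, sub_eq_zero] at h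
  exact h

lemma bp_eq {X : Matrix n n ℝ} (hX : Feasible A b X) (h : MM C A b X * X = 0) :
    ∑ l, ((gram C A X)⁻¹ *ᵥ b) l * b l = (C * X).trace := by
  rw [← mult_of_MM h, trace_comb_mul]
  exact Finset.sum_congr rfl fun l _ => by rw [hX.2 l]

lemma symm_dot {N : Matrix n n ℝ} (hN : Nᵀ = N) (v w : n → ℝ) :
    v ⬝ᵥ (N *ᵥ w) = w ⬝ᵥ (N *ᵥ v) := by
  rw [dotProduct_mulVec, ← mulVec_transpose, hN, dotProduct_comm]

lemma sumsq_eq (w : n → ℝ) : ∑ i, w i ^ 2 = w ⬝ᵥ w := by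
  simp [dotProduct, pow_two]

lemma sumsq_le_of_inv {N : Matrix n n ℝ} (hN : IsUnit N.det) (w : n → ℝ) :
    ∑ i, w i ^ 2 ≤ (∑ i, ∑ j, |((N⁻¹)ᵀ * N⁻¹) i j|) * ∑ i, (N *ᵥ w) i ^ 2 := by
  have h1 : w = N⁻¹ *ᵥ (N *ᵥ w) := by
    rw [mulVec_mulVec, nonsing_inv_mul _ hN, one_mulVec]
  set y := N *ᵥ w
  have h2 : w ⬝ᵥ w = y ⬝ᵥ (((N⁻¹)ᵀ * N⁻¹) *ᵥ y) := by
    rw [← mulVec_mulVec, dotProduct_mulVec, vecMul_transpose, ← h1]
  rw [sumsq_eq w, h2]
  exact (le_abs_self _).trans (abs_bilin_le _ _)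

/-- A non-optimal level `L` at which some `θ > 0` avoids the spectra of all limit multipliers
cannot be the limit of the objective. -/
theorem Flow.instability (F : Flow C X0 A b R Φ) (hC : C.PosDef) (hX0 : X0.PosDef)
    (hA : ∀ l, (A l)ᵀ = A l) (hKU : KK C X0 A b R ⊆ UU C X0 A)
    {L : ℝ} (hL : Tendsto (fun t => (C * XX X0 (Φ t)).trace) atTop (𝓝 L))
    {Y : Matrix n n ℝ} (hY : Feasible A b Y) {θ : ℝ} (hθ : 0 < θ)
    (hθY : (1 + θ) * (C * Y).trace < L)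
    (hdet : ∀ Ψ, MapClusterPt Ψ atTop (al Φ) →
      (MM C A b (XX X0 (of Ψ)) - θ • C).det ≠ 0) : False := by
  have hCs := symm_of_posDef hC
  have hCu : IsUnit C.det := hC.det_pos.ne'.isUnit
  have hKc := compact_K hC hX0 A b R
  have hKcl := isClosed_KK (A := A) (b := b) (R := R) hC hX0
  have hev : ∀ᶠ t in atTop, al Φ t ∈ KK C X0 A b R :=
    (eventually_ge_atTop 0).mono fun t ht => F.mem ht
  set NN : (n → n → ℝ) → Matrix n n ℝ := fun Ψ => MM C A b (XX X0 (of Ψ)) - θ • C with hNN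
  have hNNC : ∀ x ∈ UU C X0 A, CDA NN x := fun x hx =>
    (mmC hx).sub (CDA.const _ x)
  -- lower bound for the determinant
  have hddc : ContinuousOn (fun Ψ => |(NN Ψ).det|) (KK C X0 A b R) := fun x hx =>
    ((CDA.det (hNNC x (hKU hx))).continuousAt.abs).continuousWithinAt
  have hclK : ∀ Ψ, MapClusterPt Ψ atTop (al Φ) → Ψ ∈ KK C X0 A b R := fun Ψ hΨ =>
    (F.cluster hC hX0 hA hKU hL hΨ).1
  have hClc : IsCompact {Ψ | MapClusterPt Ψ atTop (al Φ)} :=
    hKc.of_isClosed_subset isClosed_setOfPred_clusterPt hclK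
  obtain ⟨c0, hc0, hcl⟩ := hClc.exists_forall_le' (a := (0 : ℝ))
    (hddc.mono hclK) (fun Ψ hΨ => abs_pos.2 (hdet Ψ hΨ))
  have hcomp1 : IsCompact {Ψ | Ψ ∈ KK C X0 A b R ∧ ¬ c0 / 2 < |(NN Ψ).det|} := by
    have h1 := hddc.preimage_isClosed_of_isClosed hKcl (isClosed_Iic (a := c0 / 2))
    refine hKc.of_isClosed_subset (t := {Ψ | Ψ ∈ KK C X0 A b R ∧ ¬ c0 / 2 < |(NN Ψ).det|}) ?_
      (fun x hx => hx.1)
    convert h1 using 1
    ext Ψ
    simp
  have hev1 := eventually_of_cluster (P := fun Ψ => c0 / 2 < |(NN Ψ).det|) hev hcomp1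
    (fun Ψ _ hΨ => by linarith [hcl Ψ hΨ])
  have hcomp2 : IsCompact (KK C X0 A b R ∩ (fun Ψ => |(NN Ψ).det|) ⁻¹' Ici (c0 / 2)) :=
    hKc.of_isClosed_subset
      (hddc.preimage_isClosed_of_isClosed hKcl (isClosed_Ici (a := c0 / 2))) inter_subset_left
  obtain ⟨Kq, hKq⟩ := hcomp2.exists_bound_of_continuousOn
    (f := fun Ψ => ∑ i, ∑ j, |(((NN Ψ)⁻¹)ᵀ * (NN Ψ)⁻¹) i j|) (by
      intro x hx
      have hd : (NN x).det ≠ 0 := by
        have h1 : c0 / 2 ≤ |(NN x).det| := hx.2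
        exact abs_pos.1 (by linarith)
      have hinv : CDA (fun Ψ => (NN Ψ)⁻¹) x := CDA.inv (hNNC x (hKU hx.1)) hd
      apply ContinuousAt.continuousWithinAt
      refine tendsto_finsetSum _ fun i _ => tendsto_finsetSum _ fun j _ => ?_
      exact ((hinv.transpose.mul hinv) i j).continuousAt.abs)
  -- the derivative of the multiplier tends to zero
  have hder : ∀ i j, ∃ (B : ℝ) (f' : ℝ → ℝ), 0 ≤ B ∧ ∀ t, 0 ≤ t →
      HasDerivAt (fun s => MM C A b (XX X0 (Φ s)) i j) (f' t) t ∧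
        |f' t| ≤ B * ‖vel C X0 A b (al Φ t)‖ := fun i j =>
    F.comp_deriv hC hX0 hKU (f := fun Ψ => MM C A b (XX X0 (of Ψ)) i j)
      (fun x hx => mmC hx i j)
  choose Bm dM hBm hdM using hder
  have hvel := (F.energy hC hX0 hA hKU).2.2
  have hdM0 : ∀ i j, Tendsto (fun t => |dM i j t|) atTop (𝓝 0) := by
    intro i j
    have h1 : Tendsto (fun t => Bm i j * ‖vel C X0 A b (al Φ t)‖) atTop (𝓝 0) := by
      simpa using hvel.const_mul (Bm i j)
    refine squeeze_zero' (Eventually.of_forall fun t => abs_nonneg _) ?_ h1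
    filter_upwards [eventually_ge_atTop (0 : ℝ)] with t ht
    exact (hdM i j t ht).2
  obtain ⟨κ, hκ0, hκ⟩ := posDef_lower hC.inv
  have hev2 : ∀ᶠ t in atTop, (∑ i, ∑ j, |dM i j t|) * Kq < κ := by
    have h1 : Tendsto (fun t => (∑ i, ∑ j, |dM i j t|) * Kq) atTop (𝓝 ((∑ i : n, ∑ j : n, (0 : ℝ)) * Kq)) :=
      (tendsto_finsetSum _ fun i _ => tendsto_finsetSum _ fun j _ => hdM0 i j).mul_const _
    have h2 : ((∑ i : n, ∑ j : n, (0 : ℝ)) * Kq) < κ := by simpa using hκ0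
    exact h1.eventually_lt_const h2
  -- the multiplier value
  have hbpC : ContinuousOn (fun Ψ : n → n → ℝ =>
      ∑ l, ((gram C A (XX X0 (of Ψ)))⁻¹ *ᵥ b) l * b l) (KK C X0 A b R) := by
    apply cont_of_CD hKU
    intro x hx
    have hinv : CDA (fun Ψ : n → n → ℝ => (gram C A (XX X0 (of Ψ)))⁻¹) x :=
      CDA.inv (CDA.gram (CDA_XX X0 x)) hx
    simp only [Matrix.mulVec, dotProduct]
    exact ContDiffAt.sum fun l _ => (ContDiffAt.sum fun k _ =>
      (hinv l k).mul contDiffAt_const).mul contDiffAt_const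
  have hcomp3 : IsCompact {Ψ | Ψ ∈ KK C X0 A b R ∧ ¬ (1 + θ) * (C * Y).trace <
      ∑ l, ((gram C A (XX X0 (of Ψ)))⁻¹ *ᵥ b) l * b l} := by
    have h1 := hbpC.preimage_isClosed_of_isClosed hKcl
      (isClosed_Iic (a := (1 + θ) * (C * Y).trace))
    refine hKc.of_isClosed_subset (t := {Ψ | Ψ ∈ KK C X0 A b R ∧ ¬ (1 + θ) * (C * Y).trace <
      ∑ l, ((gram C A (XX X0 (of Ψ)))⁻¹ *ᵥ b) l * b l}) ?_ (fun x hx => hx.1)
    convert h1 using 1
    ext Ψ
    simp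
  have hev3 := eventually_of_cluster (P := fun Ψ => (1 + θ) * (C * Y).trace <
      ∑ l, ((gram C A (XX X0 (of Ψ)))⁻¹ *ᵥ b) l * b l) hev hcomp3
    (fun Ψ _ hΨ => by
      obtain ⟨_, h2, h3, h4⟩ := F.cluster hC hX0 hA hKU hL hΨ
      rw [bp_eq h2 h4, h3]
      exact hθY)
  obtain ⟨T, hT⟩ := ((hev1.and (hev2.and hev3)).and (eventually_ge_atTop 0)).exists_forall_of_atTop
  have hT0 : 0 ≤ T := (hT T le_rfl).2
  -- a direction of growth
  set Nt : ℝ → Matrix n n ℝ := fun t => MM C A b (XX X0 (Φ t)) - θ • C with hNt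
  have hNts : ∀ t, (Nt t)ᵀ = Nt t := by
    intro t
    rw [hNt]
    simp only [transpose_sub, transpose_smul, hCs, MM_symm hCs hA]
  obtain ⟨v, hv⟩ : ∃ v : n → ℝ, 0 < v ⬝ᵥ (Nt T *ᵥ v) := by
    by_contra hcon
    push Not at hcon
    have hneg : (-(Nt T)).PosSemidef := by
      refine Matrix.PosSemidef.of_dotProduct_mulVec_nonneg ?_ fun x => ?_
      · rw [IsHermitian, conjTranspose_eq_transpose_of_trivial, transpose_neg, hNts]
      · rw [neg_mulVec, dotProduct_neg, star_trivial]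
        linarith [hcon x]
    have h1 := trace_mul_nonneg hneg hY.1
    have h2 : (-(Nt T) * Y).trace = (1 + θ) * (C * Y).trace -
        ∑ l, ((gram C A (XX X0 (of (al Φ T))))⁻¹ *ᵥ b) l * b l := by
      rw [hNt]
      simp only [MM, of_al]
      rw [neg_mul, trace_neg, sub_mul, sub_mul, trace_sub, trace_sub, trace_comb_mul,
        smul_mul_assoc, trace_smul, smul_eq_mul]
      simp only [hY.2]
      ring
    rw [h2] at h1
    linarith [(hT T le_rfl).1.2.2]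
  set c : n → ℝ := (Φ T)⁻¹ *ᵥ v with hc
  set w : ℝ → n → ℝ := fun t => Φ t *ᵥ c with hw
  have hwT : w T = v := by
    simp only [hw, hc]
    rw [mulVec_mulVec, mul_nonsing_inv _ (F.unit T hT0), one_mulVec]
  set w' : ℝ → n → ℝ := fun t => (1 / 2 : ℝ) • (C⁻¹ *ᵥ (MM C A b (XX X0 (Φ t)) *ᵥ w t)) with hw'
  have hwd : ∀ t, 0 ≤ t → ∀ i, HasDerivAt (fun s => w s i) (w' t i) t := by
    intro t ht i
    have h1 := (F.der t ht).mulVec c i
    convert h1 using 1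
    simp only [hw', hw]
    rw [smul_mulVec, mulVec_mulVec, mulVec_mulVec, Matrix.mul_assoc]
  set N' : ℝ → Matrix n n ℝ := fun t => of fun i j => dM i j t with hN'
  set q : ℝ → ℝ := fun t => w t ⬝ᵥ (Nt t *ᵥ w t) with hq
  have hqd : ∀ t, 0 ≤ t → HasDerivAt q
      (w' t ⬝ᵥ (Nt t *ᵥ w t) + w t ⬝ᵥ (N' t *ᵥ w t) + w t ⬝ᵥ (Nt t *ᵥ w' t)) t := by
    intro t ht
    have hNd : ∀ i j, HasDerivAt (fun s => Nt s i j) (N' t i j) t := by
      intro i j
      exact (hdM i j t ht).1.sub_const _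
    have h1 : HasDerivAt q (∑ i, (w' t i * ∑ j, Nt t i j * w t j
        + w t i * ∑ j, (N' t i j * w t j + Nt t i j * w' t j))) t := by
      simp only [hq, dotProduct, Matrix.mulVec]
      exact HasDerivAt.fun_sum fun i _ => (hwd t ht i).mul
        (HasDerivAt.fun_sum fun j _ => (hNd i j).mul (hwd t ht j))
    convert h1 using 1
    simp only [dotProduct, Matrix.mulVec, Finset.sum_add_distrib, mul_add]
    ring
  have hqineq : ∀ t, T ≤ t → θ * q t ≤
      w' t ⬝ᵥ (Nt t *ᵥ w t) + w t ⬝ᵥ (N' t *ᵥ w t) + w t ⬝ᵥ (Nt t *ᵥ w' t) := by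
    intro t ht
    obtain ⟨⟨e1, e2, _⟩, ht0⟩ := hT t ht
    rw [symm_dot (hNts t) (w t) (w' t)]
    set y := Nt t *ᵥ w t with hy
    have h1 : w' t = (1 / 2 : ℝ) • (C⁻¹ *ᵥ y + θ • w t) := by
      simp only [hw', hy, hNt]
      congr 1
      rw [sub_mulVec, mulVec_sub, smul_mulVec, mulVec_smul, mulVec_mulVec _ C⁻¹ C,
        nonsing_inv_mul C hCu, one_mulVec]
      abel
    have h2 : w' t ⬝ᵥ y + w' t ⬝ᵥ y = y ⬝ᵥ (C⁻¹ *ᵥ y) + θ * q t := by
      rw [h1, smul_dotProduct, add_dotProduct, smul_dotProduct, smul_eq_mul, smul_eq_mul,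
        dotProduct_comm (C⁻¹ *ᵥ y) y]
      simp only [hq]
      ring
    have h3 := hκ y
    have hNdet : |(Nt t).det| = |(NN (al Φ t)).det| := rfl
    have hu : IsUnit (Nt t).det := by
      rw [isUnit_iff_ne_zero, ← abs_pos, hNdet]
      linarith
    have h4 := sumsq_le_of_inv hu (w t)
    rw [← hy] at h4
    have h5 : (∑ i, ∑ j, |(((Nt t)⁻¹)ᵀ * (Nt t)⁻¹) i j|) ≤ Kq := by
      have h6 := hKq (al Φ t) ⟨F.mem ht0, e1.le⟩
      exact le_trans (le_abs_self _) h6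
    have h7 := (abs_le.1 (abs_bilin_le (N' t) (w t))).1
    have h8 : (∑ i, ∑ j, |N' t i j|) = ∑ i, ∑ j, |dM i j t| := rfl
    have hS : 0 ≤ ∑ i, ∑ j, |dM i j t| :=
      Finset.sum_nonneg fun i _ => Finset.sum_nonneg fun j _ => abs_nonneg _
    have hy2 : 0 ≤ ∑ i, y i ^ 2 := Finset.sum_nonneg fun i _ => sq_nonneg _
    have h9 : (∑ i, ∑ j, |N' t i j|) * ∑ i, w t i ^ 2 ≤ κ * ∑ i, y i ^ 2 := by
      rw [h8]
      calc (∑ i, ∑ j, |dM i j t|) * ∑ i, w t i ^ 2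
          ≤ (∑ i, ∑ j, |dM i j t|) * (Kq * ∑ i, y i ^ 2) :=
            mul_le_mul_of_nonneg_left (h4.trans (mul_le_mul_of_nonneg_right h5 hy2)) hS
        _ = ((∑ i, ∑ j, |dM i j t|) * Kq) * ∑ i, y i ^ 2 := by ring
        _ ≤ κ * ∑ i, y i ^ 2 := mul_le_mul_of_nonneg_right e2.le hy2
    linarith
  -- exponential growth
  have hgrow : ∀ s, T ≤ s → q T ≤ q s * Real.exp (-θ * (s - T)) := by
    intro s hs
    have hd : ∀ u, 0 ≤ u → HasDerivAt (fun u => -(q u * Real.exp (-θ * (u - T))))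
        (-((w' u ⬝ᵥ (Nt u *ᵥ w u) + w u ⬝ᵥ (N' u *ᵥ w u) + w u ⬝ᵥ (Nt u *ᵥ w' u)) *
          Real.exp (-θ * (u - T)) + q u * (Real.exp (-θ * (u - T)) * (-θ)))) u := by
      intro u hu
      have h1 : HasDerivAt (fun u => Real.exp (-θ * (u - T)))
          (Real.exp (-θ * (u - T)) * (-θ)) u := by
        have := (((hasDerivAt_id u).sub_const T).const_mul (-θ)).exp
        simpa using this
      exact ((hqd u hu).fun_mul h1).fun_neg
    have h2 := le_add_of_deriv_le (c := 0) hT0 hs hd (fun u hu => by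
      have h3 := hqineq u hu.1
      have h4 := Real.exp_pos (-θ * (u - T))
      nlinarith)
    simp only [sub_self, mul_zero, Real.exp_zero, mul_one, zero_mul, add_zero] at h2
    linarith
  obtain ⟨Bq, hBq⟩ := bound_KK (A := A) (b := b) (R := R) hC hX0
    (f := fun Ψ => (of Ψ *ᵥ c) ⬝ᵥ (NN Ψ *ᵥ (of Ψ *ᵥ c)))
    (cont_of_CD hKU fun x hx => by
      have hof := CDA_of x
      have hN := hNNC x hx
      simp only [dotProduct, Matrix.mulVec]
      exact ContDiffAt.sum fun i _ => (ContDiffAt.sum fun k _ =>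
        (hof i k).mul contDiffAt_const).mul (ContDiffAt.sum fun j _ =>
          (hN i j).mul (ContDiffAt.sum fun k _ => (hof j k).mul contDiffAt_const)))
  have hlim : Tendsto (fun s => Bq * Real.exp (-θ * (s - T))) atTop (𝓝 0) := by
    have h1 : Tendsto (fun s : ℝ => θ * (s - T)) atTop atTop :=
      (tendsto_atTop_add_const_right _ (-T) tendsto_id).const_mul_atTop hθ
    have h2 := (Real.tendsto_exp_neg_atTop_nhds_zero.comp h1).const_mul Bq
    rw [mul_zero] at h2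
    refine h2.congr fun s => ?_
    simp only [Function.comp]
    rw [neg_mul]
  have hfin : q T ≤ 0 := by
    refine ge_of_tendsto hlim ?_
    filter_upwards [eventually_ge_atTop T] with s hs
    have h1 := hgrow s hs
    have h2 := (le_abs_self _).trans (hBq (al Φ s) (F.mem (hT0.trans hs)))
    have h3 := Real.exp_pos (-θ * (s - T))
    have h4 : q s ≤ Bq := h2
    nlinarith
  have hqT : q T = v ⬝ᵥ (Nt T *ᵥ v) := by simp only [hq, hwT]
  linarith

end Pool.Agent.PhysND
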