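import Pool.Agent.Lib.MP_e757b3_an.Mono

/-!
# Kurdyka-Lojasiewicz type convergence theorem
-/

namespace Pool.Agent.PhysND

open Set Filter Topology

set_option linter.unusedSectionVars false

/-- local-to-global for increments -/
lemma increment_le {E : Type*} [NormedAddCommGroup E] {u : ℝ → E} {G : ℝ → ℝ} {κ t1 t2 : ℝ}
    (hκ : 0 ≤ κ) (h12 : t1 ≤ t2) (hu : ContinuousOn u (Icc t1 t2)) (hG : AntitoneOn G (Icc t1 t2))
    (hloc : ∀ t ∈ Ico t1 t2, ∀ᶠ t' in 𝓝[>] t, ‖u t' - u t‖ ≤ κ * (G t - G t')) :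
    ‖u t2 - u t1‖ ≤ κ * (G t1 - G t2) := by
  set S : Set ℝ := {t | t ∈ Icc t1 t2 ∧ ‖u t - u t1‖ ≤ κ * (G t1 - G t)} with hS
  have h1S : t1 ∈ S := ⟨⟨le_rfl, h12⟩, by simp⟩
  have hbdd : BddAbove S := ⟨t2, fun t ht => ht.1.2⟩
  set c := sSup S with hc
  have h1c : t1 ≤ c := le_csSup hbdd h1S
  have hc2 : c ≤ t2 := csSup_le ⟨t1, h1S⟩ fun t ht => ht.1.2
  have hcI : c ∈ Icc t1 t2 := ⟨h1c, hc2⟩
  have hcS : c ∈ S := by
    refine ⟨hcI, ?_⟩
    have hcl : IsClosed (Icc t1 t2 ∩ (fun t => ‖u t - u t1‖) ⁻¹' Iic (κ * (G t1 - G c))) :=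
      (hu.sub continuousOn_const).norm.preimage_isClosed_of_isClosed isClosed_Icc isClosed_Iic
    have hsub : S ⊆ Icc t1 t2 ∩ (fun t => ‖u t - u t1‖) ⁻¹' Iic (κ * (G t1 - G c)) := by
      intro t ht
      refine ⟨ht.1, ?_⟩
      have h1 : G c ≤ G t := hG ht.1 hcI (le_csSup hbdd ht)
      have h2 : κ * (G t1 - G t) ≤ κ * (G t1 - G c) :=
        mul_le_mul_of_nonneg_left (by linarith) hκ
      exact ht.2.trans h2
    exact (hcl.closure_subset_iff.2 hsub (csSup_mem_closure ⟨t1, h1S⟩ hbdd)).2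
  rcases eq_or_lt_of_le hc2 with h1 | h1
  · rw [← h1]
    exact hcS.2
  · exfalso
    obtain ⟨t', h2, h3⟩ := ((hloc c ⟨h1c, h1⟩).and (Ioo_mem_nhdsGT h1)).exists
    have h4 : t' ∈ S := by
      refine ⟨⟨h1c.trans h3.1.le, h3.2.le⟩, ?_⟩
      calc ‖u t' - u t1‖ = ‖(u t' - u c) + (u c - u t1)‖ := by rw [sub_add_sub_cancel]
        _ ≤ ‖u t' - u c‖ + ‖u c - u t1‖ := norm_add_le _ _
        _ ≤ κ * (G c - G t') + κ * (G t1 - G c) := add_le_add h2 hcS.2
        _ = κ * (G t1 - G t') := by ring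
    exact absurd (le_csSup hbdd h4) (not_le.2 h3.1)

lemma cauchy_of_increment {E : Type*} [NormedAddCommGroup E] [CompleteSpace E] {u : ℝ → E}
    {G : ℝ → ℝ} {κ t0 : ℝ} (hκ : 0 < κ) (hbdd : BddBelow (G '' Ici t0))
    (h : ∀ t1 t2, t0 ≤ t1 → t1 ≤ t2 → ‖u t2 - u t1‖ ≤ κ * (G t1 - G t2)) :
    ∃ v, Tendsto u atTop (𝓝 v) := by
  apply cauchySeq_tendsto_of_complete
  rw [Metric.cauchySeq_iff']
  intro η hη
  have hne : (G '' Ici t0).Nonempty := ⟨_, t0, self_mem_Ici, rfl⟩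
  obtain ⟨_, ⟨T, hT, rfl⟩, hlt⟩ := exists_lt_of_csInf_lt hne
    (show sInf (G '' Ici t0) < sInf (G '' Ici t0) + η / κ by
      have := div_pos hη hκ
      linarith)
  refine ⟨T, fun t ht => ?_⟩
  rw [dist_eq_norm]
  have h1 := h T t hT ht
  have h2 : sInf (G '' Ici t0) ≤ G t := csInf_le hbdd ⟨t, le_trans (show t0 ≤ T from hT) ht, rfl⟩
  have h3 : κ * (G T - G t) < η := by
    have h4 : G T - G t < η / κ := by linarith
    calc κ * (G T - G t) < κ * (η / κ) := mul_lt_mul_of_pos_left h4 hκ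
      _ = η := mul_div_cancel₀ _ hκ.ne'
  exact h1.trans_lt h3

theorem kl_converge {ι : Type} [Fintype ι] {K : (ι → ℝ) → Prop} (hKS : SS K)
    (hKc : IsCompact {z | K z}) {f Θ : (ι → ℝ) → ℝ} (hf : PF' f) (hΘ : PF' Θ)
    {lam Cq : ℝ} (hlam : 0 < lam) (hCq : 0 < Cq)
    (hloc : ∀ z z', K z → K z' →
      |f z' - f z| ≤ lam * √(Θ z) * ‖z' - z‖ + Cq * ‖z' - z‖ ^ 2)
    {y : ℝ → ι → ℝ} (hyK : ∀ t, 0 ≤ t → K (y t))
    {E : Type*} [NormedAddCommGroup E] [NormedSpace ℝ E] [CompleteSpace E]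
    {u u' : ℝ → E} {e' : ℝ → ℝ} (hu : ∀ t, 0 ≤ t → HasDerivAt u (u' t) t)
    (hu' : ∀ t, 0 ≤ t → ‖u' t‖ ≤ lam * √(Θ (y t)))
    (he : ∀ t, 0 ≤ t → HasDerivAt (fun t => f (y t)) (e' t) t)
    (he' : ∀ t, 0 ≤ t → e' t ≤ - Θ (y t)) (hpos : ∀ t, 0 ≤ t → 0 < Θ (y t)) :
    ∃ v, Tendsto u atTop (𝓝 v) := by
  classical
  have hfc : Continuous f := by
    obtain ⟨P, hP⟩ := hf
    have : f = fun x => MvPolynomial.eval x P := funext hP
    rw [this]
    exact MvPolynomial.continuous_eval P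
  have hΘc : Continuous Θ := by
    obtain ⟨P, hP⟩ := hΘ
    have : Θ = fun x => MvPolynomial.eval x P := funext hP
    rw [this]
    exact MvPolynomial.continuous_eval P
  set e : ℝ → ℝ := fun t => f (y t) with hedef
  have hec : ContinuousOn e (Ici 0) := fun t ht => (he t ht).continuousAt.continuousWithinAt
  have hanti : StrictAntiOn e (Ici 0) := by
    apply strictAntiOn_of_deriv_neg (convex_Ici 0) hec
    intro t ht
    rw [interior_Ici] at ht
    rw [(he t (le_of_lt ht)).deriv]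
    have h1 := he' t (le_of_lt ht)
    have h2 := hpos t (le_of_lt ht)
    linarith
  -- lower bound
  obtain ⟨m0, hm0⟩ : BddBelow (e '' Ici 0) := by
    obtain ⟨z0, _, hz0⟩ := hKc.exists_isMinOn ⟨y 0, hyK 0 le_rfl⟩ hfc.continuousOn
    refine ⟨f z0, ?_⟩
    rintro _ ⟨t, ht, rfl⟩
    exact hz0 (hyK t ht)
  have hne : (e '' Ici 0).Nonempty := ⟨_, 0, self_mem_Ici, rfl⟩
  set L := sInf (e '' Ici 0) with hL
  have hLle : ∀ t, 0 ≤ t → L ≤ e t := fun t ht => csInf_le ⟨m0, hm0⟩ ⟨t, ht, rfl⟩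
  have hLlt : ∀ t, 0 ≤ t → L < e t := fun t ht =>
    (hLle (t + 1) (by linarith)).trans_lt
      (hanti (show t ∈ Ici (0 : ℝ) from ht) (show t + 1 ∈ Ici (0 : ℝ) by
        show (0 : ℝ) ≤ t + 1
        linarith) (by linarith))
  have hLex : ∀ η > 0, ∃ t, 0 ≤ t ∧ e t < L + η := by
    intro η hη
    obtain ⟨_, ⟨t, ht, rfl⟩, hlt⟩ := exists_lt_of_csInf_lt hne
      (show L < L + η by linarith)
    exact ⟨t, ht, hlt⟩
  set ε0 : ℝ := e 0 - L with hε0
  have hε0pos : 0 < ε0 := by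
    have := hLlt 0 le_rfl
    linarith
  -- the family of minimisers
  set W : (Unit ⊕ ι → ℝ) → Prop := fun w => K (fun i => w (Sum.inr i)) ∧
    f (fun i => w (Sum.inr i)) = L + w (Sum.inl ()) ∧
    ∀ z' : ι → ℝ, (K z' ∧ f z' = L + w (Sum.inl ())) → Θ (fun i => w (Sum.inr i)) ≤ Θ z' with hW
  have hWS : SS W := by
    refine SS.and (SS.comap hKS fun k => PF'.coord _) (SS.and (SS.eq
      (PF'.comp hf fun k => PF'.coord _) ((PF'.const L).add (PF'.coord _))) ?_)
    apply SS.allV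
    refine SS.imp (SS.and (SS.comap hKS fun k => PF'.coord _) (SS.eq
      (PF'.comp hf fun k => PF'.coord _) ((PF'.const L).add (PF'.coord _)))) ?_
    exact SS.le (PF'.comp hΘ fun k => PF'.coord _) (PF'.comp hΘ fun k => PF'.coord _)
  have hKr : ∀ r, IsCompact {z | K z ∧ f z = L + r} := fun r =>
    hKc.inter_right (isClosed_eq hfc continuous_const)
  have hKrne : ∀ r ∈ Ioo 0 ε0, {z | K z ∧ f z = L + r}.Nonempty := by
    intro r hr
    obtain ⟨T, hT, hlt⟩ := hLex r hr.1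
    have h1 : ContinuousOn e (Icc 0 T) := hec.mono fun t ht => ht.1
    obtain ⟨t, ht, hteq⟩ := intermediate_value_Icc' hT h1
      (show L + r ∈ Icc (e T) (e 0) from ⟨hlt.le, by
        have := hr.2
        rw [hε0] at this
        linarith⟩)
    exact ⟨y t, hyK t ht.1, hteq⟩
  have hmin : ∀ r ∈ Ioo 0 ε0, ∃ z, (K z ∧ f z = L + r) ∧
      ∀ z', (K z' ∧ f z' = L + r) → Θ z ≤ Θ z' := by
    intro r hr
    obtain ⟨z, hz, hzm⟩ := (hKr r).exists_isMinOn (hKrne r hr) hΘc.continuousOn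
    exact ⟨z, hz, fun z' hz' => hzm hz'⟩
  obtain ⟨x, e1, he10, he1, hx, hxm⟩ := select hWS hε0pos
    (fun r hr => by
      obtain ⟨z, hz, hz'⟩ := hmin r hr
      exact ⟨z, hz.1, hz.2, hz'⟩)
    (fun r hr => by
      obtain ⟨z0, hz0, hz0'⟩ := hmin r hr
      have : {z : ι → ℝ | W (Sum.elim (fun _ => r) z)} =
          {z | K z ∧ f z = L + r} ∩ {z | Θ z ≤ Θ z0} := by
        ext z
        constructor
        · rintro ⟨h1, h2, h3⟩
          exact ⟨⟨h1, h2⟩, h3 z0 hz0⟩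
        · rintro ⟨⟨h1, h2⟩, h3⟩
          exact ⟨h1, h2, fun z' hz' => le_trans h3 (hz0' z' hz')⟩
      rw [this]
      exact (hKr r).inter_right (isClosed_le hΘc continuous_const))
  have hx1 : ∀ r ∈ Ioo 0 e1, K (x r) := fun r hr => (hx r hr).1
  have hx2 : ∀ r ∈ Ioo 0 e1, f (x r) = L + r := fun r hr => (hx r hr).2.1
  have hx3 : ∀ r ∈ Ioo 0 e1, ∀ z', K z' → f z' = L + r → Θ (x r) ≤ Θ z' :=
    fun r hr z' h1 h2 => (hx r hr).2.2 z' ⟨h1, h2⟩
  -- the monotone function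
  set sg : ι → ℝ := fun i => if MonotoneOn (fun r => x r i) (Ioo 0 e1) then 1 else -1 with hsg
  have hsgm : ∀ i, ∀ r ∈ Ioo 0 e1, ∀ r' ∈ Ioo 0 e1, r' ≤ r →
      |x r i - x r' i| = sg i * x r i - sg i * x r' i := by
    intro i r hr r' hr' hle
    by_cases h1 : MonotoneOn (fun r => x r i) (Ioo 0 e1)
    · have h2 : sg i = 1 := by simp only [hsg, h1, if_true]
      have h3 : x r' i ≤ x r i := h1 hr' hr hle
      rw [h2, abs_of_nonneg (by linarith)]
      ring
    · have h2 : sg i = -1 := by simp only [hsg, h1, if_false]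
      have h3 : x r i ≤ x r' i := (hxm i).resolve_left h1 hr' hr hle
      rw [h2, abs_of_nonpos (by linarith)]
      ring
  have hsg1 : ∀ i, |sg i| = 1 := by
    intro i
    simp only [hsg]
    split_ifs <;> simp
  set ψ : ℝ → ℝ := fun r => ∑ i, sg i * x r i with hψ
  have hψd : ∀ r ∈ Ioo 0 e1, ∀ r' ∈ Ioo 0 e1, r' ≤ r → ‖x r' - x r‖ ≤ ψ r - ψ r' := by
    intro r hr r' hr' hle
    have h1 : ψ r - ψ r' = ∑ i, |x r i - x r' i| := by
      simp only [hψ]
      rw [← Finset.sum_sub_distrib]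
      exact Finset.sum_congr rfl fun i _ => (hsgm i r hr r' hr' hle).symm
    rw [h1, pi_norm_le_iff_of_nonneg (Finset.sum_nonneg fun i _ => abs_nonneg _)]
    intro i
    rw [Pi.sub_apply, norm_sub_rev, Real.norm_eq_abs]
    exact Finset.single_le_sum (f := fun i => |x r i - x r' i|) (fun i _ => abs_nonneg _)
      (Finset.mem_univ i)
  obtain ⟨B, hB⟩ := hKc.isBounded.exists_norm_le
  have hψb : ∀ r ∈ Ioo 0 e1, -(∑ _i : ι, B) ≤ ψ r := by
    intro r hr
    simp only [hψ]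
    rw [← Finset.sum_neg_distrib]
    refine Finset.sum_le_sum fun i _ => ?_
    have h1 : |sg i * x r i| ≤ B := by
      rw [abs_mul, hsg1, one_mul]
      exact (norm_le_pi_norm (x r) i).trans (hB _ (hx1 r hr))
    exact (abs_le.1 h1).1
  -- late times
  obtain ⟨t0, ht0, hlt0⟩ := hLex e1 he10
  have hr : ∀ t, t0 ≤ t → e t - L ∈ Ioo 0 e1 := by
    intro t ht
    have h0 : 0 ≤ t := ht0.trans ht
    have h1 := hLlt t h0
    have h2 : e t ≤ e t0 := hanti.antitoneOn (show t0 ∈ Ici (0 : ℝ) from ht0)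
      (show t ∈ Ici (0 : ℝ) from h0) ht
    exact ⟨by linarith, by linarith⟩
  set G : ℝ → ℝ := fun t => ψ (e t - L) with hG
  have hGanti : AntitoneOn G (Ici t0) := by
    intro a ha b hb hab
    have ha' : t0 ≤ a := ha
    have hb' : t0 ≤ b := hb
    have h1 : e b ≤ e a := hanti.antitoneOn (show a ∈ Ici (0 : ℝ) from ht0.trans ha')
      (show b ∈ Ici (0 : ℝ) from ht0.trans hb') hab
    have h2 := hψd _ (hr a ha') _ (hr b hb') (by linarith)
    have h3 := norm_nonneg (x (e b - L) - x (e a - L))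
    simp only [hG]
    linarith
  set κ : ℝ := 4 * lam * (lam + 1) + 1 with hκ
  have hκ0 : 0 < κ := by positivity
  have hlocal : ∀ t, t0 ≤ t → ∀ᶠ t' in 𝓝[>] t, ‖u t' - u t‖ ≤ κ * (G t - G t') := by
    intro t ht
    have h0 : 0 ≤ t := ht0.trans ht
    set A : ℝ := √(Θ (y t)) with hA
    have hA0 : 0 < A := Real.sqrt_pos.2 (hpos t h0)
    have hAsq : A * A = Θ (y t) := Real.mul_self_sqrt (hpos t h0).le
    -- (i)
    have h1 : ∀ᶠ t' in 𝓝[>] t, ‖u t' - u t‖ ≤ 2 * lam * A * (t' - t) := by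
      have h2 := (hu t h0).isLittleO
      have h3 := (h2.def (show 0 < lam * A by positivity)).filter_mono
        (nhdsWithin_le_nhds (s := Ioi t))
      filter_upwards [h3, self_mem_nhdsWithin] with t' h4 h5
      have h6 : 0 < t' - t := sub_pos.2 h5
      have h7 : ‖t' - t‖ = t' - t := by rw [Real.norm_eq_abs, abs_of_pos h6]
      rw [h7] at h4
      calc ‖u t' - u t‖ = ‖(u t' - u t - (t' - t) • u' t) + (t' - t) • u' t‖ := by
            rw [sub_add_cancel]
        _ ≤ ‖u t' - u t - (t' - t) • u' t‖ + ‖(t' - t) • u' t‖ := norm_add_le _ _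
        _ ≤ lam * A * (t' - t) + (t' - t) * (lam * A) := by
            refine add_le_add h4 ?_
            rw [norm_smul, h7]
            exact mul_le_mul_of_nonneg_left (hu' t h0) h6.le
        _ = 2 * lam * A * (t' - t) := by ring
    -- (ii)
    have h2 : ∀ᶠ t' in 𝓝[>] t, Θ (y t) / 2 * (t' - t) ≤ e t - e t' := by
      have h2 := (he t h0).isLittleO
      have h3 := (h2.def (show 0 < Θ (y t) / 2 by
        have := hpos t h0
        positivity)).filter_mono (nhdsWithin_le_nhds (s := Ioi t))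
      filter_upwards [h3, self_mem_nhdsWithin] with t' h4 h5
      have h6 : 0 < t' - t := sub_pos.2 h5
      have h7 : ‖t' - t‖ = t' - t := by rw [Real.norm_eq_abs, abs_of_pos h6]
      rw [h7, Real.norm_eq_abs, smul_eq_mul] at h4
      have h8 := (abs_le.1 h4).2
      have h9 : (t' - t) * e' t ≤ (t' - t) * (- Θ (y t)) :=
        mul_le_mul_of_nonneg_left (he' t h0) h6.le
      simp only [hedef] at h8 ⊢
      nlinarith
    -- (iii) short time
    have h3 : ∀ᶠ t' in 𝓝[>] t, t' - t < 1 / (2 * lam * Cq) := by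
      have h4 : (0 : ℝ) < 1 / (2 * lam * Cq) := by positivity
      filter_upwards [Ioo_mem_nhdsGT (show t < t + 1 / (2 * lam * Cq) by linarith)] with t' ht'
      linarith [ht'.2]
    filter_upwards [h1, h2, h3, self_mem_nhdsWithin] with t' h4 h5 h6 h7
    have h7' : t < t' := h7
    have hrt := hr t ht
    have hrt' := hr t' (ht.trans h7'.le)
    have hle : e t' - L ≤ e t - L := by
      have : e t' ≤ e t := hanti.antitoneOn (show t ∈ Ici (0 : ℝ) from h0)
        (show t' ∈ Ici (0 : ℝ) from h0.trans h7'.le) h7'.le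
      linarith
    set Δ : ℝ := G t - G t' with hΔ
    have hδ : ‖x (e t' - L) - x (e t - L)‖ ≤ Δ := hψd _ hrt _ hrt' hle
    have hΔ0 : 0 ≤ Δ := (norm_nonneg _).trans hδ
    have h8 : √(Θ (x (e t - L))) ≤ A := by
      apply Real.sqrt_le_sqrt
      exact hx3 _ hrt _ (hyK t h0) (by ring)
    have h9 : e t - e t' ≤ lam * A * Δ + Cq * Δ ^ 2 := by
      have h10 := hloc (x (e t - L)) (x (e t' - L)) (hx1 _ hrt) (hx1 _ hrt')
      rw [hx2 _ hrt, hx2 _ hrt'] at h10
      have h11 : |L + (e t' - L) - (L + (e t - L))| = e t - e t' := by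
        rw [abs_of_nonpos (by linarith)]
        ring
      rw [h11] at h10
      have hn := norm_nonneg (x (e t' - L) - x (e t - L))
      have h12 : lam * √(Θ (x (e t - L))) * ‖x (e t' - L) - x (e t - L)‖ ≤ lam * A * Δ := by
        apply mul_le_mul (mul_le_mul_of_nonneg_left h8 hlam.le) hδ hn
        positivity
      have h13 : ‖x (e t' - L) - x (e t - L)‖ ^ 2 ≤ Δ ^ 2 := pow_le_pow_left₀ hn hδ 2
      have h14 := mul_le_mul_of_nonneg_left h13 hCq.le
      linarith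
    by_cases hcase : Cq * Δ ≤ A
    · have h10 : Cq * Δ ^ 2 ≤ A * Δ := by
        have := mul_le_mul_of_nonneg_right hcase hΔ0
        nlinarith
      have h11 : A * A / 2 * (t' - t) ≤ (lam + 1) * (A * Δ) := by
        rw [hAsq]
        linarith
      have h12 : A * (t' - t) ≤ 2 * (lam + 1) * Δ := by
        have h13 : A * (A * (t' - t)) ≤ A * (2 * (lam + 1) * Δ) := by nlinarith
        exact le_of_mul_le_mul_left h13 hA0
      calc ‖u t' - u t‖ ≤ 2 * lam * A * (t' - t) := h4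
        _ = 2 * lam * (A * (t' - t)) := by ring
        _ ≤ 2 * lam * (2 * (lam + 1) * Δ) := mul_le_mul_of_nonneg_left h12 (by positivity)
        _ ≤ κ * Δ := by
            rw [hκ]
            nlinarith
    · push Not at hcase
      have h10 : 2 * lam * A * (t' - t) ≤ A / Cq := by
        have h11 : 2 * lam * A * (t' - t) ≤ 2 * lam * A * (1 / (2 * lam * Cq)) :=
          mul_le_mul_of_nonneg_left h6.le (by positivity)
        have h12 : 2 * lam * A * (1 / (2 * lam * Cq)) = A / Cq := by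
          field_simp
        linarith
      have h11 : A / Cq ≤ Δ := by
        rw [div_le_iff₀ hCq]
        linarith [mul_comm Cq Δ]
      have h12 : (1 : ℝ) ≤ κ := by
        rw [hκ]
        have : 0 < 4 * lam * (lam + 1) := by positivity
        linarith
      nlinarith
  apply cauchy_of_increment (G := G) (t0 := t0) hκ0
  · refine ⟨-(∑ _i : ι, B), ?_⟩
    rintro _ ⟨t, ht, rfl⟩
    exact hψb _ (hr t ht)
  · intro t1 t2 h1 h2
    refine increment_le hκ0.le h2 ?_ ?_ ?_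
    · exact fun t ht => (hu t (ht0.trans (h1.trans ht.1))).continuousAt.continuousWithinAt
    · exact hGanti.mono fun t ht => h1.trans ht.1
    · exact fun t ht => hlocal t (h1.trans ht.1)

end Pool.Agent.PhysND
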