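import Pool.Agent.Lib.MP_e757b3_an.Flow
import Pool.Agent.Lib.MP_e757b3_an.Barb

/-!
# Asymptotics of the flow: energy, velocity, cluster points
-/

namespace Pool.Agent.PhysND

open Matrix Set Filter Topology

set_option linter.unusedSectionVars false

variable {n m : Type} [Fintype n] [DecidableEq n] [Fintype m] [DecidableEq m]

/-- A global trajectory in factored form. -/
structure Flow (C X0 : Matrix n n ℝ) (A : m → Matrix n n ℝ) (b : m → ℝ) (R : ℝ)
    (Φ : ℝ → Matrix n n ℝ) : Prop where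
  init : Φ 0 = 1
  unit : ∀ t, 0 ≤ t → IsUnit (Φ t).det
  der : ∀ t, 0 ≤ t → HD Φ ((1 / 2 : ℝ) • (C⁻¹ * MM C A b (XX X0 (Φ t)) * Φ t)) t
  lin : ∀ t, 0 ≤ t → ∀ l, (A l * XX X0 (Φ t)).trace
    = b l + Real.exp (-t) * ((A l * X0).trace - b l)
  bdd : ∀ t, 0 ≤ t → (C * XX X0 (Φ t)).trace ≤ R

/-- the compact set containing the factors -/
def KK (C X0 : Matrix n n ℝ) (A : m → Matrix n n ℝ) (b : m → ℝ) (R : ℝ) : Set (n → n → ℝ) :=
  {Φ : n → n → ℝ | OnSeg A b X0 (XX X0 (of Φ)) ∧ (C * XX X0 (of Φ)).trace ≤ R}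

/-- the open set on which the field is smooth -/
def UU (C X0 : Matrix n n ℝ) (A : m → Matrix n n ℝ) : Set (n → n → ℝ) :=
  {Φ : n → n → ℝ | (gram C A (XX X0 (of Φ))).det ≠ 0}

/-- the curve of factors as a curve in `n → n → ℝ` -/
def al (Φ : ℝ → Matrix n n ℝ) : ℝ → n → n → ℝ := fun t i j => Φ t i j

lemma of_al (Φ : ℝ → Matrix n n ℝ) (t : ℝ) : (of (al Φ t) : Matrix n n ℝ) = Φ t := rfl

/-- the velocity -/
noncomputable def vel (C X0 : Matrix n n ℝ) (A : m → Matrix n n ℝ) (b : m → ℝ)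
    (Ψ : n → n → ℝ) : n → n → ℝ :=
  fun i j => ((1 / 2 : ℝ) • (C⁻¹ * MM C A b (XX X0 (of Ψ)) * of Ψ)) i j

section

variable {C X0 : Matrix n n ℝ} {A : m → Matrix n n ℝ} {b : m → ℝ} {R : ℝ}
  {Φ : ℝ → Matrix n n ℝ}

lemma mmC {x : n → n → ℝ} (hx : x ∈ UU C X0 A) :
    CDA (fun Ψ : n → n → ℝ => MM C A b (XX X0 (of Ψ))) x :=
  CDA_MM (CDA_XX X0 x) hx

lemma cont_of_CD {f : (n → n → ℝ) → ℝ} (hKU : KK C X0 A b R ⊆ UU C X0 A)
    (hf : ∀ x ∈ UU C X0 A, ContDiffAt ℝ 1 f x) : ContinuousOn f (KK C X0 A b R) :=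
  fun x hx => (hf x (hKU hx)).continuousAt.continuousWithinAt

lemma bound_KK {f : (n → n → ℝ) → ℝ} (hC : C.PosDef) (hX0 : X0.PosDef)
    (hf : ContinuousOn f (KK C X0 A b R)) : ∃ B, ∀ x ∈ KK C X0 A b R, |f x| ≤ B := by
  obtain ⟨B, hB⟩ := (compact_K hC hX0 A b R).exists_bound_of_continuousOn hf
  exact ⟨B, fun x hx => by simpa [Real.norm_eq_abs] using hB x hx⟩

lemma Flow.mem (F : Flow C X0 A b R Φ) {t : ℝ} (ht : 0 ≤ t) : al Φ t ∈ KK C X0 A b R :=
  ⟨⟨Real.exp (-t), ⟨(Real.exp_pos _).le, Real.exp_le_one_iff.2 (by linarith)⟩,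
    fun l => F.lin t ht l⟩, F.bdd t ht⟩

lemma Flow.hasDerivAt (F : Flow C X0 A b R Φ) {t : ℝ} (ht : 0 ≤ t) :
    HasDerivAt (al Φ) (vel C X0 A b (al Φ t)) t := by
  rw [hasDerivAt_pi]
  intro i
  rw [hasDerivAt_pi]
  intro j
  exact F.der t ht i j

/-- derivative of a `C¹` function along the curve -/
lemma Flow.comp_deriv (F : Flow C X0 A b R Φ) (hC : C.PosDef) (hX0 : X0.PosDef)
    (hKU : KK C X0 A b R ⊆ UU C X0 A) {f : (n → n → ℝ) → ℝ}
    (hf : ∀ x ∈ UU C X0 A, ContDiffAt ℝ 1 f x) :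
    ∃ (B : ℝ) (f' : ℝ → ℝ), 0 ≤ B ∧ ∀ t, 0 ≤ t →
      HasDerivAt (fun s => f (al Φ s)) (f' t) t ∧ |f' t| ≤ B * ‖vel C X0 A b (al Φ t)‖ := by
  have hcont : ContinuousOn (fderiv ℝ f) (KK C X0 A b R) := by
    intro x hx
    have h1 : ContDiffAt ℝ 0 (fderiv ℝ f) x := (hf x (hKU hx)).fderiv_right (by norm_num)
    exact h1.continuousAt.continuousWithinAt
  obtain ⟨B, hB⟩ := (compact_K hC hX0 A b R).exists_bound_of_continuousOn hcont
  refine ⟨max B 0, fun t => fderiv ℝ f (al Φ t) (vel C X0 A b (al Φ t)), le_max_right _ _,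
    fun t ht => ⟨?_, ?_⟩⟩
  · have h1 : HasFDerivAt f (fderiv ℝ f (al Φ t)) (al Φ t) :=
      ((hf _ (hKU (F.mem ht))).differentiableAt (by norm_num)).hasFDerivAt
    exact h1.comp_hasDerivAt t (F.hasDerivAt ht)
  · rw [← Real.norm_eq_abs]
    refine (ContinuousLinearMap.le_opNorm _ _).trans ?_
    exact mul_le_mul_of_nonneg_right ((hB _ (F.mem ht)).trans (le_max_left _ _)) (norm_nonneg _)

/-- derivative of `X` -/
lemma Flow.derX (F : Flow C X0 A b R Φ) (hC : C.PosDef) (hA : ∀ l, (A l)ᵀ = A l) {t : ℝ}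
    (ht : 0 ≤ t) :
    HD (fun s => XX X0 (Φ s)) (cond C (XX X0 (Φ t)) (MM C A b (XX X0 (Φ t)))) t := by
  have hCs := symm_of_posDef hC
  have h0 : HD Φ ((1 : ℝ) • (1 / 2 : ℝ) • (C⁻¹ * MM C A b (XX X0 (Φ t)) * Φ t)) t := by
    rw [one_smul]
    exact F.der t ht
  have h1 := (h0.mulConst X0).mul h0.transpose
  rw [XX_deriv_eq hCs _ _ (MM_symm hCs hA b _) 1, one_smul] at h1
  exact h1

/-- energy identity -/
lemma energy_id (hC : C.PosDef) (hA : ∀ l, (A l)ᵀ = A l) {X : Matrix n n ℝ}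
    (hX : X.PosSemidef) (hu : IsUnit (gram C A X).det) :
    (MM C A b X * X).trace = -(MM C A b X * C⁻¹ * MM C A b X * X).trace
      - ∑ l, ((gram C A X)⁻¹ *ᵥ b) l * ((A l * X).trace - b l) := by
  have hCs := symm_of_posDef hC
  have hCu : IsUnit C.det := hC.det_pos.ne'.isUnit
  have hM := MM_symm hCs hA b X
  have h1 := trace_mul_cond hCs (symm_of_posSemidef hX) hM hM
  have h2 : (MM C A b X * cond C X (MM C A b X)).trace
      = (comb A ((gram C A X)⁻¹ *ᵥ b) * cond C X (MM C A b X)).trace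
        - (C * cond C X (MM C A b X)).trace := by
    conv_lhs => rw [show MM C A b X * cond C X (MM C A b X)
      = comb A ((gram C A X)⁻¹ *ᵥ b) * cond C X (MM C A b X) - C * cond C X (MM C A b X) by
        rw [← sub_mul]; rfl]
    rw [trace_sub]
  rw [trace_C_cond hCu, trace_comb_mul] at h2
  have h3 : ∑ l, ((gram C A X)⁻¹ *ᵥ b) l * (A l * cond C X (MM C A b X)).trace
      = - ∑ l, ((gram C A X)⁻¹ *ᵥ b) l * ((A l * X).trace - b l) := by
    rw [← Finset.sum_neg_distrib]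
    refine Finset.sum_congr rfl fun l _ => ?_
    rw [trace_A_cond_MM hCu hu]
    ring
  rw [h3] at h2
  linarith

lemma ee_eq (hC : C.PosDef) (hA : ∀ l, (A l)ᵀ = A l) (Ψ : Matrix n n ℝ) :
    (C⁻¹ * XX X0 (MM C A b (XX X0 Ψ) * Ψ)).trace
      = (MM C A b (XX X0 Ψ) * C⁻¹ * MM C A b (XX X0 Ψ) * XX X0 Ψ).trace := by
  have hM := MM_symm (symm_of_posDef hC) hA b (XX X0 Ψ)
  set M := MM C A b (XX X0 Ψ)
  have h1 : XX X0 (M * Ψ) = M * XX X0 Ψ * M := by
    unfold XX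
    rw [transpose_mul, hM]
    simp only [Matrix.mul_assoc]
  rw [h1, ← Matrix.mul_assoc, trace_mul_comm]
  simp only [Matrix.mul_assoc]

/-- Energy decay, convergence of the value, and convergence of the velocity to zero. -/
theorem Flow.energy (F : Flow C X0 A b R Φ) (hC : C.PosDef) (hX0 : X0.PosDef)
    (hA : ∀ l, (A l)ᵀ = A l) (hKU : KK C X0 A b R ⊆ UU C X0 A) :
    (∃ L, Tendsto (fun t => (C * XX X0 (Φ t)).trace) atTop (𝓝 L)) ∧
    Tendsto (fun t => (MM C A b (XX X0 (Φ t)) * C⁻¹ * MM C A b (XX X0 (Φ t)) *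
      XX X0 (Φ t)).trace) atTop (𝓝 0) ∧
    Tendsto (fun t => ‖vel C X0 A b (al Φ t)‖) atTop (𝓝 0) := by
  have hCu : IsUnit C.det := hC.det_pos.ne'.isUnit
  have hCs := symm_of_posDef hC
  -- the functions
  set ee : (n → n → ℝ) → ℝ := fun Ψ => (MM C A b (XX X0 (of Ψ)) * C⁻¹ * MM C A b (XX X0 (of Ψ)) *
      XX X0 (of Ψ)).trace with hee
  have heeC : ∀ x ∈ UU C X0 A, ContDiffAt ℝ 1 ee x := fun x hx =>
    CDA.trace ((((mmC hx).mul (CDA.const _ x)).mul (mmC hx)).mul (CDA_XX X0 x))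
  obtain ⟨B, f', hB0, hf'⟩ := F.comp_deriv hC hX0 hKU heeC
  -- bound on the velocity
  have hvelC : ContinuousOn (vel C X0 A b) (KK C X0 A b R) := by
    intro x hx
    apply ContinuousAt.continuousWithinAt
    have : ContDiffAt ℝ 1 (vel C X0 A b) x := by
      rw [contDiffAt_pi]
      intro i
      rw [contDiffAt_pi]
      intro j
      exact CDA.smul contDiffAt_const
        (((CDA.const _ x).mul (mmC (hKU hx))).mul (CDA_of x)) i j
    exact this.continuousAt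
  obtain ⟨V, hV⟩ := (compact_K hC hX0 A b R).exists_bound_of_continuousOn hvelC
  -- bound on the multiplier term
  set rr : (n → n → ℝ) → ℝ := fun Ψ => ∑ l, ((gram C A (XX X0 (of Ψ)))⁻¹ *ᵥ b) l *
    ((A l * X0).trace - b l) with hrr
  have hrrC : ∀ x ∈ UU C X0 A, ContDiffAt ℝ 1 rr x := by
    intro x hx
    have hinv : CDA (fun Ψ : n → n → ℝ => (gram C A (XX X0 (of Ψ)))⁻¹) x :=
      CDA.inv (CDA.gram (CDA_XX X0 x)) hx
    simp only [hrr, Matrix.mulVec, dotProduct]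
    exact ContDiffAt.sum fun l _ => (ContDiffAt.sum fun k _ =>
      (hinv l k).mul contDiffAt_const).mul contDiffAt_const
  obtain ⟨c, hc⟩ := bound_KK hC hX0 (cont_of_CD hKU hrrC)
  -- positivity of e
  have hpos : ∀ t, 0 ≤ ee (al Φ t) := fun t =>
    quad_nonneg hC.inv.posSemidef (XX_psd hX0.posSemidef _) (MM_symm hCs hA b _)
  have hexp : ∀ t : ℝ, HasDerivAt (fun s => Real.exp (-s)) (-Real.exp (-t)) t := by
    intro t
    have := ((hasDerivAt_id t).fun_neg).exp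
    simpa using this
  have hbar := barbalat (f := fun t => ee (al Φ t)) (f' := f')
    (H := fun t => (C * XX X0 (Φ t)).trace + c * Real.exp (-t))
    (H' := fun t => (MM C A b (XX X0 (Φ t)) * XX X0 (Φ t)).trace + c * (-Real.exp (-t)))
    (Λ := B * V) (B := 0)
    (fun t _ => hpos t) (fun t ht => (hf' t ht).1)
    (fun t ht => (hf' t ht).2.trans (mul_le_mul_of_nonneg_left (hV _ (F.mem ht)) hB0))
    (fun t ht => by
      have h1 := ((F.derX hC hA ht).constMul C).trace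
      rw [trace_C_cond hCu] at h1
      exact h1.fun_add ((hexp t).const_mul c))
    (fun t ht => by
      have hm := F.mem ht
      have h1 := energy_id (b := b) hC hA (XX_psd hX0.posSemidef (Φ t))
        (isUnit_iff_ne_zero.2 (hKU hm))
      have h2 : ∑ l, ((gram C A (XX X0 (Φ t)))⁻¹ *ᵥ b) l * ((A l * XX X0 (Φ t)).trace - b l)
          = Real.exp (-t) * rr (al Φ t) := by
        rw [hrr, Finset.mul_sum]
        refine Finset.sum_congr rfl fun l _ => ?_
        rw [F.lin t ht l, of_al]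
        ring
      rw [h1, h2]
      have h3 := (abs_le.1 (hc _ hm)).1
      have h4 := Real.exp_pos (-t)
      have h5 : ee (al Φ t) = (MM C A b (XX X0 (Φ t)) * C⁻¹ * MM C A b (XX X0 (Φ t)) *
        XX X0 (Φ t)).trace := rfl
      rw [← h5]
      nlinarith)
    (fun t ht => by
      have h1 := trace_mul_nonneg hC.posSemidef (XX_psd hX0.posSemidef (Φ t))
      have h2 : 0 ≤ c := (abs_nonneg _).trans (hc _ (F.mem ht))
      have h3 := mul_nonneg h2 (Real.exp_pos (-t)).le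
      linarith)
  obtain ⟨hb1, L, hb2⟩ := hbar
  refine ⟨⟨L, ?_⟩, hb1, ?_⟩
  · have h1 : Tendsto (fun t : ℝ => c * Real.exp (-t)) atTop (𝓝 0) := by
      have := (Real.tendsto_exp_neg_atTop_nhds_zero).const_mul c
      simpa using this
    have h2 := hb2.sub h1
    simpa using h2
  · -- velocity
    obtain ⟨κ, hκ0, hκ⟩ := posDef_lower hC.inv
    obtain ⟨κ', hκ'0, hκ'⟩ := posDef_lower hX0
    have hY : ∀ i j, Tendsto (fun t => (MM C A b (XX X0 (Φ t)) * Φ t) i j) atTop (𝓝 0) := by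
      intro i j
      have h1 : ∀ t, ‖(MM C A b (XX X0 (Φ t)) * Φ t) i j‖
          ≤ Real.sqrt (ee (al Φ t) / (κ * κ')) := by
        intro t
        rw [Real.norm_eq_abs]
        apply Real.abs_le_sqrt
        rw [le_div_iff₀ (mul_pos hκ0 hκ'0)]
        have h2 := XX_lower hC.inv hX0 hκ0.le hκ hκ' (MM C A b (XX X0 (Φ t)) * Φ t)
        rw [ee_eq hC hA] at h2
        set Y := MM C A b (XX X0 (Φ t)) * Φ t
        have h3 : Y i j ^ 2 ≤ ∑ i, ∑ j, Y i j ^ 2 := by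
          have h3 : Y i j ^ 2 ≤ ∑ j, Y i j ^ 2 :=
            Finset.single_le_sum (f := fun j => Y i j ^ 2) (fun _ _ => sq_nonneg _)
              (Finset.mem_univ j)
          have h4 : ∑ j, Y i j ^ 2 ≤ ∑ i, ∑ j, Y i j ^ 2 :=
            Finset.single_le_sum (f := fun i => ∑ j, Y i j ^ 2)
              (fun _ _ => Finset.sum_nonneg fun _ _ => sq_nonneg _) (Finset.mem_univ i)
          exact h3.trans h4
        calc Y i j ^ 2 * (κ * κ') = κ * (κ' * Y i j ^ 2) := by ring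
          _ ≤ κ * (κ' * ∑ i, ∑ j, Y i j ^ 2) :=
            mul_le_mul_of_nonneg_left (mul_le_mul_of_nonneg_left h3 hκ'0.le) hκ0.le
          _ ≤ _ := h2
      have h2 : Tendsto (fun t => Real.sqrt (ee (al Φ t) / (κ * κ'))) atTop (𝓝 0) := by
        have h3 := (hb1.div_const (κ * κ'))
        rw [zero_div] at h3
        have h4 := (Real.continuous_sqrt.tendsto 0).comp h3
        rwa [Real.sqrt_zero] at h4
      exact squeeze_zero_norm h1 h2
    have hv : Tendsto (fun t => vel C X0 A b (al Φ t)) atTop (𝓝 0) := by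
      rw [tendsto_pi_nhds]
      intro i
      rw [tendsto_pi_nhds]
      intro j
      have h1 : ∀ t, vel C X0 A b (al Φ t) i j
          = (1 / 2 : ℝ) * ∑ k, C⁻¹ i k * (MM C A b (XX X0 (Φ t)) * Φ t) k j := by
        intro t
        unfold vel
        rw [Matrix.smul_apply, smul_eq_mul, Matrix.mul_assoc, Matrix.mul_apply, of_al]
      simp only [h1]
      have h2 : Tendsto (fun t => (1 / 2 : ℝ) * ∑ k, C⁻¹ i k *
          (MM C A b (XX X0 (Φ t)) * Φ t) k j) atTop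
          (𝓝 ((1 / 2 : ℝ) * ∑ k, C⁻¹ i k * (0 : ℝ))) :=
        (tendsto_finsetSum _ fun k _ => (hY k j).const_mul _).const_mul _
      simpa using h2
    have := hv.norm
    simpa using this

end

end Pool.Agent.PhysND
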