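import Pool.Agent.Lib.MP_e757b3_an.Bar

/-!
# Convergence to an optimal solution when there are countably many equilibria
-/

namespace Pool.Agent.PhysND

open Matrix Set Filter Topology

set_option linter.unusedSectionVars false

variable {n m : Type} [Fintype n] [DecidableEq n] [Fintype m] [DecidableEq m]

variable {C X0 : Matrix n n ℝ} {A : m → Matrix n n ℝ} {b : m → ℝ} {R : ℝ}
  {Φ : ℝ → Matrix n n ℝ}

/-- The pairs (multiplier, equilibrium). -/
def EqPairs (C : Matrix n n ℝ) (A : m → Matrix n n ℝ) (b : m → ℝ) :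
    Set ((m → ℝ) × Matrix n n ℝ) :=
  {w | Feasible A b w.2 ∧ comb A w.1 * w.2 = C * w.2}

/-- The conclusion of the problem for the start `X0`: there is a positive definite solution on
`[0,∞)` starting at `X0`, it is the only one, and it converges to an optimal solution. -/
def Converges (C : Matrix n n ℝ) (A : m → Matrix n n ℝ) (b : m → ℝ) (X0 : Matrix n n ℝ) : Prop :=
  ∃ X : ℝ → Matrix n n ℝ, X 0 = X0 ∧ Solves C A b (Ici 0) X ∧
    (∀ T > 0, ∀ Y : ℝ → Matrix n n ℝ, Y 0 = X0 → Solves C A b (Ico 0 T) Y →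
      ∀ t ∈ Ico 0 T, Y t = X t) ∧
    ∃ F, Optimal C A b F ∧ ∀ i j, Tendsto (fun t => X t i j) atTop (𝓝 (F i j))

lemma finite_bad (hC : C.PosDef) (M : Matrix n n ℝ) : {θ : ℝ | (M - θ • C).det = 0}.Finite := by
  have hCu : IsUnit C.det := hC.det_pos.ne'.isUnit
  have h1 : {θ : ℝ | (M - θ • C).det = 0} ⊆ {θ : ℝ | (C⁻¹ * M).charpoly.IsRoot θ} := by
    intro θ hθ
    simp only [mem_ofPred_eq] at hθ ⊢
    rw [Polynomial.IsRoot, Matrix.eval_charpoly]
    have h2 : Matrix.scalar n θ - C⁻¹ * M = -(C⁻¹ * (M - θ • C)) := by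
      rw [mul_sub, mul_smul_comm, nonsing_inv_mul C hCu, neg_sub]
      congr 1
      ext i j
      simp [Matrix.scalar_apply, Matrix.diagonal_apply, Matrix.one_apply]
    rw [h2, det_neg, det_mul, hθ, mul_zero, mul_zero]
  exact ((C⁻¹ * M).charpoly.finite_setOfPred_isRoot (charpoly_monic _).ne_zero).subset h1

/-- The limit of the objective is the optimal value. -/
theorem Flow.limit_le (F : Flow C X0 A b R Φ) (hC : C.PosDef) (hX0 : X0.PosDef)
    (hA : ∀ l, (A l)ᵀ = A l) (hKU : KK C X0 A b R ⊆ UU C X0 A)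
    {L : ℝ} (hL : Tendsto (fun t => (C * XX X0 (Φ t)).trace) atTop (𝓝 L))
    (hcount : {p : m → ℝ | ∃ X, Feasible A b X ∧ comb A p * X = C * X ∧
      (C * X).trace = L}.Countable)
    {Y : Matrix n n ℝ} (hY : Feasible A b Y) : L ≤ (C * Y).trace := by
  by_contra hlt
  push Not at hlt
  have hY0 := trace_mul_nonneg hC.posSemidef hY.1
  set θ0 : ℝ := (L - (C * Y).trace) / (1 + (C * Y).trace) with hθ0
  have hθ0pos : 0 < θ0 := div_pos (by linarith) (by linarith)
  have hbad : (⋃ p ∈ {p : m → ℝ | ∃ X, Feasible A b X ∧ comb A p * X = C * X ∧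
      (C * X).trace = L}, {θ : ℝ | ((comb A p - C) - θ • C).det = 0}).Countable :=
    hcount.biUnion fun p _ => (finite_bad hC _).countable
  obtain ⟨θ, hθ1, hθ2⟩ : ∃ θ ∈ Ioo 0 θ0, θ ∉ ⋃ p ∈ {p : m → ℝ | ∃ X, Feasible A b X ∧
      comb A p * X = C * X ∧ (C * X).trace = L}, {θ : ℝ | ((comb A p - C) - θ • C).det = 0} := by
    by_contra hcon
    push Not at hcon
    have h1 : (Ioo 0 θ0).Countable := hbad.mono hcon
    rw [Cardinal.Real.Ioo_countable_iff] at h1
    linarith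
  refine F.instability hC hX0 hA hKU hL hY hθ1.1 ?_ ?_
  · have h1 : θ * (1 + (C * Y).trace) < L - (C * Y).trace := by
      have := hθ1.2
      rwa [hθ0, lt_div_iff₀ (by linarith)] at this
    nlinarith [hθ1.1]
  · intro Ψ hΨ hdet
    obtain ⟨_, h2, h3, h4⟩ := F.cluster hC hX0 hA hKU hL hΨ
    apply hθ2
    refine mem_iUnion₂.2 ⟨(gram C A (XX X0 (of Ψ)))⁻¹ *ᵥ b, ⟨_, h2, mult_of_MM h4, h3⟩, ?_⟩
    exact hdet

/-- the curve `X(t)` in the normed space `n → n → ℝ` -/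
noncomputable def xe (X0 : Matrix n n ℝ) (Φ : ℝ → Matrix n n ℝ) : ℝ → n → n → ℝ :=
  fun t i j => XX X0 (Φ t) i j

theorem Flow.converge (F : Flow C X0 A b R Φ) (hC : C.PosDef) (hX0 : X0.PosDef)
    (hA : ∀ l, (A l)ᵀ = A l) (hKU : KK C X0 A b R ⊆ UU C X0 A)
    (hcount : (EqPairs C A b).Countable) :
    ∃ G, Optimal C A b G ∧ ∀ i j, Tendsto (fun t => XX X0 (Φ t) i j) atTop (𝓝 (G i j)) := by
  obtain ⟨⟨L, hL⟩, _, _⟩ := F.energy hC hX0 hA hKU
  have hle : ∀ Y, Feasible A b Y → L ≤ (C * Y).trace := by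
    intro Y hY
    refine F.limit_le hC hX0 hA hKU hL ?_ hY
    refine (hcount.image Prod.fst).mono ?_
    rintro p ⟨X, h1, h2, _⟩
    exact ⟨(p, X), ⟨h1, h2⟩, rfl⟩
  have hKc := compact_K hC hX0 A b R
  have hev : ∀ᶠ t in atTop, al Φ t ∈ KK C X0 A b R :=
    (eventually_ge_atTop 0).mono fun t ht => F.mem ht
  obtain ⟨Ψ0, _, hΨ0⟩ := hKc.exists_mapClusterPt_of_frequently hev.frequently
  obtain ⟨_, g2, g3, g4⟩ := F.cluster hC hX0 hA hKU hL hΨ0
  set G := XX X0 (of Ψ0) with hG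
  refine ⟨G, ⟨g2, fun Y hY => by rw [g3]; exact hle Y hY⟩, ?_⟩
  -- the distance function
  have hXc : Continuous (fun Ψ : n → n → ℝ => (fun i j => XX X0 (of Ψ) i j : n → n → ℝ)) :=
    continuous_pi fun i => continuous_pi fun j => CDA.cont fun x => CDA_XX X0 x i j
  set dd : (n → n → ℝ) → ℝ := fun Ψ => dist (fun i j => XX X0 (of Ψ) i j : n → n → ℝ)
    (fun i j => G i j) with hdd
  have hddc : Continuous dd := hXc.dist continuous_const
  have hαc : ContinuousOn (al Φ) (Ici 0) := fun t ht =>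
    (F.hasDerivAt ht).continuousAt.continuousWithinAt
  have hdc : ContinuousOn (fun t => dd (al Φ t)) (Ici 0) := hddc.comp_continuousOn hαc
  have hlim : Tendsto (fun t => dd (al Φ t)) atTop (𝓝 0) := by
    by_contra hnot
    rw [Metric.tendsto_atTop] at hnot
    push Not at hnot
    obtain ⟨η0, hη0, hfreq⟩ := hnot
    have hclu : MapClusterPt (dd Ψ0) atTop (fun t => dd (al Φ t)) :=
      hΨ0.continuousAt_comp hddc.continuousAt
    have hdd0 : dd Ψ0 = 0 := by simp only [hdd, ← hG, dist_self]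
    have hall : ∀ η ∈ Ioo 0 η0, ∃ Ψ, MapClusterPt Ψ atTop (al Φ) ∧ dd Ψ = η := by
      intro η hη
      have hf : ∃ᶠ t in atTop, al Φ t ∈ KK C X0 A b R ∩ {Ψ | dd Ψ = η} := by
        rw [frequently_atTop]
        intro T
        have h1 : ∃ᶠ t in atTop, dd (al Φ t) < η := by
          rw [hdd0] at hclu
          exact hclu.frequently (Iio_mem_nhds hη.1)
        obtain ⟨t1, ht1, ht1'⟩ := (frequently_atTop.1 h1) (max T 0)
        obtain ⟨t2, ht2, ht2'⟩ := hfreq t1
        rw [Real.dist_eq, sub_zero, abs_of_nonneg dist_nonneg] at ht2'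
        have h2 : ContinuousOn (fun t => dd (al Φ t)) (Icc t1 t2) :=
          hdc.mono fun t ht => ((le_max_right T 0).trans ht1).trans ht.1
        obtain ⟨t, ht, hteq⟩ := intermediate_value_Icc ht2 h2
          (show η ∈ Icc (dd (al Φ t1)) (dd (al Φ t2)) from ⟨ht1'.le, hη.2.le.trans ht2'⟩)
        refine ⟨t, ((le_max_left T 0).trans ht1).trans ht.1,
          F.mem (((le_max_right T 0).trans ht1).trans ht.1), hteq⟩
      have hcomp : IsCompact (KK C X0 A b R ∩ {Ψ | dd Ψ = η}) :=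
        hKc.inter_right (isClosed_eq hddc continuous_const)
      obtain ⟨Ψ, hΨ1, hΨ2⟩ := hcomp.exists_mapClusterPt_of_frequently hf
      exact ⟨Ψ, hΨ2, hΨ1.2⟩
    have hsub : Ioo 0 η0 ⊆ (fun w : (m → ℝ) × Matrix n n ℝ =>
        dist (fun i j => w.2 i j : n → n → ℝ) (fun i j => G i j)) '' EqPairs C A b := by
      intro η hη
      obtain ⟨Ψ, hΨ1, hΨ2⟩ := hall η hη
      obtain ⟨_, e2, _, e4⟩ := F.cluster hC hX0 hA hKU hL hΨ1
      exact ⟨((gram C A (XX X0 (of Ψ)))⁻¹ *ᵥ b, XX X0 (of Ψ)), ⟨e2, mult_of_MM e4⟩, hΨ2⟩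
    have h3 : (Ioo 0 η0).Countable := (hcount.image _).mono hsub
    rw [Cardinal.Real.Ioo_countable_iff] at h3
    linarith
  intro i j
  have h1 : Tendsto (fun t => (fun i j => XX X0 (Φ t) i j : n → n → ℝ)) atTop
      (𝓝 (fun i j => G i j)) := by
    rw [tendsto_iff_dist_tendsto_zero]
    exact hlim
  rw [tendsto_pi_nhds] at h1
  have h2 := h1 i
  rw [tendsto_pi_nhds] at h2
  exact h2 j

end Pool.Agent.PhysND
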