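import Pool.Agent.Lib.MP_e757b3_an.SR

/-!
# Monotonicity of one-variable semialgebraic functions near `0+`, and selection
-/

namespace Pool.Agent.PhysND

open Set Filter Topology

set_option linter.unusedSectionVars false

/-! ### local to global -/

lemma monotoneOn_of_local {h : ℝ → ℝ} {e : ℝ}
    (hR : ∀ r ∈ Ioo 0 e, ∀ᶠ r' in 𝓝[>] r, h r ≤ h r')
    (hL : ∀ r ∈ Ioo 0 e, ∀ᶠ r' in 𝓝[<] r, h r' ≤ h r) : MonotoneOn h (Ioo 0 e) := by
  intro a ha b hb hab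
  set T : Set ℝ := {c | c ∈ Icc a b ∧ ∀ x ∈ Icc a c, h a ≤ h x} with hT
  have haT : a ∈ T := ⟨⟨le_rfl, hab⟩, fun x hx => by rw [le_antisymm hx.2 hx.1]⟩
  have hbdd : BddAbove T := ⟨b, fun c hc => hc.1.2⟩
  set c := sSup T with hc
  have hac : a ≤ c := le_csSup hbdd haT
  have hcb : c ≤ b := csSup_le ⟨a, haT⟩ fun x hx => hx.1.2
  have hbelow : ∀ x, a ≤ x → x < c → h a ≤ h x := by
    intro x hx1 hx2
    obtain ⟨d, hd, hxd⟩ := exists_lt_of_lt_csSup ⟨a, haT⟩ hx2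
    exact hd.2 x ⟨hx1, hxd.le⟩
  have hcc : h a ≤ h c := by
    rcases eq_or_lt_of_le hac with h1 | h1
    · rw [← h1]
    · have hcI : c ∈ Ioo 0 e := ⟨ha.1.trans_le hac, hcb.trans_lt hb.2⟩
      have h2 : ∀ᶠ r' in 𝓝[<] c, a < r' := by
        have : Ioi a ∈ 𝓝 c := Ioi_mem_nhds h1
        exact mem_nhdsWithin_of_mem_nhds this
      have h3 : ∀ᶠ r' in 𝓝[<] c, r' < c := self_mem_nhdsWithin
      obtain ⟨r', h4, h5, h6⟩ := ((hL c hcI).and (h2.and h3)).exists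
      exact (hbelow r' h5.le h6).trans h4
  have hcT : c ∈ T := by
    refine ⟨⟨hac, hcb⟩, fun x hx => ?_⟩
    rcases eq_or_lt_of_le hx.2 with h1 | h1
    · rw [h1]; exact hcc
    · exact hbelow x hx.1 h1
  rcases eq_or_lt_of_le hcb with h1 | h1
  · rw [← h1]; exact hcc
  · exfalso
    have hcI : c ∈ Ioo 0 e := ⟨ha.1.trans_le hac, h1.trans hb.2⟩
    obtain ⟨u, hu, hsub⟩ := mem_nhdsGT_iff_exists_Ioo_subset.1 (hR c hcI)
    have hu' : c < u := hu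
    set d := min ((c + u) / 2) b with hd
    have hcd : c < d := lt_min (by linarith) h1
    have hdu : d < u := (min_le_left _ _).trans_lt (by linarith)
    have hdT : d ∈ T := by
      refine ⟨⟨hac.trans hcd.le, min_le_right _ _⟩, fun x hx => ?_⟩
      rcases le_or_gt x c with h2 | h2
      · exact hcT.2 x ⟨hx.1, h2⟩
      · exact hcc.trans (hsub ⟨h2, hx.2.trans_lt hdu⟩)
    exact absurd (le_csSup hbdd hdT) (not_le.2 hcd)

lemma not_all_strict_min {h : ℝ → ℝ} {e : ℝ} (he : 0 < e)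
    (hR : ∀ r ∈ Ioo 0 e, ∀ᶠ r' in 𝓝[>] r, h r < h r')
    (hL : ∀ r ∈ Ioo 0 e, ∀ᶠ r' in 𝓝[<] r, h r < h r') : False := by
  have key : ∀ r ∈ Ioo 0 e, ∃ p : ℚ × ℚ, (p.1 : ℝ) < r ∧ r < p.2 ∧
      ∀ r' ∈ Ioo (p.1 : ℝ) p.2, r' ≠ r → h r < h r' := by
    intro r hr
    obtain ⟨u, hu, hsubu⟩ := mem_nhdsGT_iff_exists_Ioo_subset.1 (hR r hr)
    obtain ⟨l, hl, hsubl⟩ := mem_nhdsLT_iff_exists_Ioo_subset.1 (hL r hr)
    obtain ⟨q, hq1, hq2⟩ := exists_rat_btwn (show r < u from hu)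
    obtain ⟨p, hp1, hp2⟩ := exists_rat_btwn (show l < r from hl)
    refine ⟨(p, q), hp2, hq1, fun r' hr' hne => ?_⟩
    rcases lt_or_gt_of_ne hne with h1 | h1
    · exact hsubl ⟨hp1.trans hr'.1, h1⟩
    · exact hsubu ⟨h1, hr'.2.trans hq2⟩
  choose! p hp using key
  have hinj : InjOn p (Ioo 0 e) := by
    intro a ha b hb hab
    by_contra hne
    have h1 := (hp a ha).2.2 b (by rw [hab]; exact ⟨(hp b hb).1, (hp b hb).2.1⟩) (Ne.symm hne)
    have h2 := (hp b hb).2.2 a (by rw [← hab]; exact ⟨(hp a ha).1, (hp a ha).2.1⟩) hne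
    exact lt_asymm h1 h2
  have hc : (Ioo 0 e).Countable := by
    have h1 : MapsTo p (Ioo 0 e) (univ : Set (ℚ × ℚ)) := fun _ _ => mem_univ _
    exact h1.countable_of_injOn hinj (Set.to_countable _)
  rw [Cardinal.Real.Ioo_countable_iff] at hc
  linarith

/-! ### definability of one-sided limits -/

lemma SS.evR {S : (Fin 2 → ℝ) → Prop} (hS : SS S) :
    SS (fun x : Unit → ℝ => ∀ᶠ r' in 𝓝[>] (x ()), S ![x (), r']) := by
  have h1 : SS (fun x : Unit → ℝ => ∃ u : ℝ, x () < u ∧ ∀ r' : ℝ, x () < r' ∧ r' < u →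
      S ![x (), r']) := by
    apply SS.ex1
    refine SS.and (SS.lt (PF'.coord _) (PF'.coord _)) ?_
    apply SS.all1
    refine SS.imp (SS.and (SS.lt (PF'.coord _) (PF'.coord _))
      (SS.lt (PF'.coord _) (PF'.coord _))) ?_
    refine SS.comap hS fun k => ?_
    fin_cases k
    · exact PF'.coord _
    · exact PF'.coord _
  refine SS.congr h1 fun x => ?_
  constructor
  · intro h
    obtain ⟨u, hu, hsub⟩ := mem_nhdsGT_iff_exists_Ioo_subset.1 h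
    exact ⟨u, hu, fun r' hr' => hsub hr'⟩
  · rintro ⟨u, hu, hsub⟩
    exact mem_nhdsGT_iff_exists_Ioo_subset.2 ⟨u, hu, fun r' hr' => hsub r' hr'⟩

lemma SS.evL {S : (Fin 2 → ℝ) → Prop} (hS : SS S) :
    SS (fun x : Unit → ℝ => ∀ᶠ r' in 𝓝[<] (x ()), S ![x (), r']) := by
  have h1 : SS (fun x : Unit → ℝ => ∃ u : ℝ, u < x () ∧ ∀ r' : ℝ, u < r' ∧ r' < x () →
      S ![x (), r']) := by
    apply SS.ex1
    refine SS.and (SS.lt (PF'.coord _) (PF'.coord _)) ?_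
    apply SS.all1
    refine SS.imp (SS.and (SS.lt (PF'.coord _) (PF'.coord _))
      (SS.lt (PF'.coord _) (PF'.coord _))) ?_
    refine SS.comap hS fun k => ?_
    fin_cases k
    · exact PF'.coord _
    · exact PF'.coord _
  refine SS.congr h1 fun x => ?_
  constructor
  · intro h
    obtain ⟨u, hu, hsub⟩ := mem_nhdsLT_iff_exists_Ioo_subset.1 h
    exact ⟨u, hu, fun r' hr' => hsub hr'⟩
  · rintro ⟨u, hu, hsub⟩
    exact mem_nhdsLT_iff_exists_Ioo_subset.2 ⟨u, hu, fun r' hr' => hsub r' hr'⟩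

/-- one-sided comparison relations of a semialgebraic function -/
lemma SS.rel {h : ℝ → ℝ} {ε : ℝ}
    (hH : SS (fun w : Fin 2 → ℝ => 0 < w 0 ∧ w 0 < ε ∧ w 1 = h (w 0)))
    {R : (Fin 2 → ℝ) → Prop} (hR : SS R) :
    SS (fun w : Fin 2 → ℝ => (0 < w 0 ∧ w 0 < ε) ∧ (0 < w 1 ∧ w 1 < ε) ∧
      R ![h (w 0), h (w 1)]) := by
  have h1 : SS (fun w : Fin 2 → ℝ => ∃ y : ℝ, ∃ y' : ℝ,
      (0 < w 0 ∧ w 0 < ε ∧ y = h (w 0)) ∧ (0 < w 1 ∧ w 1 < ε ∧ y' = h (w 1)) ∧ R ![y, y']) := by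
    apply SS.ex1
    apply SS.ex1
    refine SS.and ?_ (SS.and ?_ ?_)
    · refine SS.congr (SS.comap hH (φ := fun w : (Fin 2 ⊕ Unit) ⊕ Unit → ℝ =>
        ![w (Sum.inl (Sum.inl 0)), w (Sum.inl (Sum.inr ()))]) fun k => ?_) fun x => Iff.rfl
      fin_cases k
      · exact PF'.coord _
      · exact PF'.coord _
    · refine SS.congr (SS.comap hH (φ := fun w : (Fin 2 ⊕ Unit) ⊕ Unit → ℝ =>
        ![w (Sum.inl (Sum.inl 1)), w (Sum.inr ())]) fun k => ?_) fun x => Iff.rfl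
      fin_cases k
      · exact PF'.coord _
      · exact PF'.coord _
    · refine SS.comap hR fun k => ?_
      fin_cases k
      · exact PF'.coord _
      · exact PF'.coord _
  refine SS.congr h1 fun w => ?_
  constructor
  · rintro ⟨h2, h3, h4⟩
    exact ⟨_, _, ⟨h2.1, h2.2, rfl⟩, ⟨h3.1, h3.2, rfl⟩, h4⟩
  · rintro ⟨y, y', ⟨h2, h3, rfl⟩, ⟨h4, h5, rfl⟩, h6⟩
    exact ⟨⟨h2, h3⟩, ⟨h4, h5⟩, h6⟩

/-- the three sign relations -/
def Rsg (s : Fin 3) (w : Fin 2 → ℝ) : Prop :=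
  match s with
  | 0 => w 0 < w 1
  | 1 => w 0 = w 1
  | 2 => w 1 < w 0

lemma SS_Rsg (s : Fin 3) : SS (Rsg s) := by
  fin_cases s
  · exact SS.lt (PF'.coord _) (PF'.coord _)
  · exact SS.eq (PF'.coord _) (PF'.coord _)
  · exact SS.lt (PF'.coord _) (PF'.coord _)

lemma exists_Rsg (w : Fin 2 → ℝ) : ∃ s, Rsg s w := by
  rcases lt_trichotomy (w 0) (w 1) with h | h | h
  · exact ⟨0, h⟩
  · exact ⟨1, h⟩
  · exact ⟨2, h⟩

lemma Rsg_unique {s s' : Fin 3} {w : Fin 2 → ℝ} (h : Rsg s w) (h' : Rsg s' w) : s = s' := by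
  fin_cases s <;> fin_cases s' <;> simp only [Rsg, Fin.mk_zero, Fin.mk_one, Fin.zero_eta,
    Fin.reduceFinMk] at h h' ⊢ <;> linarith

/-- trichotomy of germs -/
lemma exists_germ {l : Filter ℝ} {S : Fin 3 → (Unit → ℝ) → Prop}
    (hS : ∀ s, (∀ᶠ r in l, S s fun _ => r) ∨ ∀ᶠ r in l, ¬ S s fun _ => r)
    (hex : ∀ᶠ r in l, ∃ s, S s fun _ => r) (hl : l.NeBot) :
    ∃ s, ∀ᶠ r in l, S s fun _ => r := by
  by_contra hcon
  have h1 : ∀ s, ∀ᶠ r in l, ¬ S s fun _ => r := fun s =>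
    (hS s).resolve_left (fun h => hcon ⟨s, h⟩)
  have h2 : ∀ᶠ r in l, ∀ s, ¬ S s fun _ => r := eventually_all.2 h1
  obtain ⟨r, ⟨s, hs⟩, h3⟩ := (hex.and h2).exists
  exact h3 s hs

theorem mono_germ {h : ℝ → ℝ} {ε : ℝ} (hε : 0 < ε)
    (hH : SS (fun w : Fin 2 → ℝ => 0 < w 0 ∧ w 0 < ε ∧ w 1 = h (w 0))) :
    ∃ e > 0, e ≤ ε ∧ (MonotoneOn h (Ioo 0 e) ∨ AntitoneOn h (Ioo 0 e)) := by
  have hrel : ∀ s, SS (fun w : Fin 2 → ℝ => (0 < w 0 ∧ w 0 < ε) ∧ (0 < w 1 ∧ w 1 < ε) ∧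
      Rsg s ![h (w 0), h (w 1)]) := fun s => SS.rel hH (SS_Rsg s)
  -- fibres
  have hfib : ∀ s r, SS (fun x : Unit → ℝ => (0 < r ∧ r < ε) ∧ (0 < x () ∧ x () < ε) ∧
      Rsg s ![h r, h (x ())]) := by
    intro s r
    refine SS.congr (SS.comap (hrel s) (φ := fun x : Unit → ℝ => ![r, x ()]) fun k => ?_)
      fun x => Iff.rfl
    fin_cases k
    · exact PF'.const r
    · exact PF'.coord _
  have hRex : ∀ r ∈ Ioo 0 ε, ∃ s, ∀ᶠ r' in 𝓝[>] r, (0 < r ∧ r < ε) ∧ (0 < r' ∧ r' < ε) ∧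
      Rsg s ![h r, h r'] := by
    intro r hr
    refine exists_germ (S := fun s x => (0 < r ∧ r < ε) ∧ (0 < x () ∧ x () < ε) ∧
      Rsg s ![h r, h (x ())]) (fun s => (hfib s r).germ_right r) ?_ inferInstance
    filter_upwards [Ioo_mem_nhdsGT hr.2] with r' hr'
    obtain ⟨s, hs⟩ := exists_Rsg ![h r, h r']
    exact ⟨s, hr, ⟨hr.1.trans hr'.1, hr'.2⟩, hs⟩
  have hLex : ∀ r ∈ Ioo 0 ε, ∃ s, ∀ᶠ r' in 𝓝[<] r, (0 < r ∧ r < ε) ∧ (0 < r' ∧ r' < ε) ∧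
      Rsg s ![h r, h r'] := by
    intro r hr
    refine exists_germ (S := fun s x => (0 < r ∧ r < ε) ∧ (0 < x () ∧ x () < ε) ∧
      Rsg s ![h r, h (x ())]) (fun s => (hfib s r).germ_left r) ?_ inferInstance
    filter_upwards [Ioo_mem_nhdsLT hr.1] with r' hr'
    obtain ⟨s, hs⟩ := exists_Rsg ![h r, h r']
    exact ⟨s, hr, ⟨hr'.1, hr'.2.trans hr.2⟩, hs⟩
  -- uniform signs near 0
  obtain ⟨a, ha⟩ : ∃ s, ∀ᶠ r in 𝓝[>] (0 : ℝ), ∀ᶠ r' in 𝓝[>] r,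
      (0 < r ∧ r < ε) ∧ (0 < r' ∧ r' < ε) ∧ Rsg s ![h r, h r'] := by
    refine exists_germ (S := fun s x => ∀ᶠ r' in 𝓝[>] (x ()),
      (0 < x () ∧ x () < ε) ∧ (0 < r' ∧ r' < ε) ∧ Rsg s ![h (x ()), h r'])
      (fun s => (SS.evR (hrel s)).germ_right 0) ?_ inferInstance
    filter_upwards [Ioo_mem_nhdsGT hε] with r hr using hRex r hr
  obtain ⟨b, hb⟩ : ∃ s, ∀ᶠ r in 𝓝[>] (0 : ℝ), ∀ᶠ r' in 𝓝[<] r,
      (0 < r ∧ r < ε) ∧ (0 < r' ∧ r' < ε) ∧ Rsg s ![h r, h r'] := by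
    refine exists_germ (S := fun s x => ∀ᶠ r' in 𝓝[<] (x ()),
      (0 < x () ∧ x () < ε) ∧ (0 < r' ∧ r' < ε) ∧ Rsg s ![h (x ()), h r'])
      (fun s => (SS.evL (hrel s)).germ_right 0) ?_ inferInstance
    filter_upwards [Ioo_mem_nhdsGT hε] with r hr using hLex r hr
  obtain ⟨e, he, hsub⟩ := mem_nhdsGT_iff_exists_Ioo_subset.1
    ((ha.and hb).and (Ioo_mem_nhdsGT hε))
  have he0 : (0 : ℝ) < e := he
  refine ⟨min e ε, lt_min he0 hε, min_le_right _ _, ?_⟩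
  have hRa : ∀ r ∈ Ioo 0 (min e ε), ∀ᶠ r' in 𝓝[>] r, Rsg a ![h r, h r'] := fun r hr =>
    (hsub ⟨hr.1, hr.2.trans_le (min_le_left _ _)⟩).1.1.mono fun r' h1 => h1.2.2
  have hLb : ∀ r ∈ Ioo 0 (min e ε), ∀ᶠ r' in 𝓝[<] r, Rsg b ![h r, h r'] := fun r hr =>
    (hsub ⟨hr.1, hr.2.trans_le (min_le_left _ _)⟩).1.2.mono fun r' h1 => h1.2.2
  have he1 : 0 < min e ε := lt_min he0 hε
  have hmid : min e ε / 2 ∈ Ioo 0 (min e ε) := ⟨by linarith, by linarith⟩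
  -- the constant cases coincide
  have hab1 : a = 1 → b = 1 := by
    intro ha1
    subst ha1
    obtain ⟨u, hu, hsubu⟩ := mem_nhdsGT_iff_exists_Ioo_subset.1 (hRa _ hmid)
    have hu' : min e ε / 2 < u := hu
    obtain ⟨c, hc1, hc2⟩ := exists_between (lt_min hu' hmid.2)
    have hcI : c ∈ Ioo 0 (min e ε) := ⟨hmid.1.trans hc1, hc2.trans_le (min_le_right _ _)⟩
    have h2 : ∀ᶠ r' in 𝓝[<] c, Rsg 1 ![h c, h r'] := by
      filter_upwards [Ioo_mem_nhdsLT hc1] with r' hr'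
      have h3 : h (min e ε / 2) = h r' :=
        hsubu ⟨hr'.1, (hr'.2.trans hc2).trans_le (min_le_left _ _)⟩
      have h4 : h (min e ε / 2) = h c := hsubu ⟨hc1, hc2.trans_le (min_le_left _ _)⟩
      show h c = h r'
      rw [← h3, ← h4]
    obtain ⟨r', h5, h6⟩ := ((hLb c hcI).and h2).exists
    exact Rsg_unique h5 h6
  have hba1 : b = 1 → a = 1 := by
    intro hb1
    subst hb1
    obtain ⟨u, hu, hsubu⟩ := mem_nhdsLT_iff_exists_Ioo_subset.1 (hLb _ hmid)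
    have hu' : u < min e ε / 2 := hu
    obtain ⟨c, hc1, hc2⟩ := exists_between (max_lt hu' hmid.1)
    have hcI : c ∈ Ioo 0 (min e ε) := ⟨(le_max_right _ _).trans_lt hc1, hc2.trans hmid.2⟩
    have h2 : ∀ᶠ r' in 𝓝[>] c, Rsg 1 ![h c, h r'] := by
      filter_upwards [Ioo_mem_nhdsGT hc2] with r' hr'
      have h3 : h (min e ε / 2) = h r' :=
        hsubu ⟨((le_max_left _ _).trans_lt hc1).trans hr'.1, hr'.2⟩
      have h4 : h (min e ε / 2) = h c := hsubu ⟨(le_max_left _ _).trans_lt hc1, hc2⟩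
      show h c = h r'
      rw [← h3, ← h4]
    obtain ⟨r', h5, h6⟩ := ((hRa c hcI).and h2).exists
    exact Rsg_unique h5 h6
  fin_cases a <;> fin_cases b
  · -- strict local minima
    exact (not_all_strict_min he1 (fun r hr => (hRa r hr).mono fun _ h1 => h1)
      (fun r hr => (hLb r hr).mono fun _ h1 => h1)).elim
  · exact absurd (hba1 rfl) (by decide)
  · left
    exact monotoneOn_of_local (fun r hr => (hRa r hr).mono fun _ h1 => le_of_lt h1)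
      (fun r hr => (hLb r hr).mono fun _ h1 => le_of_lt h1)
  · exact absurd (hab1 rfl) (by decide)
  · left
    exact monotoneOn_of_local (fun r hr => (hRa r hr).mono fun _ h1 => le_of_eq h1)
      (fun r hr => (hLb r hr).mono fun _ h1 => le_of_eq (Eq.symm h1))
  · exact absurd (hab1 rfl) (by decide)
  · right
    have h2 := monotoneOn_of_local (h := fun r => - h r) (e := min e ε)
      (fun r hr => (hRa r hr).mono fun _ h1 => neg_le_neg (le_of_lt h1))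
      (fun r hr => (hLb r hr).mono fun _ h1 => neg_le_neg (le_of_lt h1))
    intro x hx y hy hxy
    have := h2 hx hy hxy
    simp only at this
    linarith
  · exact absurd (hba1 rfl) (by decide)
  · exact (not_all_strict_min (h := fun r => - h r) he1
      (fun r hr => (hRa r hr).mono fun _ h1 => neg_lt_neg h1)
      (fun r hr => (hLb r hr).mono fun _ h1 => neg_lt_neg h1)).elim

/-! ### selection -/

lemma select_aux {ι : Type} [Fintype ι] [DecidableEq ι] {W : (Unit ⊕ ι → ℝ) → Prop} (hW : SS W)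
    {ε : ℝ} (hne : ∀ r ∈ Ioo 0 ε, ∃ z : ι → ℝ, W (Sum.elim (fun _ => r) z))
    (hc : ∀ r ∈ Ioo 0 ε, IsCompact {z : ι → ℝ | W (Sum.elim (fun _ => r) z)}) (s : Finset ι) :
    ∃ V : (Unit ⊕ ι → ℝ) → Prop, SS V ∧ (∀ x, V x → W x) ∧
      (∀ r ∈ Ioo 0 ε, ∃ z : ι → ℝ, V (Sum.elim (fun _ => r) z)) ∧
      (∀ r ∈ Ioo 0 ε, IsCompact {z : ι → ℝ | V (Sum.elim (fun _ => r) z)}) ∧
      ∀ r ∈ Ioo 0 ε, ∀ i ∈ s, ∀ z z' : ι → ℝ, V (Sum.elim (fun _ => r) z) →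
        V (Sum.elim (fun _ => r) z') → z i = z' i := by
  induction s using Finset.induction_on with
  | empty => exact ⟨W, hW, fun _ h => h, hne, hc, fun r _ i hi => by simp at hi⟩
  | insert a s _ ih =>
    obtain ⟨V, hV, hVW, hVne, hVc, hVs⟩ := ih
    refine ⟨fun w => V w ∧ ∀ z' : ι → ℝ, V (Sum.elim (fun i => w (Sum.inl i)) z') →
      w (Sum.inr a) ≤ z' a, ?_, fun x hx => hVW x hx.1, ?_, ?_, ?_⟩
    · refine hV.and ?_
      apply SS.allV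
      refine SS.imp ?_ (SS.le (PF'.coord _) (PF'.coord _))
      refine SS.comap hV fun k => ?_
      rcases k with k | k
      · exact PF'.coord _
      · exact PF'.coord _
    · intro r hr
      obtain ⟨z, hz, hmin⟩ := (hVc r hr).exists_isMinOn (hVne r hr)
        ((continuous_apply a).continuousOn)
      exact ⟨z, hz, fun z' hz' => hmin hz'⟩
    · intro r hr
      obtain ⟨z, hz, hmin⟩ := (hVc r hr).exists_isMinOn (hVne r hr)
        ((continuous_apply a).continuousOn)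
      have : {z : ι → ℝ | V (Sum.elim (fun _ => r) z) ∧ ∀ z' : ι → ℝ,
          V (Sum.elim (fun i => (Sum.elim (fun _ => r) z : Unit ⊕ ι → ℝ) (Sum.inl i)) z') →
          (Sum.elim (fun _ => r) z : Unit ⊕ ι → ℝ) (Sum.inr a) ≤ z' a} =
          {z : ι → ℝ | V (Sum.elim (fun _ => r) z)} ∩ {z' | z' a ≤ z a} := by
        ext z1
        constructor
        · rintro ⟨h1, h2⟩
          exact ⟨h1, h2 z hz⟩
        · rintro ⟨h1, h2⟩
          exact ⟨h1, fun z' hz' => le_trans h2 (hmin hz')⟩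
      rw [this]
      exact (hVc r hr).inter_right (isClosed_le (continuous_apply a) continuous_const)
    · intro r hr i hi z z' hz hz'
      rcases Finset.mem_insert.1 hi with h1 | h1
      · subst h1
        exact le_antisymm (hz.2 z' hz'.1) (hz'.2 z hz.1)
      · exact hVs r hr i h1 z z' hz.1 hz'.1

theorem select {ι : Type} [Fintype ι] {W : (Unit ⊕ ι → ℝ) → Prop} (hW : SS W) {ε : ℝ}
    (hε : 0 < ε) (hne : ∀ r ∈ Ioo 0 ε, ∃ z : ι → ℝ, W (Sum.elim (fun _ => r) z))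
    (hc : ∀ r ∈ Ioo 0 ε, IsCompact {z : ι → ℝ | W (Sum.elim (fun _ => r) z)}) :
    ∃ x : ℝ → ι → ℝ, ∃ e > 0, e ≤ ε ∧ (∀ r ∈ Ioo 0 e, W (Sum.elim (fun _ => r) (x r))) ∧
      ∀ i, MonotoneOn (fun r => x r i) (Ioo 0 e) ∨ AntitoneOn (fun r => x r i) (Ioo 0 e) := by
  classical
  obtain ⟨V, hV, hVW, hVne, _, hVs⟩ := select_aux hW hne hc Finset.univ
  choose! x hx using hVne
  have hgraph : ∀ i, SS (fun w : Fin 2 → ℝ => 0 < w 0 ∧ w 0 < ε ∧ w 1 = x (w 0) i) := by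
    intro i
    have h1 : SS (fun w : Fin 2 → ℝ => 0 < w 0 ∧ w 0 < ε ∧ ∃ z : ι → ℝ,
        V (Sum.elim (fun _ => w 0) z) ∧ w 1 = z i) := by
      refine SS.and (SS.lt (PF'.const 0) (PF'.coord _)) (SS.and (SS.lt (PF'.coord _)
        (PF'.const ε)) ?_)
      apply SS.exV
      refine SS.and ?_ (SS.eq (PF'.coord _) (PF'.coord _))
      refine SS.comap hV fun k => ?_
      rcases k with k | k
      · exact PF'.coord _
      · exact PF'.coord _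
    refine SS.congr h1 fun w => ?_
    constructor
    · rintro ⟨h2, h3, h4⟩
      exact ⟨h2, h3, x (w 0), hx _ ⟨h2, h3⟩, h4⟩
    · rintro ⟨h2, h3, z, h4, h5⟩
      refine ⟨h2, h3, ?_⟩
      rw [h5]
      exact hVs (w 0) ⟨h2, h3⟩ i (Finset.mem_univ i) _ _ h4 (hx _ ⟨h2, h3⟩)
  have hm : ∀ i, ∃ e > 0, e ≤ ε ∧ (MonotoneOn (fun r => x r i) (Ioo 0 e) ∨
      AntitoneOn (fun r => x r i) (Ioo 0 e)) := fun i => mono_germ hε (hgraph i)
  choose e he1 he2 he3 using hm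
  obtain ⟨e0, he00, he0⟩ : ∃ e0 > 0, e0 ≤ ε ∧ ∀ i, e0 ≤ e i := by
    rcases isEmpty_or_nonempty ι with h1 | h1
    · exact ⟨ε, hε, le_rfl, fun i => h1.elim i⟩
    · obtain ⟨i0, hi0⟩ := Finite.exists_min e
      exact ⟨e i0, he1 i0, he2 i0, hi0⟩
  refine ⟨x, e0, he00, he0.1, fun r hr => hVW _ (hx r ⟨hr.1, hr.2.trans_le he0.1⟩), fun i => ?_⟩
  have hsub : Ioo 0 e0 ⊆ Ioo 0 (e i) := Ioo_subset_Ioo_right (he0.2 i)
  rcases he3 i with h1 | h1
  · exact Or.inl (h1.mono hsub)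
  · exact Or.inr (h1.mono hsub)

end Pool.Agent.PhysND
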