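import Pool.Agent.Lib.MP_42de19_nt.Semialg

/-!
# Semialgebraic predicates with real coefficients
-/

namespace Pool.Agent.PhysND

open Set Pool.Agent.Lib.MP42 Topology

set_option linter.unusedSectionVars false

/-! ### evaluation -/

noncomputable def evM (ι : Type) : MvPolynomial ι ℝ →+* ((ι → ℝ) → ℝ) :=
  RingHom.pi (fun x => MvPolynomial.eval x)

lemma evM_apply {ι : Type} (P : MvPolynomial ι ℝ) (x : ι → ℝ) :
    evM ι P x = MvPolynomial.eval x P := rfl

lemma continuous_evM {ι : Type} (P : MvPolynomial ι ℝ) : Continuous (evM ι P) := by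
  have : evM ι P = fun x => MvPolynomial.eval x P := rfl
  rw [this]
  exact MvPolynomial.continuous_eval P

noncomputable def evPtR : ℝ →+* (Unit → ℝ) := RingHom.pi (fun _ => RingHom.id ℝ)

lemma cad_evPtR : CAD evPtR := by
  intro B
  refine ⟨{Set.univ}, Set.finite_singleton _, by simp, ?_⟩
  intro C hC
  rw [Set.mem_singleton_iff] at hC
  subst hC
  refine ⟨?_, SA.univ, ?_⟩
  · exact isPreconnected_univ
  · intro b _ x _ y _ h
    exact h

lemma cad_evM (ι : Type) [Fintype ι] : CAD (evM ι) := by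
  classical
  set e : ι ≃ Fin (Fintype.card ι) := Fintype.equivFin ι with he
  have h := cad_evPtR.mv (fun a => continuous_of_discreteTopology) (Fintype.card ι)
  let φ : (ι → ℝ) ≃ₜ Unit × (Fin (Fintype.card ι) → ℝ) :=
    { toFun := fun x => ((), fun j => x (e.symm j))
      invFun := fun p i => p.2 (e i)
      left_inv := fun x => by funext i; simp
      right_inv := fun p => by ext <;> simp
      continuous_toFun := by fun_prop
      continuous_invFun := by fun_prop }
  refine h.transfer φ (fun P => MvPolynomial.rename e P) (fun Q => MvPolynomial.rename e.symm Q)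
    ?_ ?_
  · intro b y
    rw [evM_apply, evMv_apply, MvPolynomial.eval₂_rename]
    have h1 : (φ y).2 ∘ e = y := by funext i; simp [φ]
    rw [h1]
    rfl
  · intro a y
    rw [evM_apply, evMv_apply, MvPolynomial.eval_rename]
    rfl

/-! ### polynomial functions -/

/-- `f` is a polynomial function. -/
def PF' {ι : Type} (f : (ι → ℝ) → ℝ) : Prop :=
  ∃ P : MvPolynomial ι ℝ, ∀ x, f x = MvPolynomial.eval x P

namespace PF'

variable {ι : Type} {f g : (ι → ℝ) → ℝ}

lemma const (c : ℝ) : PF' (fun _ : ι → ℝ => c) := ⟨MvPolynomial.C c, fun x => by simp⟩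

lemma coord (i : ι) : PF' (fun x : ι → ℝ => x i) := ⟨MvPolynomial.X i, fun x => by simp⟩

lemma add (hf : PF' f) (hg : PF' g) : PF' (fun x => f x + g x) := by
  obtain ⟨P, hP⟩ := hf
  obtain ⟨Q, hQ⟩ := hg
  exact ⟨P + Q, fun x => by simp [hP, hQ]⟩

lemma mul (hf : PF' f) (hg : PF' g) : PF' (fun x => f x * g x) := by
  obtain ⟨P, hP⟩ := hf
  obtain ⟨Q, hQ⟩ := hg
  exact ⟨P * Q, fun x => by simp [hP, hQ]⟩

lemma neg (hf : PF' f) : PF' (fun x => - f x) := by
  obtain ⟨P, hP⟩ := hf
  exact ⟨-P, fun x => by simp [hP]⟩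

lemma sub (hf : PF' f) (hg : PF' g) : PF' (fun x => f x - g x) := by
  obtain ⟨P, hP⟩ := hf
  obtain ⟨Q, hQ⟩ := hg
  exact ⟨P - Q, fun x => by simp [hP, hQ]⟩

lemma sum {κ : Type*} (s : Finset κ) {F : κ → (ι → ℝ) → ℝ} (h : ∀ k ∈ s, PF' (F k)) :
    PF' (fun x => ∑ k ∈ s, F k x) := by
  classical
  induction s using Finset.induction_on with
  | empty => simpa using const 0
  | insert a s ha ih =>
    have h1 : (fun x => ∑ k ∈ insert a s, F k x) = fun x => F a x + ∑ k ∈ s, F k x := by
      funext x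
      rw [Finset.sum_insert ha]
    rw [h1]
    exact (h a (by simp)).add (ih fun k hk => h k (by simp [hk]))

lemma pow (hf : PF' f) (k : ℕ) : PF' (fun x => f x ^ k) := by
  obtain ⟨P, hP⟩ := hf
  exact ⟨P ^ k, fun x => by simp [hP]⟩

/-- composition with a polynomial map -/
lemma comp {κ : Type} {g : (κ → ℝ) → ℝ} (hg : PF' g) {φ : (ι → ℝ) → (κ → ℝ)}
    (hφ : ∀ k, PF' (fun x => φ x k)) : PF' (fun x => g (φ x)) := by
  obtain ⟨Q, hQ⟩ := hg
  choose P hP using hφ
  refine ⟨MvPolynomial.bind₁ P Q, fun x => ?_⟩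
  have : φ x = fun k => MvPolynomial.eval x (P k) := by
    funext k
    exact hP k x
  show g (φ x) = _
  rw [hQ, this]
  exact (MvPolynomial.eval₂Hom_bind₁ (RingHom.id ℝ) x P Q).symm

end PF'

/-! ### semialgebraic predicates -/

/-- semialgebraic predicate (real coefficients) -/
def SS {ι : Type} (P : (ι → ℝ) → Prop) : Prop := SA (evM ι) {x | P x}

namespace SS

variable {ι : Type} {P Q : (ι → ℝ) → Prop} {f g : (ι → ℝ) → ℝ}

lemma congr (h : SS P) (hPQ : ∀ x, Q x ↔ P x) : SS Q := by
  unfold SS at *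
  have : {x | Q x} = {x | P x} := by
    ext x
    exact hPQ x
  rw [this]
  exact h

lemma pos (hf : PF' f) : SS (fun x => 0 < f x) := by
  obtain ⟨p, hp⟩ := hf
  have := SA.pos (ev := evM ι) p
  refine congr (P := fun x => 0 < evM ι p x) this fun x => ?_
  rw [hp x, evM_apply]

lemma lt (hf : PF' f) (hg : PF' g) : SS (fun x => f x < g x) :=
  congr (pos (hg.sub hf)) fun _ => sub_pos.symm

lemma not (h : SS P) : SS (fun x => ¬ P x) := SA.compl h

lemma and (h : SS P) (h' : SS Q) : SS (fun x => P x ∧ Q x) := SA.inter h h'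

lemma or (h : SS P) (h' : SS Q) : SS (fun x => P x ∨ Q x) := SA.union h h'

lemma imp (h : SS P) (h' : SS Q) : SS (fun x => P x → Q x) :=
  congr (h.not.or h') fun _ => imp_iff_not_or

lemma iff (h : SS P) (h' : SS Q) : SS (fun x => P x ↔ Q x) :=
  congr ((h.imp h').and (h'.imp h)) fun _ => iff_iff_implies_and_implies

lemma le (hf : PF' f) (hg : PF' g) : SS (fun x => f x ≤ g x) :=
  congr (lt hg hf).not fun _ => not_lt.symm

lemma eq (hf : PF' f) (hg : PF' g) : SS (fun x => f x = g x) :=
  congr ((le hf hg).and (le hg hf)) fun _ => le_antisymm_iff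

lemma const (p : Prop) : SS (fun _ : ι → ℝ => p) := SA.const p

lemma allFin {κ : Type} [Fintype κ] {P : κ → (ι → ℝ) → Prop} (h : ∀ k, SS (P k)) :
    SS (fun x => ∀ k, P k x) := by
  have := SA.iInter_finite (ev := evM ι) (fun k => {x | P k x}) h
  refine congr (P := fun x => x ∈ ⋂ k, {x | P k x}) this fun x => ?_
  simp

lemma exFin {κ : Type} [Fintype κ] {P : κ → (ι → ℝ) → Prop} (h : ∀ k, SS (P k)) :
    SS (fun x => ∃ k, P k x) := by
  have := SA.iUnion_finite (ev := evM ι) (fun k => {x | P k x}) h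
  refine congr (P := fun x => x ∈ ⋃ k, {x | P k x}) this fun x => ?_
  simp

/-- pull back along a polynomial map -/
lemma comap {κ : Type} {P : (κ → ℝ) → Prop} (h : SS P) {φ : (ι → ℝ) → (κ → ℝ)}
    (hφ : ∀ k, PF' (fun x => φ x k)) : SS (fun x => P (φ x)) := by
  choose p hp using hφ
  have := SA.comap (ev' := evM ι) (fun q => MvPolynomial.bind₁ p q) φ (fun q x => ?_) h
  · exact this
  · have h1 : φ x = fun k => MvPolynomial.eval x (p k) := by
      funext k
      exact hp k x
    rw [evM_apply, evM_apply, MvPolynomial.eval, MvPolynomial.eval₂Hom_bind₁, h1]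
    rfl

/-- Tarski-Seidenberg -/
lemma ex {κ : Type} [Fintype ι] [Fintype κ] {P : (ι ⊕ κ → ℝ) → Prop} (h : SS P) :
    SS (fun x : ι → ℝ => ∃ y : κ → ℝ, P (Sum.elim x y)) := by
  classical
  set e : κ ≃ Fin (Fintype.card κ) := Fintype.equivFin κ with he
  let ψ : MvPolynomial (ι ⊕ κ) ℝ →+* MvPolynomial (Fin (Fintype.card κ)) (MvPolynomial ι ℝ) :=
    MvPolynomial.eval₂Hom (MvPolynomial.C.comp MvPolynomial.C)
      (Sum.elim (fun i => MvPolynomial.C (MvPolynomial.X i)) (fun j => MvPolynomial.X (e j)))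
  let φ : (ι → ℝ) × (Fin (Fintype.card κ) → ℝ) → (ι ⊕ κ → ℝ) :=
    fun p => Sum.elim p.1 (fun j => p.2 (e j))
  have hψ : ∀ a p, evMv (Fintype.card κ) (evM ι) (ψ a) p = evM (ι ⊕ κ) a (φ p) := by
    intro a p
    have h1 : ((Pi.evalRingHom (fun _ => ℝ) p).comp
        ((evMv (Fintype.card κ) (evM ι)).comp ψ)) =
        (Pi.evalRingHom (fun _ => ℝ) (φ p)).comp (evM (ι ⊕ κ)) := by
      apply MvPolynomial.ringHom_ext
      · intro r
        simp only [RingHom.comp_apply, Pi.evalRingHom_apply, evM_apply, MvPolynomial.eval_C]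
        rw [evMv_apply]
        simp only [ψ, MvPolynomial.coe_eval₂Hom, MvPolynomial.eval₂_C, RingHom.comp_apply]
        rw [evAt_apply, evM_apply, MvPolynomial.eval_C]
      · intro i
        simp only [RingHom.comp_apply, Pi.evalRingHom_apply, evM_apply, MvPolynomial.eval_X]
        rw [evMv_apply]
        rcases i with i | i
        · simp only [ψ, φ, MvPolynomial.coe_eval₂Hom, MvPolynomial.eval₂_X, Sum.elim_inl,
            MvPolynomial.eval₂_C]
          rw [evAt_apply, evM_apply, MvPolynomial.eval_X]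
        · simp only [ψ, φ, MvPolynomial.coe_eval₂Hom, MvPolynomial.eval₂_X, Sum.elim_inr]
    exact RingHom.congr_fun h1 a
  have h2 := SA.comap (ev' := evMv (Fintype.card κ) (evM ι)) ψ φ hψ h
  have h3 := (cad_evM ι).projMv continuous_evM (Fintype.card κ) _ h2
  refine congr (P := fun x => x ∈ Prod.fst '' (φ ⁻¹' {x | P x})) h3 fun x => ?_
  constructor
  · rintro ⟨y, hy⟩
    refine ⟨(x, fun j => y (e.symm j)), ?_, rfl⟩
    show P (φ _)
    have : φ (x, fun j => y (e.symm j)) = Sum.elim x y := by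
      funext i
      rcases i with i | i
      · rfl
      · simp [φ]
    rw [this]
    exact hy
  · rintro ⟨⟨x', y⟩, hy, rfl⟩
    exact ⟨fun j => y (e j), hy⟩

lemma all {κ : Type} [Fintype ι] [Fintype κ] {P : (ι ⊕ κ → ℝ) → Prop} (h : SS P) :
    SS (fun x : ι → ℝ => ∀ y : κ → ℝ, P (Sum.elim x y)) :=
  congr (ex h.not).not fun x => by push Not; rfl

/-- quantify one real variable -/
lemma ex1 [Fintype ι] {P : (ι → ℝ) → ℝ → Prop}
    (h : SS (fun w : ι ⊕ Unit → ℝ => P (fun i => w (Sum.inl i)) (w (Sum.inr ())))) :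
    SS (fun x : ι → ℝ => ∃ y : ℝ, P x y) := by
  refine congr (ex h) fun x => ?_
  constructor
  · rintro ⟨y, hy⟩
    exact ⟨fun _ => y, hy⟩
  · rintro ⟨y, hy⟩
    exact ⟨y (), hy⟩

lemma all1 [Fintype ι] {P : (ι → ℝ) → ℝ → Prop}
    (h : SS (fun w : ι ⊕ Unit → ℝ => P (fun i => w (Sum.inl i)) (w (Sum.inr ())))) :
    SS (fun x : ι → ℝ => ∀ y : ℝ, P x y) :=
  congr (ex1 (P := fun x y => ¬ P x y) h.not).not fun x => by push Not; rfl

/-- quantify a vector -/
lemma exV {κ : Type} [Fintype ι] [Fintype κ] {P : (ι → ℝ) → (κ → ℝ) → Prop}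
    (h : SS (fun w : ι ⊕ κ → ℝ => P (fun i => w (Sum.inl i)) (fun j => w (Sum.inr j)))) :
    SS (fun x : ι → ℝ => ∃ y : κ → ℝ, P x y) :=
  congr (ex h) fun _ => Iff.rfl

lemma allV {κ : Type} [Fintype ι] [Fintype κ] {P : (ι → ℝ) → (κ → ℝ) → Prop}
    (h : SS (fun w : ι ⊕ κ → ℝ => P (fun i => w (Sum.inl i)) (fun j => w (Sum.inr j)))) :
    SS (fun x : ι → ℝ => ∀ y : κ → ℝ, P x y) :=
  congr (all h) fun _ => Iff.rfl

end SS

/-! ### one variable: germs -/

/-- semialgebraic subsets of the line are, on the right of any point, eventually all or nothing -/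
lemma SS.germ_right {P : (Unit → ℝ) → Prop} (h : SS P) (c : ℝ) :
    (∀ᶠ r in 𝓝[>] c, P fun _ => r) ∨ (∀ᶠ r in 𝓝[>] c, ¬ P fun _ => r) := by
  unfold SS at h
  generalize hS : {x | P x} = S at h
  have key : (∀ᶠ r in 𝓝[>] c, (fun _ => r) ∈ S) ∨ (∀ᶠ r in 𝓝[>] c, (fun _ => r) ∉ S) := by
    clear hS
    induction h with
    | pos a =>
      set q : Polynomial ℝ := MvPolynomial.aeval (fun _ => Polynomial.X) a with hq
      have hqe : ∀ r : ℝ, evM Unit a (fun _ => r) = q.eval r := by
        intro r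
        rw [evM_apply, hq]
        have h1 : (Polynomial.evalRingHom r).comp
            ((MvPolynomial.aeval (fun _ : Unit => (Polynomial.X : Polynomial ℝ)) :
              MvPolynomial Unit ℝ →ₐ[ℝ] Polynomial ℝ) : MvPolynomial Unit ℝ →+* Polynomial ℝ) =
            (MvPolynomial.eval fun _ => r) := by
          apply MvPolynomial.ringHom_ext
          · intro s
            simp
          · intro i
            simp
        exact (RingHom.congr_fun h1 a).symm
      simp only [mem_ofPred_eq, hqe]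
      by_cases h0 : q = 0
      · right
        simp [h0]
      · have hfin : (q.roots.toFinset : Set ℝ).Finite := Finset.finite_toSet _
        have hne : ∀ᶠ r in 𝓝[>] c, q.eval r ≠ 0 := by
          have h1 : ∀ᶠ r in 𝓝[≠] c, r ∉ (q.roots.toFinset : Set ℝ) := by
            have h2 : ((q.roots.toFinset : Set ℝ) \ {c}).Finite := hfin.subset sdiff_subset
            have h3 : ((q.roots.toFinset : Set ℝ) \ {c})ᶜ ∈ 𝓝 c :=
              h2.isClosed.isOpen_compl.mem_nhds (by simp)
            filter_upwards [mem_nhdsWithin_of_mem_nhds h3, self_mem_nhdsWithin] with r hr1 hr2 hr3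
            exact hr1 ⟨hr3, hr2⟩
          have h2 : 𝓝[>] c ≤ 𝓝[≠] c := nhdsWithin_mono _ fun r hr => ne_of_gt hr
          filter_upwards [h2 h1] with r hr hr0
          exact hr (by simp [h0, hr0])
        obtain ⟨d, hd, hsub⟩ := mem_nhdsGT_iff_exists_Ioo_subset.1 hne
        have hcd : c < d := hd
        have hIoo : Ioo c d ∈ 𝓝[>] c := Ioo_mem_nhdsGT hcd
        by_cases hmid : 0 < q.eval ((c + d) / 2)
        · left
          filter_upwards [hIoo] with r hr
          by_contra hneg
          have hr0 : q.eval r ≠ 0 := hsub hr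
          have hr1 : q.eval r < 0 := lt_of_le_of_ne (not_lt.1 hneg) hr0
          have hpre : IsPreconnected (Ioo c d) := isPreconnected_Ioo
          obtain ⟨z, hz, hz0⟩ := hpre.intermediate_value hr
            (show (c + d) / 2 ∈ Ioo c d from ⟨by linarith, by linarith⟩)
            (q.continuous.continuousOn) ⟨hr1.le, hmid.le⟩
          exact hsub hz hz0
        · right
          filter_upwards [hIoo] with r hr
          intro hpos
          have hm : (c + d) / 2 ∈ Ioo c d := ⟨by linarith, by linarith⟩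
          have hm0 : q.eval ((c + d) / 2) ≠ 0 := hsub hm
          have hpre : IsPreconnected (Ioo c d) := isPreconnected_Ioo
          obtain ⟨z, hz, hz0⟩ := hpre.intermediate_value hm hr
            (q.continuous.continuousOn) ⟨not_lt.1 hmid, hpos.le⟩
          exact hsub hz hz0
    | compl _ ih =>
      rcases ih with ih | ih
      · right
        exact ih.mono fun r hr => by simpa using hr
      · left
        exact ih.mono fun r hr => by simpa using hr
    | inter _ _ ih1 ih2 =>
      rcases ih1 with ih1 | ih1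
      · rcases ih2 with ih2 | ih2
        · left
          filter_upwards [ih1, ih2] with r h1 h2 using ⟨h1, h2⟩
        · right
          exact ih2.mono fun r hr h => hr h.2
      · right
        exact ih1.mono fun r hr h => hr h.1
  rw [← hS] at key
  exact key

lemma SS.germ_left {P : (Unit → ℝ) → Prop} (h : SS P) (c : ℝ) :
    (∀ᶠ r in 𝓝[<] c, P fun _ => r) ∨ (∀ᶠ r in 𝓝[<] c, ¬ P fun _ => r) := by
  have h1 : SS (fun x : Unit → ℝ => P (fun i => - x i)) :=
    SS.comap h fun k => (PF'.coord k).neg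
  have hmap : Filter.Tendsto (fun r : ℝ => - r) (𝓝[<] c) (𝓝[>] (-c)) := by
    have := tendsto_neg_nhdsLT (a := c)
    exact this
  rcases h1.germ_right (-c) with h2 | h2
  · left
    filter_upwards [hmap.eventually h2] with r hr
    simpa using hr
  · right
    filter_upwards [hmap.eventually h2] with r hr
    simpa using hr

end Pool.Agent.PhysND
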