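import Pool.Agent.Lib.MP_e757b3_an.Mono
import Pool.Agent.Lib.MP_e757b3_an.Conv

/-!
# Semialgebraic Sard-type theorem for `Y ↦ tr(A_l Y Yᵀ)`
-/

namespace Pool.Agent.PhysND

open Matrix Set Filter Topology MeasureTheory Pool.Agent.Lib.MP42

set_option linter.unusedSectionVars false

/-! ### zero sets of polynomials are null -/

lemma poly_null {ι : Type} [Fintype ι] {P : MvPolynomial ι ℝ} (hP : P ≠ 0) :
    volume {x : ι → ℝ | MvPolynomial.eval x P = 0} = 0 := by
  classical
  obtain ⟨x0, hx0⟩ : ∃ x0 : ι → ℝ, MvPolynomial.eval x0 P ≠ 0 := by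
    by_contra hcon
    push Not at hcon
    exact hP (MvPolynomial.funext fun x => by rw [hcon x, map_zero])
  set T : Set ((ι → ℝ) × ℝ) := {w | MvPolynomial.eval (x0 + w.2 • w.1) P = 0} with hT
  have hcont : Continuous fun w : (ι → ℝ) × ℝ => MvPolynomial.eval (x0 + w.2 • w.1) P :=
    (MvPolynomial.continuous_eval P).comp (by fun_prop)
  have hTm : MeasurableSet T := (isClosed_eq hcont continuous_const).measurableSet
  have h1 : ((volume : Measure (ι → ℝ)).prod (volume : Measure ℝ)) T = 0 := by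
    rw [Measure.measure_prod_null hTm]
    refine Eventually.of_forall fun x => ?_
    set q : Polynomial ℝ := MvPolynomial.aeval
      (fun i => Polynomial.C (x0 i) + Polynomial.X * Polynomial.C (x i)) P with hq
    have hqe : ∀ r : ℝ, q.eval r = MvPolynomial.eval (x0 + r • x) P := by
      intro r
      have h1 : (Polynomial.evalRingHom r).comp
          ((MvPolynomial.aeval (fun i => Polynomial.C (x0 i) + Polynomial.X * Polynomial.C (x i)) :
            MvPolynomial ι ℝ →ₐ[ℝ] Polynomial ℝ) : MvPolynomial ι ℝ →+* Polynomial ℝ) =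
          (MvPolynomial.eval (x0 + r • x)) := by
        apply MvPolynomial.ringHom_ext
        · intro s
          simp
        · intro i
          simp
          ring
      exact RingHom.congr_fun h1 P
    have hq0 : q ≠ 0 := by
      intro h
      apply hx0
      have := hqe 0
      rw [h] at this
      simpa using this.symm
    have h2 : Prod.mk x ⁻¹' T ⊆ (q.roots.toFinset : Set ℝ) := by
      intro r hr
      have h3 : MvPolynomial.eval (x0 + r • x) P = 0 := hr
      rw [← hqe] at h3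
      simp [hq0, h3]
    exact measure_mono_null h2 (Finset.measure_zero _ _)
  have h2 : ((volume : Measure ℝ).prod (volume : Measure (ι → ℝ))) (Prod.swap ⁻¹' T) = 0 := by
    rw [← Measure.prod_swap (μ := (volume : Measure ℝ)) (ν := (volume : Measure (ι → ℝ))),
      Measure.map_apply measurable_swap hTm] at h1
    exact h1
  rw [Measure.measure_prod_null (measurable_swap hTm)] at h2
  obtain ⟨r, hr0, hr⟩ : ∃ r : ℝ, 0 < r ∧
      volume (Prod.mk r ⁻¹' (Prod.swap ⁻¹' T) : Set (ι → ℝ)) = 0 := by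
    by_contra hcon
    push Not at hcon
    have h3 : ∀ᵐ r : ℝ, r ∉ Ioo (0 : ℝ) 1 := by
      filter_upwards [h2] with r hr hr1
      exact hcon r hr1.1 hr
    have h4 : volume (Ioo (0 : ℝ) 1) = 0 := measure_eq_zero_iff_ae_notMem.2 h3
    simp at h4
  have hset : (Prod.mk r ⁻¹' (Prod.swap ⁻¹' T) : Set (ι → ℝ)) =
      (fun x => r • x) ⁻¹' ((fun x => x0 + x) ⁻¹' {x | MvPolynomial.eval x P = 0}) := rfl
  rw [hset, Measure.addHaar_preimage_smul volume hr0.ne', measure_preimage_add] at hr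
  rcases mul_eq_zero.1 hr with h3 | h3
  · rw [ENNReal.ofReal_eq_zero] at h3
    exfalso
    have : 0 < |(r ^ Module.finrank ℝ (ι → ℝ))⁻¹| := by positivity
    linarith
  · exact h3

/-! ### semialgebraic sets: measurability and interior -/

lemma SS.measurable {ι : Type} [Fintype ι] {P : (ι → ℝ) → Prop} (h : SS P) :
    MeasurableSet {x | P x} := by
  unfold SS at h
  generalize {x | P x} = S at h
  induction h with
  | pos a => exact (isOpen_lt continuous_const (continuous_evM a)).measurableSet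
  | compl _ ih => exact ih.compl
  | inter _ _ ih1 ih2 => exact ih1.inter ih2

lemma SS.loc_const {ι : Type} [Fintype ι] {P : (ι → ℝ) → Prop} (h : SS P) :
    ∃ p : MvPolynomial ι ℝ, p ≠ 0 ∧ ∀ x, MvPolynomial.eval x p ≠ 0 →
      (P x → ∀ᶠ y in 𝓝 x, P y) ∧ (¬ P x → ∀ᶠ y in 𝓝 x, ¬ P y) := by
  unfold SS at h
  generalize hS : {x | P x} = S at h
  have key : ∃ p : MvPolynomial ι ℝ, p ≠ 0 ∧ ∀ x, MvPolynomial.eval x p ≠ 0 →
      (x ∈ S → ∀ᶠ y in 𝓝 x, y ∈ S) ∧ (x ∉ S → ∀ᶠ y in 𝓝 x, y ∉ S) := by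
    clear hS
    induction h with
    | pos a =>
      by_cases ha : a = 0
      · refine ⟨1, one_ne_zero, fun x _ => ⟨fun hx => ?_, fun _ => ?_⟩⟩
        · simp [ha] at hx
        · simp [ha]
      · refine ⟨a, ha, fun x hx => ⟨fun h1 => ?_, fun h1 => ?_⟩⟩
        · exact (continuous_evM a).continuousAt.eventually_mem (Ioi_mem_nhds h1)
        · have h2 : evM ι a x < 0 := lt_of_le_of_ne (not_lt.1 h1) hx
          filter_upwards [(continuous_evM a).continuousAt.eventually_mem (Iio_mem_nhds h2)]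
            with y hy h3
          exact lt_asymm hy h3
    | compl _ ih =>
      obtain ⟨p, hp, hp'⟩ := ih
      refine ⟨p, hp, fun x hx => ⟨fun h1 => (hp' x hx).2 h1, fun h1 => ?_⟩⟩
      have h2 := (hp' x hx).1 (by simpa using h1)
      exact h2.mono fun y hy => by simpa using hy
    | inter _ _ ih1 ih2 =>
      obtain ⟨p, hp, hp'⟩ := ih1
      obtain ⟨q, hq, hq'⟩ := ih2
      refine ⟨p * q, mul_ne_zero hp hq, fun x hx => ?_⟩
      rw [map_mul] at hx
      have hx1 := left_ne_zero_of_mul hx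
      have hx2 := right_ne_zero_of_mul hx
      refine ⟨fun h1 => ?_, fun h1 => ?_⟩
      · filter_upwards [(hp' x hx1).1 h1.1, (hq' x hx2).1 h1.2] with y h2 h3 using ⟨h2, h3⟩
      · rw [mem_inter_iff, not_and_or] at h1
        rcases h1 with h1 | h1
        · exact ((hp' x hx1).2 h1).mono fun y hy h2 => hy h2.1
        · exact ((hq' x hx2).2 h1).mono fun y hy h2 => hy h2.2
  rw [← hS] at key
  exact key

lemma SS.null {ι : Type} [Fintype ι] {P : (ι → ℝ) → Prop} (h : SS P)
    (hint : ∀ x, ¬ ∀ᶠ y in 𝓝 x, P y) : volume {x | P x} = 0 := by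
  obtain ⟨p, hp, hp'⟩ := h.loc_const
  refine measure_mono_null (fun x hx => ?_) (poly_null hp)
  by_contra hne
  exact hint x ((hp' x hne).1 hx)

/-! ### no square root speed -/

lemma exists_psi {ι : Type} [Fintype ι] {x : ℝ → ι → ℝ} {e1 : ℝ}
    (hxm : ∀ i, MonotoneOn (fun r => x r i) (Ioo 0 e1) ∨ AntitoneOn (fun r => x r i) (Ioo 0 e1)) :
    ∃ ψ : ℝ → ℝ, ∀ r ∈ Ioo 0 e1, ∀ r' ∈ Ioo 0 e1, r' ≤ r → ‖x r' - x r‖ ≤ ψ r - ψ r' := by
  classical
  set sg : ι → ℝ := fun i => if MonotoneOn (fun r => x r i) (Ioo 0 e1) then 1 else -1 with hsg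
  have hsgm : ∀ i, ∀ r ∈ Ioo 0 e1, ∀ r' ∈ Ioo 0 e1, r' ≤ r →
      |x r i - x r' i| = sg i * x r i - sg i * x r' i := by
    intro i r hr r' hr' hle
    by_cases h1 : MonotoneOn (fun r => x r i) (Ioo 0 e1)
    · have h2 : sg i = 1 := by simp only [hsg, h1, if_true]
      have h3 : x r' i ≤ x r i := h1 hr' hr hle
      rw [h2, abs_of_nonneg (by linarith)]
      ring
    · have h2 : sg i = -1 := by simp only [hsg, h1, if_false]
      have h3 : x r i ≤ x r' i := (hxm i).resolve_left h1 hr' hr hle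
      rw [h2, abs_of_nonpos (by linarith)]
      ring
  refine ⟨fun r => ∑ i, sg i * x r i, fun r hr r' hr' hle => ?_⟩
  have h1 : (∑ i, sg i * x r i) - (∑ i, sg i * x r' i) = ∑ i, |x r i - x r' i| := by
    rw [← Finset.sum_sub_distrib]
    exact Finset.sum_congr rfl fun i _ => (hsgm i r hr r' hr' hle).symm
  simp only
  rw [h1, pi_norm_le_iff_of_nonneg (Finset.sum_nonneg fun i _ => abs_nonneg _)]
  intro i
  rw [Pi.sub_apply, norm_sub_rev, Real.norm_eq_abs]
  exact Finset.single_le_sum (f := fun i => |x r i - x r' i|) (fun i _ => abs_nonneg _)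
    (Finset.mem_univ i)

lemma no_fast {ι : Type} [Fintype ι] {W : (Unit ⊕ ι → ℝ) → Prop} (hW : SS W) {ε : ℝ}
    (hε : 0 < ε) (hne : ∀ r ∈ Ioo 0 ε, ∃ z : ι → ℝ, W (Sum.elim (fun _ => r) z))
    (hc : ∀ r ∈ Ioo 0 ε, IsCompact {z : ι → ℝ | W (Sum.elim (fun _ => r) z)})
    {Cq : ℝ} (hfast : ∀ r r' z z', W (Sum.elim (fun _ => r) z) → W (Sum.elim (fun _ => r') z') →
      |r' - r| ≤ Cq * ‖z' - z‖ ^ 2) : False := by
  obtain ⟨x, e, he0, _, hx, hxm⟩ := select hW hε hne hc
  obtain ⟨ψ, hψ⟩ := exists_psi hxm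
  have hCq : 0 ≤ Cq ∨ Cq < 0 := le_or_gt 0 Cq
  set D : ℝ := ψ (2 * e / 3) - ψ (e / 3) with hD
  have hmem : ∀ r ∈ Icc (e / 3) (2 * e / 3), r ∈ Ioo 0 e := fun r hr =>
    ⟨by linarith [hr.1], by linarith [hr.2]⟩
  have key : ∀ k : ℕ, 0 < k → e / 3 * k ≤ |Cq| * D ^ 2 := by
    intro k hk
    have hk' : (0 : ℝ) < k := by exact_mod_cast hk
    set g : ℕ → ℝ := fun j => e / 3 + j * (e / 3 / k) with hg
    have hgmem : ∀ j ≤ k, g j ∈ Ioo 0 e := by
      intro j hj
      apply hmem
      have hj' : (j : ℝ) ≤ k := by exact_mod_cast hj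
      have h1 : (j : ℝ) * (e / 3 / k) ≤ k * (e / 3 / k) :=
        mul_le_mul_of_nonneg_right hj' (by positivity)
      have h2 : (k : ℝ) * (e / 3 / k) = e / 3 := mul_div_cancel₀ _ hk'.ne'
      have h3 : 0 ≤ (j : ℝ) * (e / 3 / k) := by positivity
      simp only [hg]
      constructor <;> linarith
    have hsum : ∑ j ∈ Finset.range k, (ψ (g (j + 1)) - ψ (g j)) = D := by
      rw [Finset.sum_range_sub (fun j => ψ (g j))]
      have h1 : g k = 2 * e / 3 := by
        simp only [hg]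
        rw [mul_div_cancel₀ _ hk'.ne']
        ring
      have h2 : g 0 = e / 3 := by simp [hg]
      rw [h1, h2]
    obtain ⟨j, hj, hjle⟩ : ∃ j ∈ Finset.range k, ψ (g (j + 1)) - ψ (g j) ≤ D / k := by
      by_contra hcon
      push Not at hcon
      have h1 : ∑ _j ∈ Finset.range k, D / k < ∑ j ∈ Finset.range k, (ψ (g (j + 1)) - ψ (g j)) :=
        Finset.sum_lt_sum_of_nonempty ⟨0, Finset.mem_range.2 hk⟩ hcon
      rw [hsum, Finset.sum_const, Finset.card_range, nsmul_eq_mul,
        mul_div_cancel₀ _ hk'.ne'] at h1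
      exact lt_irrefl _ h1
    have hjk : j < k := Finset.mem_range.1 hj
    have h1 := hψ (g (j + 1)) (hgmem _ hjk) (g j) (hgmem _ hjk.le) (by
      simp only [hg]
      push_cast
      have : 0 ≤ e / 3 / k := by positivity
      linarith)
    have h2 := hfast (g (j + 1)) (g j) _ _ (hx _ (hgmem _ hjk)) (hx _ (hgmem _ hjk.le))
    have h3 : |g j - g (j + 1)| = e / 3 / k := by
      simp only [hg]
      push_cast
      have h4 : e / 3 + (j : ℝ) * (e / 3 / k) - (e / 3 + ((j : ℝ) + 1) * (e / 3 / k))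
          = -(e / 3 / k) := by ring
      rw [h4, abs_neg, abs_of_nonneg (by positivity)]
    rw [h3] at h2
    have h5 : ‖x (g j) - x (g (j + 1))‖ ^ 2 ≤ (D / k) ^ 2 :=
      pow_le_pow_left₀ (norm_nonneg _) (h1.trans hjle) 2
    have h6 : e / 3 / k ≤ |Cq| * (D / k) ^ 2 := by
      refine h2.trans ?_
      calc Cq * ‖x (g j) - x (g (j + 1))‖ ^ 2 ≤ |Cq| * ‖x (g j) - x (g (j + 1))‖ ^ 2 :=
            mul_le_mul_of_nonneg_right (le_abs_self _) (sq_nonneg _)
        _ ≤ |Cq| * (D / k) ^ 2 := mul_le_mul_of_nonneg_left h5 (abs_nonneg _)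
    have h7 := mul_le_mul_of_nonneg_right h6 (show (0 : ℝ) ≤ k ^ 2 by positivity)
    have h8 : e / 3 / k * (k : ℝ) ^ 2 = e / 3 * k := by
      field_simp
    have h9 : |Cq| * (D / k) ^ 2 * (k : ℝ) ^ 2 = |Cq| * D ^ 2 := by
      field_simp
    rw [h8, h9] at h7
    exact h7
  obtain ⟨k, hk⟩ := exists_nat_gt (|Cq| * D ^ 2 / (e / 3))
  have he3 : 0 < e / 3 := by linarith
  have hk0 : 0 < k := by
    rcases Nat.eq_zero_or_pos k with h | h
    · exfalso
      rw [h] at hk
      have : 0 ≤ |Cq| * D ^ 2 / (e / 3) := by positivity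
      simp at hk
      linarith
    · exact h
  have h1 := key k hk0
  rw [div_lt_iff₀ he3] at hk
  linarith

/-- projections of semialgebraic sets which move fast along a line are null -/
theorem null_of_line {ι κ : Type} [Fintype ι] [Fintype κ] {V : (ι ⊕ κ → ℝ) → Prop} (hV : SS V)
    (hcl : IsClosed {w | V w}) {R : ℝ} (hb : ∀ w z, V (Sum.elim w z) → ‖z‖ ≤ R) (e : ι → ℝ)
    {Cq : ℝ} (h : ∀ w z z' τ, V (Sum.elim w z) → V (Sum.elim (w + τ • e) z') →
      |τ| ≤ Cq * ‖z' - z‖ ^ 2) :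
    volume {w : ι → ℝ | ∃ z : κ → ℝ, V (Sum.elim w z)} = 0 := by
  have hS : SS (fun w : ι → ℝ => ∃ z : κ → ℝ, V (Sum.elim w z)) := SS.ex hV
  apply hS.null
  intro w0 hw0
  -- the line
  have hline : Tendsto (fun r : ℝ => w0 + r • e) (𝓝 0) (𝓝 w0) := by
    have h1 : Continuous (fun r : ℝ => w0 + r • e) := by fun_prop
    have := h1.tendsto 0
    simpa using this
  have hev : ∀ᶠ r in 𝓝[>] (0 : ℝ), ∃ z : κ → ℝ, V (Sum.elim (w0 + r • e) z) :=
    (hline.eventually hw0).filter_mono nhdsWithin_le_nhds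
  obtain ⟨ε, hε, hsub⟩ := mem_nhdsGT_iff_exists_Ioo_subset.1 hev
  have hε0 : 0 < ε := hε
  set W : (Unit ⊕ κ → ℝ) → Prop := fun w =>
    V (Sum.elim (w0 + w (Sum.inl ()) • e) (fun j => w (Sum.inr j))) with hW
  have hWS : SS W := by
    refine SS.comap hV fun k => ?_
    rcases k with k | k
    · exact (PF'.const (w0 k)).add ((PF'.coord _).mul (PF'.const (e k)))
    · exact PF'.coord _
  refine no_fast (Cq := Cq) hWS hε0 (fun r hr => hsub hr) (fun r _ => ?_) ?_
  · apply Metric.isCompact_of_isClosed_isBounded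
    · have h1 : Continuous (fun z : κ → ℝ => (Sum.elim (w0 + r • e) z : ι ⊕ κ → ℝ)) := by
        refine continuous_pi fun i => ?_
        rcases i with i | i
        · exact continuous_const
        · exact continuous_apply i
      exact hcl.preimage h1
    · rw [Metric.isBounded_iff_subset_closedBall 0]
      refine ⟨R, fun z hz => ?_⟩
      rw [mem_closedBall_zero_iff]
      exact hb _ z hz
  · intro r r' z z' h1 h2
    refine h (w0 + r • e) z z' (r' - r) h1 ?_
    have h3 : w0 + r • e + (r' - r) • e = w0 + r' • e := by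
      rw [add_assoc, ← add_smul]
      congr 2
      ring
    rw [h3]
    exact h2

end Pool.Agent.PhysND
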